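import Pool.Agent.W823.QT.Stm

/-!
# MP_26aa9e_pr, project QT (helper823), part QT-MARK: Markov property of an i.i.d. sequence
-/

set_option autoImplicit false

namespace Pool.Agent.W335.QTMARK

open MeasureTheory ProbabilityTheory Pool.Agent.W823.QT
open scoped ENNReal NNReal

/-- concatenation -/
def cat {G : Type} (n : ℕ) (p : (ℕ → G) × (ℕ → G)) : ℕ → G :=
  fun i => if i < n then p.1 i else p.2 (i - n)

theorem meas_cat {G : Type} [MeasurableSpace G] (n : ℕ) : Measurable (cat (G := G) n) := by
  refine measurable_pi_iff.2 fun i => ?_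
  unfold cat
  by_cases h : i < n
  · simp only [h, if_true]
    exact (measurable_pi_apply i).comp measurable_fst
  · simp only [h, if_false]
    exact (measurable_pi_apply (i - n)).comp measurable_snd

theorem map_cat {G : Type} [MeasurableSpace G] (q : Measure G) [IsProbabilityMeasure q] (n : ℕ) :
    Measure.map (cat n) ((Measure.infinitePi fun _ : ℕ => q).prod
      (Measure.infinitePi fun _ : ℕ => q)) = Measure.infinitePi fun _ : ℕ => q := by
  classical
  refine Measure.eq_infinitePi _ fun s t ht => ?_
  rw [Measure.map_apply (meas_cat n) (MeasurableSet.pi s.countable_toSet fun _ _ => ht _)]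
  set s₁ : Finset ℕ := s.filter (fun i => i < n) with hs₁
  set s₂ : Finset ℕ := s.filter (fun i => ¬ i < n) with hs₂
  have hpre : cat n ⁻¹' (Set.pi (s : Set ℕ) t) =
      (Set.pi (s₁ : Set ℕ) t) ×ˢ
        (Set.pi ((s₂.image fun i => i - n : Finset ℕ) : Set ℕ) fun j => t (n + j)) := by
    ext p
    simp only [Set.mem_preimage, Set.mem_pi, Set.mem_prod, Finset.mem_coe, Finset.mem_image]
    constructor
    · intro h
      refine ⟨fun i hi => ?_, ?_⟩
      · rw [hs₁, Finset.mem_filter] at hi
        have := h i hi.1
        simpa [cat, hi.2] using this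
      · rintro j ⟨i, hi, rfl⟩
        rw [hs₂, Finset.mem_filter] at hi
        have := h i hi.1
        have e : n + (i - n) = i := by omega
        rw [e]
        simpa [cat, hi.2] using this
    · rintro ⟨h1, h2⟩ i hi
      by_cases hin : i < n
      · have := h1 i (by rw [hs₁, Finset.mem_filter]; exact ⟨hi, hin⟩)
        simpa [cat, hin] using this
      · have := h2 (i - n) ⟨i, by rw [hs₂, Finset.mem_filter]; exact ⟨hi, hin⟩, rfl⟩
        have e : n + (i - n) = i := by omega
        rw [e] at this
        simpa [cat, hin] using this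
  rw [hpre, Measure.prod_prod, Measure.infinitePi_pi _ (fun i _ => ht i),
    Measure.infinitePi_pi _ (fun i _ => ht (n + i)), Finset.prod_image]
  · have e : ∏ i ∈ s₂, q (t (n + (i - n))) = ∏ i ∈ s₂, q (t i) := by
      refine Finset.prod_congr rfl fun i hi => ?_
      rw [hs₂, Finset.mem_filter] at hi
      have e : n + (i - n) = i := by omega
      rw [e]
    rw [e, hs₁, hs₂, Finset.prod_filter_mul_prod_filter_not]
  · intro i hi j hj hij
    rw [hs₂, Finset.coe_filter] at hi hj
    have h1 := hi.2
    have h2 := hj.2
    simp only at hij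
    omega

theorem main : MARK_T := by
  intro d q _ n F hF hloc
  have hsh : Measurable (sh (d := d) n) := by
    refine measurable_pi_iff.2 fun i => ?_
    exact measurable_pi_apply (n + i)
  have hm : Measurable fun a : ℕ → Fin d → ℤ => F a (sh n a) :=
    hF.comp (measurable_id.prodMk hsh)
  have h1 := map_cat q n
  have hid : iid q = Measure.infinitePi fun _ : ℕ => q := rfl
  calc ∫⁻ a, F a (sh n a) ∂(iid q)
      = ∫⁻ a, F a (sh n a) ∂(Measure.map (cat n) ((iid q).prod (iid q))) := by
        rw [hid, h1]
    _ = ∫⁻ p, F (cat n p) (sh n (cat n p)) ∂((iid q).prod (iid q)) :=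
        lintegral_map hm (meas_cat n)
    _ = ∫⁻ p, F p.1 p.2 ∂((iid q).prod (iid q)) := by
        refine lintegral_congr fun p => ?_
        have e : sh n (cat n p) = p.2 := by
          funext i
          unfold sh cat
          have h2 : ¬ (n + i < n) := by omega
          have h3 : n + i - n = i := by omega
          rw [if_neg h2, h3]
        rw [e]
        exact hloc _ _ _ fun i hi => by unfold cat; rw [if_pos hi]
    _ = ∫⁻ a, ∫⁻ b, F a b ∂(iid q) ∂(iid q) := by
        rw [hid]
        exact lintegral_prod _ hF.aemeasurable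

end Pool.Agent.W335.QTMARK
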