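import Mathlib
import Pool.Agent.H686R4.ShkA

/-!
# The rational Urysohn space

Basic facts about countable metric spaces with rational distances and the finite extension
property: existence, universality, ultrahomogeneity, free amalgamation.
-/

set_option autoImplicit false

namespace Pool.Agent.W335

open Set Filter Topology

/-- `X` is a rational Urysohn space. -/
structure IsQU (X : Type*) [MetricSpace X] : Prop where
  countable : Countable X
  rat : ∀ x y : X, ∃ q : ℚ, dist x y = (q : ℝ)
  ext : ∀ (A : Finset X) (f : X → ℚ), (∀ a ∈ A, 0 < f a) →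
    (∀ a ∈ A, ∀ b ∈ A, |(f a : ℝ) - (f b : ℝ)| ≤ dist a b ∧
      dist a b ≤ (f a : ℝ) + (f b : ℝ)) →
    ∃ x : X, ∀ a ∈ A, dist x a = (f a : ℝ)

/-- a real number which is rational -/
def Rt (r : ℝ) : Prop := ∃ q : ℚ, r = (q : ℝ)

theorem Rt.add {r s : ℝ} (h : Rt r) (h' : Rt s) : Rt (r + s) := by
  obtain ⟨q, rfl⟩ := h
  obtain ⟨q', rfl⟩ := h'
  exact ⟨q + q', by push_cast; ring⟩

theorem Rt.sub {r s : ℝ} (h : Rt r) (h' : Rt s) : Rt (r - s) := by
  obtain ⟨q, rfl⟩ := h
  obtain ⟨q', rfl⟩ := h'
  exact ⟨q - q', by push_cast; ring⟩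

theorem Rt.zero : Rt 0 := ⟨0, by simp⟩

theorem Rt.one : Rt 1 := ⟨1, by simp⟩

theorem Rt.min {r s : ℝ} (h : Rt r) (h' : Rt s) : Rt (min r s) := by
  rcases min_choice r s with h1 | h1 <;> rw [h1] <;> assumption

section

variable {X : Type*} [MetricSpace X]

theorem IsQU.ext' (h : IsQU X) {ι : Type*} [Finite ι] (p : ι → X) (f : ι → ℝ)
    (hf : ∀ i, Rt (f i))
    (h1 : ∀ i j, |f i - f j| ≤ dist (p i) (p j) ∧ dist (p i) (p j) ≤ f i + f j) :
    ∃ x : X, ∀ i, dist x (p i) = f i := by
  classical
  have hnn : ∀ i, 0 ≤ f i := by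
    intro i
    have := (h1 i i).2
    rw [dist_self] at this
    linarith
  by_cases h0 : ∃ i, f i = 0
  · obtain ⟨i, hi⟩ := h0
    refine ⟨p i, fun j => ?_⟩
    have h2 := h1 i j
    rw [hi] at h2
    have h3 := abs_le.1 h2.1
    linarith [h2.2, h3.1, h3.2]
  · push Not at h0
    have hpos : ∀ i, 0 < f i := fun i => lt_of_le_of_ne (hnn i) (Ne.symm (h0 i))
    choose q hq using hf
    let _ := Fintype.ofFinite ι
    let F : X → ℚ := fun x => if hx : ∃ i, p i = x then q hx.choose else 1
    have hF : ∀ i, (F (p i) : ℝ) = f i := by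
      intro i
      have hx : ∃ j, p j = p i := ⟨i, rfl⟩
      have e1 : F (p i) = q hx.choose := dif_pos hx
      rw [e1, ← hq]
      have h2 := (h1 hx.choose i).1
      rw [hx.choose_spec, dist_self] at h2
      have h3 := abs_le.1 h2
      linarith [h3.1, h3.2]
    obtain ⟨x, hx⟩ := h.ext (Finset.univ.image p) F
      (by
        intro a ha
        obtain ⟨i, -, rfl⟩ := Finset.mem_image.1 ha
        have : (0 : ℝ) < F (p i) := by rw [hF]; exact hpos i
        exact_mod_cast this)
      (by
        intro a ha b hb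
        obtain ⟨i, -, rfl⟩ := Finset.mem_image.1 ha
        obtain ⟨j, -, rfl⟩ := Finset.mem_image.1 hb
        rw [hF, hF]
        exact h1 i j)
    exact ⟨x, fun i => by rw [hx (p i) (Finset.mem_image_of_mem _ (Finset.mem_univ _)), hF]⟩

theorem IsQU.nonempty (h : IsQU X) : Nonempty X := by
  obtain ⟨x, -⟩ := h.ext ∅ (fun _ => 1) (by simp) (by simp)
  exact ⟨x⟩

/-- Universality for pseudometrics on `ℕ`. -/
theorem IsQU.emb_nat (h : IsQU X) (D : ℕ → ℕ → ℝ) (hr : ∀ i j, Rt (D i j))
    (h0 : ∀ i, D i i = 0) (hs : ∀ i j, D i j = D j i) (ht : ∀ i j k, D i k ≤ D i j + D j k) :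
    ∃ e : ℕ → X, ∀ i j, dist (e i) (e j) = D i j := by
  classical
  have := h.nonempty
  let P : (n : ℕ) → ((i : ℕ) → i < n → X) → X → Prop := fun n prev x =>
    ∀ i (hi : i < n), dist x (prev i hi) = D n i
  let e : ℕ → X := fun n => Nat.strongRec (motive := fun _ => X)
    (fun n prev => Classical.epsilon (P n prev)) n
  have he : ∀ n, e n = Classical.epsilon (fun x => ∀ i, i < n → dist x (e i) = D n i) := by
    intro n
    show Nat.strongRec (motive := fun _ => X)
      (fun n prev => Classical.epsilon (P n prev)) n = _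
    rw [Nat.strongRec_eq]
  have key : ∀ n, ∀ i < n, dist (e n) (e i) = D n i := by
    intro n
    induction n using Nat.strong_induction_on with
    | _ n ih =>
      have hd : ∀ i j, i < n → j < n → dist (e i) (e j) = D i j := by
        intro i j hi hj
        rcases lt_trichotomy i j with hij | hij | hij
        · rw [dist_comm, ih j hj i hij, hs]
        · subst hij; rw [dist_self, h0]
        · exact ih i hi j hij
      have hex : ∃ x : X, ∀ i, i < n → dist x (e i) = D n i := by
        obtain ⟨x, hx⟩ := h.ext' (fun i : Fin n => e i) (fun i : Fin n => D n i)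
          (fun i => hr _ _)
          (by
            intro i j
            rw [hd i j i.2 j.2]
            refine ⟨abs_le.2 ⟨?_, ?_⟩, ?_⟩
            · have := ht n i j
              linarith
            · have := ht n j i
              have h2 := hs j i
              linarith
            · have := ht i n j
              have h2 := hs i n
              linarith)
        exact ⟨x, fun i hi => hx ⟨i, hi⟩⟩
      rw [he n]
      exact Classical.epsilon_spec hex
  refine ⟨e, fun i j => ?_⟩
  rcases lt_trichotomy i j with hij | hij | hij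
  · rw [dist_comm, key j i hij, hs]
  · subst hij; rw [dist_self, h0]
  · exact key i j hij

/-- Universality for pseudometrics on countable sets. -/
theorem IsQU.emb (h : IsQU X) {ι : Type*} [Countable ι] (D : ι → ι → ℝ) (hr : ∀ i j, Rt (D i j))
    (h0 : ∀ i, D i i = 0) (hs : ∀ i j, D i j = D j i) (ht : ∀ i j k, D i k ≤ D i j + D j k) :
    ∃ e : ι → X, ∀ i j, dist (e i) (e j) = D i j := by
  classical
  rcases isEmpty_or_nonempty ι with hι | hι
  · exact ⟨fun i => hι.elim i, fun i => hι.elim i⟩
  · obtain ⟨f, hf⟩ := exists_surjective_nat ι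
    obtain ⟨e, he⟩ := h.emb_nat (fun m n => D (f m) (f n)) (fun _ _ => hr _ _) (fun _ => h0 _)
      (fun _ _ => hs _ _) (fun _ _ _ => ht _ _ _)
    refine ⟨fun i => e (Function.surjInv hf i), fun i j => ?_⟩
    rw [he, Function.surjInv_eq hf, Function.surjInv_eq hf]

/-- finite partial isometries -/
def PI (X : Type*) [MetricSpace X] : Type _ :=
  {s : Finset (X × X) // ∀ p ∈ s, ∀ q ∈ s, dist p.1 q.1 = dist p.2 q.2}

instance : Preorder (PI X) := inferInstanceAs (Preorder {s : Finset (X × X) // _})

theorem IsQU.extend_dom (h : IsQU X) (s : PI X) (x : X) : ∃ t : PI X, s ≤ t ∧ ∃ y, (x, y) ∈ t.1 := by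
  classical
  obtain ⟨y, hy⟩ := h.ext' (fun i : s.1 => i.1.2) (fun i : s.1 => dist x i.1.1)
    (fun i => h.rat _ _)
    (by
      intro i j
      rw [← s.2 i.1 i.2 j.1 j.2]
      refine ⟨?_, ?_⟩
      · rw [dist_comm x, dist_comm x]; exact abs_dist_sub_le _ _ _
      · rw [dist_comm x i.1.1]; exact dist_triangle _ _ _)
  refine ⟨⟨insert (x, y) s.1, ?_⟩, Finset.subset_insert _ _, y, Finset.mem_insert_self _ _⟩
  intro p hp q hq
  rcases Finset.mem_insert.1 hp with rfl | hp <;> rcases Finset.mem_insert.1 hq with rfl | hq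
  · simp
  · exact (hy ⟨q, hq⟩).symm
  · have := (hy ⟨p, hp⟩).symm
    simp only at this ⊢
    rw [dist_comm, this, dist_comm]
  · exact s.2 p hp q hq

/-- the inverse of a finite partial isometry -/
noncomputable def PI.symm (s : PI X) : PI X := by
  classical
  exact ⟨s.1.image Prod.swap, by
    intro p hp q hq
    obtain ⟨p', hp', rfl⟩ := Finset.mem_image.1 hp
    obtain ⟨q', hq', rfl⟩ := Finset.mem_image.1 hq
    exact (s.2 p' hp' q' hq').symm⟩

theorem PI.mem_symm (s : PI X) (x y : X) : (x, y) ∈ s.symm.1 ↔ (y, x) ∈ s.1 := by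
  classical
  unfold PI.symm
  simp only [Finset.mem_image, Prod.exists, Prod.swap_prod_mk, Prod.mk.injEq]
  constructor
  · rintro ⟨a, b, hab, rfl, rfl⟩; exact hab
  · intro h; exact ⟨y, x, h, rfl, rfl⟩

theorem IsQU.extend_cod (h : IsQU X) (s : PI X) (y : X) : ∃ t : PI X, s ≤ t ∧ ∃ x, (x, y) ∈ t.1 := by
  classical
  obtain ⟨t, ht, x, hx⟩ := h.extend_dom s.symm y
  refine ⟨t.symm, ?_, x, ?_⟩
  · rintro ⟨a, b⟩ hab
    rw [PI.mem_symm]
    apply ht
    rw [PI.mem_symm]
    exact hab
  · rw [PI.mem_symm]; exact hx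

/-- Ultrahomogeneity. -/
theorem IsQU.homog (h : IsQU X) {ι : Type*} [Finite ι] (p q : ι → X)
    (hpq : ∀ i j, dist (p i) (p j) = dist (q i) (q j)) :
    ∃ g : X ≃ᵢ X, ∀ i, g (p i) = q i := by
  classical
  let _ := Fintype.ofFinite ι
  have := h.countable
  let _ : Encodable X := Encodable.ofCountable X
  let s0 : PI X := ⟨Finset.univ.image (fun i => (p i, q i)), by
    intro a ha b hb
    obtain ⟨i, -, rfl⟩ := Finset.mem_image.1 ha
    obtain ⟨j, -, rfl⟩ := Finset.mem_image.1 hb
    exact hpq i j⟩
  let cof : X ⊕ X → Order.Cofinal (PI X) := fun z => match z with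
    | .inl x => ⟨{t | ∃ y, (x, y) ∈ t.1}, fun s => by
        obtain ⟨t, h1, h2⟩ := h.extend_dom s x
        exact ⟨t, h2, h1⟩⟩
    | .inr y => ⟨{t | ∃ x, (x, y) ∈ t.1}, fun s => by
        obtain ⟨t, h1, h2⟩ := h.extend_cod s y
        exact ⟨t, h2, h1⟩⟩
  let I := Order.idealOfCofinals s0 cof
  have hI : ∀ z, ∃ t ∈ cof z, t ∈ I := fun z => Order.cofinal_meets_idealOfCofinals s0 cof z
  have hs0 : s0 ∈ I := Order.mem_idealOfCofinals s0 cof
  let R : X → X → Prop := fun x y => ∃ t ∈ I, (x, y) ∈ t.1
  have hR : ∀ x y x' y', R x y → R x' y' → dist x x' = dist y y' := by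
    rintro x y x' y' ⟨t, ht, h1⟩ ⟨t', ht', h2⟩
    obtain ⟨u, hu, h3, h4⟩ := I.directed t ht t' ht'
    exact u.2 _ (h3 h1) _ (h4 h2)
  have hdom : ∀ x, ∃ y, R x y := by
    intro x
    obtain ⟨t, ⟨y, hy⟩, ht⟩ := hI (.inl x)
    exact ⟨y, t, ht, hy⟩
  have hcod : ∀ y, ∃ x, R x y := by
    intro y
    obtain ⟨t, ⟨x, hx⟩, ht⟩ := hI (.inr y)
    exact ⟨x, t, ht, hx⟩
  choose F hF using hdom
  choose G hG using hcod
  have hFG : ∀ y, F (G y) = y := by
    intro y
    have := hR _ _ _ _ (hF (G y)) (hG y)
    rw [dist_self] at this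
    exact dist_eq_zero.1 this.symm
  have hGF : ∀ x, G (F x) = x := by
    intro x
    have := hR _ _ _ _ (hG (F x)) (hF x)
    rw [dist_self] at this
    exact dist_eq_zero.1 this
  refine ⟨⟨⟨F, G, hGF, hFG⟩, Isometry.of_dist_eq fun x y => (hR _ _ _ _ (hF x) (hF y)).symm⟩, ?_⟩
  intro i
  have h1 : R (p i) (q i) := ⟨s0, hs0, Finset.mem_image_of_mem _ (Finset.mem_univ i)⟩
  have := hR _ _ _ _ (hF (p i)) h1
  rw [dist_self] at this
  exact dist_eq_zero.1 this.symm

/-- the distance between `a` and `b` in the free amalgam over `C` -/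
noncomputable def fr (C : Finset X) (hC : C.Nonempty) (a b : X) : ℝ :=
  C.inf' hC (fun c => dist a c + dist c b)

section

variable {C : Finset X} {hC : C.Nonempty}

theorem fr_le {c : X} (hc : c ∈ C) (a b : X) : fr C hC a b ≤ dist a c + dist c b :=
  Finset.inf'_le (fun c => dist a c + dist c b) hc

theorem exists_fr (hC : C.Nonempty) (a b : X) : ∃ c ∈ C, fr C hC a b = dist a c + dist c b := by
  obtain ⟨c, hc, h⟩ := Finset.exists_mem_eq_inf' hC (fun c => dist a c + dist c b)
  exact ⟨c, hc, h⟩

theorem fr_comm (a b : X) : fr C hC a b = fr C hC b a := by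
  unfold fr
  congr 1
  funext c
  rw [dist_comm a c, dist_comm c b, add_comm]

theorem fr_right {c : X} (hc : c ∈ C) (a : X) : fr C hC a c = dist a c := by
  apply le_antisymm
  · have := fr_le (hC := hC) hc a c
    rw [dist_self, add_zero] at this
    exact this
  · obtain ⟨c', hc', h⟩ := exists_fr hC a c
    rw [h]
    exact dist_triangle _ _ _

theorem fr_left {c : X} (hc : c ∈ C) (a : X) : fr C hC c a = dist c a := by
  rw [fr_comm, fr_right hc, dist_comm]

theorem fr_tri1 (a a' b : X) : fr C hC a b ≤ dist a a' + fr C hC a' b := by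
  obtain ⟨c, hc, h⟩ := exists_fr hC a' b
  have h1 := fr_le (hC := hC) hc a b
  have h2 := dist_triangle a a' c
  linarith

theorem fr_tri2 (a b b' : X) : fr C hC a b ≤ fr C hC a b' + dist b' b := by
  have := fr_tri1 (C := C) (hC := hC) b b' a
  rw [fr_comm, fr_comm a b', dist_comm b' b]
  linarith

theorem fr_tri3 (a a' b : X) : dist a a' ≤ fr C hC a b + fr C hC b a' := by
  obtain ⟨c, hc, h⟩ := exists_fr hC a b
  obtain ⟨c', hc', h'⟩ := exists_fr hC b a'
  rw [h, h']
  have h1 := dist_triangle a c a'
  have h2 := dist_triangle c b a'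
  have h3 := dist_triangle b c' a'
  linarith

theorem fr_self (c : X) (hc : c ∈ C) : fr C hC c c = 0 := by
  rw [fr_right hc, dist_self]

/-- `fr C` is invariant under isometries fixing `C` pointwise. -/
theorem fr_apply {g : X ≃ᵢ X} (hg : ∀ c ∈ C, g c = c) (a b : X) :
    fr C hC a (g b) = fr C hC a b := by
  unfold fr
  refine Finset.inf'_congr hC rfl ?_
  intro c hc
  congr 1
  conv_lhs => rw [← hg c hc]
  exact g.dist_eq _ _

theorem IsQU.rt_fr (h : IsQU X) (a b : X) : Rt (fr C hC a b) := by
  obtain ⟨c, hc, h'⟩ := exists_fr hC a b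
  rw [h']
  exact Rt.add (h.rat _ _) (h.rat _ _)

/-- Free amalgamation: there is an isometry fixing `C` and moving `A` to a set which is free
over `C` from `A`. -/
theorem IsQU.exists_free (h : IsQU X) (hC : C.Nonempty) (A : Finset X) :
    ∃ g : X ≃ᵢ X, (∀ c ∈ C, g c = c) ∧ ∀ a ∈ A, ∀ b ∈ A, dist (g a) b = fr C hC a b := by
  classical
  have := h.countable
  obtain ⟨e, he⟩ := h.emb (ι := Bool × X)
    (fun x y => if x.1 = y.1 then dist x.2 y.2 else fr C hC x.2 y.2)
    (by
      rintro ⟨s, x⟩ ⟨t, y⟩
      dsimp only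
      split_ifs
      · exact h.rat _ _
      · exact h.rt_fr _ _)
    (by rintro ⟨s, x⟩; simp)
    (by
      rintro ⟨s, x⟩ ⟨t, y⟩
      dsimp only
      by_cases hst : s = t
      · subst hst; simp [dist_comm]
      · rw [if_neg hst, if_neg (Ne.symm hst), fr_comm])
    (by
      rintro ⟨s, x⟩ ⟨t, y⟩ ⟨u, z⟩
      dsimp only
      by_cases h1 : s = t
      · subst h1
        by_cases h2 : s = u
        · subst h2; simp only [if_true]; exact dist_triangle _ _ _
        · simp only [if_true, if_neg h2]; exact fr_tri1 _ _ _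
      · by_cases h2 : s = u
        · subst h2
          simp only [if_true, if_neg h1, if_neg (Ne.symm h1)]
          exact fr_tri3 _ _ _
        · have h3 : t = u := by
            revert h1 h2; cases s <;> cases t <;> cases u <;> simp
          subst h3
          simp only [if_neg h1, if_true]
          exact fr_tri2 _ _ _)
  let B : Finset X := A ∪ C
  obtain ⟨k, hk⟩ := h.homog (ι := B) (fun b => e (true, b.1)) (fun b => b.1)
    (by intro i j; simp only [he, if_true])
  obtain ⟨g, hg⟩ := h.homog (ι := B) (fun b => b.1) (fun b => k (e (false, b.1)))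
    (by intro i j; simp only [k.dist_eq, he, if_true])
  have hg' : ∀ a ∈ B, g a = k (e (false, a)) := fun a ha => hg ⟨a, ha⟩
  have hk' : ∀ a ∈ B, k (e (true, a)) = a := fun a ha => hk ⟨a, ha⟩
  refine ⟨g, fun c hc => ?_, fun a ha b hb => ?_⟩
  · have hcB : c ∈ B := Finset.mem_union_right _ hc
    have : dist (g c) c = 0 := by
      rw [hg' c hcB]
      nth_rewrite 2 [← hk' c hcB]
      rw [k.dist_eq, he]
      simp [fr_self c hc]
    exact dist_eq_zero.1 this
  · have haB : a ∈ B := Finset.mem_union_left _ ha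
    have hbB : b ∈ B := Finset.mem_union_left _ hb
    rw [hg' a haB]
    nth_rewrite 1 [← hk' b hbB]
    rw [k.dist_eq, he]
    simp

end

end

/-! ### Existence -/

/-- `D` restricted to `{0, ..., n-1}` is a metric. -/
structure MetOn (n : ℕ) (D : ℕ → ℕ → ℚ) : Prop where
  self : ∀ i < n, D i i = 0
  pos : ∀ i < n, ∀ j < n, i ≠ j → 0 < D i j
  symm : ∀ i < n, ∀ j < n, D i j = D j i
  tri : ∀ i < n, ∀ j < n, ∀ k < n, D i k ≤ D i j + D j k

/-- the list `l` of pairs describes a Katetov function -/
def KatL (D : ℕ → ℕ → ℚ) (l : List (ℕ × ℚ)) : Prop :=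
  ∀ p ∈ l, 0 < p.2 ∧ ∀ q ∈ l, |p.2 - q.2| ≤ D p.1 q.1 ∧ D p.1 q.1 ≤ p.2 + q.2

/-- the `k`-th task -/
def TaskL (k : ℕ) (D : ℕ → ℕ → ℚ) : Prop :=
  ∀ l : List (ℕ × ℚ), Encodable.decode (Nat.unpair k).1 = some l →
    (∀ p ∈ l, p.1 ≤ (Nat.unpair k).2) → KatL D l → ∃ n, ∀ p ∈ l, D n p.1 = p.2

theorem exists_D : ∃ D : ℕ → ℕ → ℚ, (∀ n, MetOn n D) ∧ ∀ k, TaskL k D := by
  classical
  refine Pool.Agent.H686R4.chain (P := fun n D => MetOn n D) (R := TaskL) ?_ ?_ (fun _ _ => 0) ?_ ?_
  · intro n D D' h hP
    exact ⟨fun i hi => by rw [← h i hi i hi]; exact hP.self i hi,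
      fun i hi j hj hij => by rw [← h i hi j hj]; exact hP.pos i hi j hj hij,
      fun i hi j hj => by rw [← h i hi j hj, ← h j hj i hi]; exact hP.symm i hi j hj,
      fun i hi j hj k hk => by
        rw [← h i hi j hj, ← h j hj k hk, ← h i hi k hk]; exact hP.tri i hi j hj k hk⟩
  · intro m n D h hD
    exact ⟨fun i hi => hD.self i (by omega), fun i hi j hj => hD.pos i (by omega) j (by omega),
      fun i hi j hj => hD.symm i (by omega) j (by omega),
      fun i hi j hj k hk => hD.tri i (by omega) j (by omega) k (by omega)⟩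
  · exact ⟨fun _ _ => rfl, fun i hi j hj h => by omega, fun _ _ _ _ => rfl,
      fun _ _ _ _ _ _ => by simp⟩
  · intro k n D hk hD
    by_cases hT : ∃ l : List (ℕ × ℚ), Encodable.decode (Nat.unpair k).1 = some l ∧
        (∀ p ∈ l, p.1 ≤ (Nat.unpair k).2) ∧ KatL D l ∧ l ≠ []
    swap
    · -- add an isolated point
      push Not at hT
      have hpos : ∃ M : ℚ, 0 < M ∧ ∀ i < n, ∀ j < n, D i j ≤ M := by
        refine ⟨1 + ∑ i ∈ Finset.range n, ∑ j ∈ Finset.range n, |D i j|, ?_, ?_⟩
        · have : 0 ≤ ∑ i ∈ Finset.range n, ∑ j ∈ Finset.range n, |D i j| :=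
            Finset.sum_nonneg fun _ _ => Finset.sum_nonneg fun _ _ => abs_nonneg _
          linarith
        · intro i hi j hj
          have h1 : |D i j| ≤ ∑ j ∈ Finset.range n, |D i j| :=
            Finset.single_le_sum (f := fun j => |D i j|) (fun _ _ => abs_nonneg _)
              (Finset.mem_range.2 hj)
          have h2 : ∑ j ∈ Finset.range n, |D i j| ≤
              ∑ i ∈ Finset.range n, ∑ j ∈ Finset.range n, |D i j| :=
            Finset.single_le_sum (f := fun i => ∑ j ∈ Finset.range n, |D i j|)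
              (fun _ _ => Finset.sum_nonneg fun _ _ => abs_nonneg _) (Finset.mem_range.2 hi)
          have h3 := le_abs_self (D i j)
          linarith
      obtain ⟨M, hM, hM'⟩ := hpos
      refine ⟨n + 1, fun i j => if i < n then (if j < n then D i j else M) else
        (if j < n then M else 0), by omega, ⟨?_, ?_, ?_, ?_⟩, ?_, ?_⟩
      · intro i hi
        by_cases h : i < n
        · simp [h, hD.self i h]
        · simp [h]
      · intro i hi j hj hij
        by_cases h : i < n <;> by_cases h' : j < n <;> simp [h, h', hM]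
        · exact hD.pos i h j h' hij
        · omega
      · intro i hi j hj
        by_cases h : i < n <;> by_cases h' : j < n <;> simp [h, h']
        exact hD.symm i h j h'
      · intro i hi j hj l hl
        by_cases h : i < n <;> by_cases h' : j < n <;> by_cases h'' : l < n <;> simp [h, h', h'']
        · exact hD.tri i h j h' l h''
        · by_cases e : i = j
          · subst e; rw [hD.self i h]
          · exact (hD.pos i h j h' e).le
        · have := hM' i h l h''
          linarith
        · by_cases e : j = l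
          · subst e; rw [hD.self j h']
          · exact (hD.pos j h' l h'' e).le
        · exact hM.le
      · intro i hi j hj
        simp [hi, hj]
      · intro D'' hD'' l hl hl' hK
        by_cases he : l = []
        · subst he; exact ⟨0, by simp⟩
        · exfalso
          refine he (hT l hl hl' ?_)
          have hlt : ∀ p ∈ l, p.1 < n := fun p hp =>
            lt_of_le_of_lt (hl' p hp) (lt_of_le_of_lt (Nat.unpair_right_le k) hk)
          intro p hp
          refine ⟨(hK p hp).1, fun q hq => ?_⟩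
          have h1 := (hK p hp).2 q hq
          have h2 := hlt p hp
          have h3 := hlt q hq
          rw [hD'' p.1 (by omega) q.1 (by omega)] at h1
          simpa [h2, h3] using h1
    · obtain ⟨l, hl, hl', hK, hne⟩ := hT
      have hlt : ∀ p ∈ l, p.1 < n := fun p hp =>
        lt_of_le_of_lt (hl' p hp) (lt_of_le_of_lt (Nat.unpair_right_le k) hk)
      have hne' : l.toFinset.Nonempty := by
        rw [Finset.nonempty_iff_ne_empty]
        simpa using hne
      let f : ℕ → ℚ := fun i => l.toFinset.inf' hne' (fun p => p.2 + D p.1 i)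
      have hf1 : ∀ i, ∀ p ∈ l, f i ≤ p.2 + D p.1 i := fun i p hp =>
        Finset.inf'_le (fun p : ℕ × ℚ => p.2 + D p.1 i) (List.mem_toFinset.2 hp)
      have hf2 : ∀ i, ∃ p ∈ l, f i = p.2 + D p.1 i := by
        intro i
        obtain ⟨p, hp, hp'⟩ := Finset.exists_mem_eq_inf' hne' (fun p : ℕ × ℚ => p.2 + D p.1 i)
        exact ⟨p, List.mem_toFinset.1 hp, hp'⟩
      have hf3 : ∀ p ∈ l, f p.1 = p.2 := by
        intro p hp
        apply le_antisymm
        · have := hf1 p.1 p hp
          rw [hD.self _ (hlt p hp)] at this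
          linarith
        · obtain ⟨q, hq, hq'⟩ := hf2 p.1
          rw [hq']
          have h1 := (abs_le.1 ((hK q hq).2 p hp).1)
          linarith [h1.1, h1.2]
      have hDnn : ∀ i < n, ∀ j < n, 0 ≤ D i j := by
        intro i hi j hj
        by_cases e : i = j
        · subst e; rw [hD.self i hi]
        · exact (hD.pos i hi j hj e).le
      have hfpos : ∀ i < n, 0 < f i := by
        intro i hi
        obtain ⟨q, hq, hq'⟩ := hf2 i
        rw [hq']
        have h1 := (hK q hq).1
        have h2 := hDnn q.1 (hlt q hq) i hi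
        linarith
      have hlip : ∀ i < n, ∀ j < n, f i ≤ f j + D j i := by
        intro i hi j hj
        obtain ⟨q, hq, hq'⟩ := hf2 j
        have h1 := hf1 i q hq
        have h2 := hD.tri q.1 (hlt q hq) j hj i hi
        linarith
      have hsum : ∀ i < n, ∀ j < n, D i j ≤ f i + f j := by
        intro i hi j hj
        obtain ⟨p, hp, hp'⟩ := hf2 i
        obtain ⟨q, hq, hq'⟩ := hf2 j
        have h1 := ((hK p hp).2 q hq).2
        have h2 := hD.tri i hi p.1 (hlt p hp) j hj
        have h3 := hD.tri p.1 (hlt p hp) q.1 (hlt q hq) j hj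
        have h4 := hD.symm i hi p.1 (hlt p hp)
        linarith
      refine ⟨n + 1, fun i j => if i < n then (if j < n then D i j else f i) else
        (if j < n then f j else 0), by omega, ⟨?_, ?_, ?_, ?_⟩, ?_, ?_⟩
      · intro i hi
        by_cases h : i < n
        · simp [h, hD.self i h]
        · simp [h]
      · intro i hi j hj hij
        by_cases h : i < n <;> by_cases h' : j < n <;> simp [h, h']
        · exact hD.pos i h j h' hij
        · exact hfpos i h
        · exact hfpos j h'
        · omega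
      · intro i hi j hj
        by_cases h : i < n <;> by_cases h' : j < n <;> simp [h, h']
        exact hD.symm i h j h'
      · intro i hi j hj m hm
        by_cases h : i < n <;> by_cases h' : j < n <;> by_cases h'' : m < n <;> simp [h, h', h'']
        · exact hD.tri i h j h' m h''
        · have h1 := hlip i h j h'
          rw [hD.symm j h' i h] at h1
          linarith
        · exact hsum i h m h''
        · exact hlip m h'' j h'
        · exact (hfpos j h').le
      · intro i hi j hj
        simp [hi, hj]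
      · intro D'' hD'' l2 hl2 hl2' hK2
        have : l2 = l := by
          rw [hl] at hl2
          exact (Option.some.inj hl2).symm
        subst this
        refine ⟨n, fun p hp => ?_⟩
        have h1 := hlt p hp
        rw [hD'' n (by omega) p.1 (by omega)]
        simp [h1, hf3 p hp]

/-- points of the model of the rational Urysohn space -/
structure QPt where
  /-- the number of the point -/
  n : ℕ

theorem exists_QU : ∃ (X : Type) (_ : MetricSpace X), IsQU X := by
  classical
  obtain ⟨D, hD, hT⟩ := exists_D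
  have hs : ∀ i j, D i j = D j i := fun i j => (hD (i + j + 1)).symm i (by omega) j (by omega)
  have h0 : ∀ i, D i i = 0 := fun i => (hD (i + 1)).self i (by omega)
  have ht : ∀ i j k, D i k ≤ D i j + D j k := fun i j k =>
    (hD (i + j + k + 1)).tri i (by omega) j (by omega) k (by omega)
  have hp : ∀ i j, i ≠ j → 0 < D i j := fun i j h =>
    (hD (i + j + 1)).pos i (by omega) j (by omega) h
  let inst : MetricSpace QPt :=
    { dist := fun x y => (D x.n y.n : ℝ)
      dist_self := fun x => by show (D x.n x.n : ℝ) = 0; rw [h0]; simp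
      dist_comm := fun x y => by show (D x.n y.n : ℝ) = D y.n x.n; rw [hs]
      dist_triangle := fun x y z => by
        show (D x.n z.n : ℝ) ≤ D x.n y.n + D y.n z.n
        exact_mod_cast ht _ _ _
      eq_of_dist_eq_zero := fun {x y} h => by
        have h' : (D x.n y.n : ℝ) = 0 := h
        by_contra hne
        have h1 : x.n ≠ y.n := by
          intro h2; apply hne; cases x; cases y; simp_all
        have h2 := hp _ _ h1
        have h3 : D x.n y.n = 0 := by exact_mod_cast h'
        linarith }
  refine ⟨QPt, inst, ⟨?_, ?_, ?_⟩⟩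
  · exact Function.Injective.countable (f := QPt.n) (by rintro ⟨a⟩ ⟨b⟩ h; simp_all)
  · intro x y; exact ⟨D x.n y.n, rfl⟩
  · intro A f hf hf'
    let l : List (ℕ × ℚ) := A.toList.map (fun a => (a.n, f a))
    have hl : ∀ p ∈ l, ∃ a ∈ A, p = (a.n, f a) := by
      intro p hp
      obtain ⟨a, ha, rfl⟩ := List.mem_map.1 hp
      exact ⟨a, Finset.mem_toList.1 ha, rfl⟩
    obtain ⟨N, hN⟩ : ∃ N, ∀ a ∈ A, a.n ≤ N := ⟨A.sup QPt.n, fun a ha => Finset.le_sup ha⟩
    have hTk := hT (Nat.pair (Encodable.encode l) N) l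
      (by rw [Nat.unpair_pair]; exact Encodable.encodek l)
      (by
        rw [Nat.unpair_pair]
        intro p hp
        obtain ⟨a, ha, rfl⟩ := hl p hp
        exact hN a ha)
      (by
        intro p hp
        obtain ⟨a, ha, rfl⟩ := hl p hp
        refine ⟨hf a ha, fun q hq => ?_⟩
        obtain ⟨b, hb, rfl⟩ := hl q hq
        have h1 := hf' a ha b hb
        have h2 : dist a b = (D a.n b.n : ℝ) := rfl
        rw [h2] at h1
        exact ⟨by exact_mod_cast h1.1, by exact_mod_cast h1.2⟩)
    obtain ⟨n, hn⟩ := hTk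
    refine ⟨⟨n⟩, fun a ha => ?_⟩
    show (D n a.n : ℝ) = f a
    have := hn (a.n, f a) (List.mem_map.2 ⟨a, Finset.mem_toList.2 ha, rfl⟩)
    exact_mod_cast this

end Pool.Agent.W335
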