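import Mathlib

/-!
# Weak limits in reflexive spaces
-/

set_option autoImplicit false

namespace Pool.Agent.W335

open Set Filter Topology

variable {E : Type*} [NormedAddCommGroup E] [NormedSpace ℝ E]

/-- Weak limits along ultrafilters in reflexive spaces. -/
theorem exists_wlim (hE : Function.Surjective (NormedSpace.inclusionInDoubleDual ℝ E))
    {I : Type*} (U : Ultrafilter I) (z : I → E) (M : ℝ) (hM : ∀ᶠ i in (U : Filter I), ‖z i‖ ≤ M) :
    ∃ v : E, ∀ φ : StrongDual ℝ E, Tendsto (fun i => φ (z i)) U (𝓝 (φ v)) := by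
  have h1 : ∀ φ : StrongDual ℝ E, ∃ r : ℝ, |r| ≤ M * ‖φ‖ ∧
      Tendsto (fun i => φ (z i)) U (𝓝 r) := by
    intro φ
    have hev : ∀ᶠ i in (U : Filter I), φ (z i) ∈ Icc (-(M * ‖φ‖)) (M * ‖φ‖) := by
      filter_upwards [hM] with i hi
      have h2 : ‖φ (z i)‖ ≤ ‖φ‖ * ‖z i‖ := φ.le_opNorm _
      have h3 : ‖φ‖ * ‖z i‖ ≤ ‖φ‖ * M := mul_le_mul_of_nonneg_left hi (norm_nonneg _)
      have h4 : |φ (z i)| ≤ M * ‖φ‖ := by
        rw [Real.norm_eq_abs] at h2
        linarith [mul_comm ‖φ‖ M]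
      exact abs_le.1 h4
    have hc : IsCompact (Icc (-(M * ‖φ‖)) (M * ‖φ‖)) := isCompact_Icc
    obtain ⟨r, hr, hr'⟩ := hc.ultrafilter_le_nhds (U.map (fun i => φ (z i)))
      (by
        rw [le_principal_iff]
        exact hev)
    exact ⟨r, abs_le.2 hr, hr'⟩
  choose ℓ hℓ1 hℓ2 using h1
  let L : StrongDual ℝ E →ₗ[ℝ] ℝ :=
    { toFun := ℓ
      map_add' := fun φ ψ => tendsto_nhds_unique (hℓ2 (φ + ψ))
        (by simpa using (hℓ2 φ).add (hℓ2 ψ))
      map_smul' := fun c φ => tendsto_nhds_unique (hℓ2 (c • φ))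
        (by simpa using (hℓ2 φ).const_mul c) }
  let L' : StrongDual ℝ (StrongDual ℝ E) := L.mkContinuous M (fun φ => hℓ1 φ)
  obtain ⟨v, hv⟩ := hE L'
  refine ⟨v, fun φ => ?_⟩
  have : φ v = ℓ φ := by
    have h2 : NormedSpace.inclusionInDoubleDual ℝ E v φ = L' φ := by rw [hv]
    exact h2
  rw [this]
  exact hℓ2 φ

/-- functionals separate points -/
theorem eq_of_dual {v w : E} (h : ∀ φ : StrongDual ℝ E, φ v = φ w) : v = w := by
  by_contra hne
  have h1 : v - w ≠ 0 := sub_ne_zero.2 hne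
  obtain ⟨g, -, hg⟩ := exists_dual_vector ℝ (v - w) (norm_ne_zero_iff.2 h1)
  have h2 : g (v - w) = 0 := by rw [map_sub, h g, sub_self]
  rw [h2] at hg
  have : ‖v - w‖ = 0 := by exact_mod_cast hg.symm
  exact h1 (norm_eq_zero.1 this)

/-- the convex combinations of the `z i`, `i ≥ N` -/
def CC (z : ℕ → E) (N : ℕ) : Set E :=
  {y | ∃ w : ℕ →₀ ℝ, (∀ i, 0 ≤ w i) ∧ Finsupp.linearCombination ℝ (fun _ : ℕ => (1 : ℝ)) w = 1 ∧
    (∀ i < N, w i = 0) ∧ Finsupp.linearCombination ℝ z w = y}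

theorem convex_CC (z : ℕ → E) (N : ℕ) : Convex ℝ (CC z N) := by
  rintro x ⟨w, h1, h2, h3, rfl⟩ y ⟨w', h1', h2', h3', rfl⟩ a b ha hb hab
  refine ⟨a • w + b • w', ?_, ?_, ?_, ?_⟩
  · intro i
    simp only [Finsupp.coe_add, Finsupp.coe_smul, Pi.add_apply, Pi.smul_apply, smul_eq_mul]
    have := h1 i
    have := h1' i
    positivity
  · rw [map_add, map_smul, map_smul, h2, h2']
    simpa using hab
  · intro i hi
    simp [h3 i hi, h3' i hi]
  · rw [map_add, map_smul, map_smul]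

theorem mem_CC (z : ℕ → E) {N n : ℕ} (h : N ≤ n) : z n ∈ CC z N := by
  classical
  refine ⟨Finsupp.single n 1, ?_, by simp, ?_, by simp⟩
  · intro i
    rw [Finsupp.single_apply]
    split_ifs <;> norm_num
  · intro i hi
    rw [Finsupp.single_apply, if_neg (by omega)]

/-- Mazur: a weak limit along a nonprincipal ultrafilter is a norm limit of convex combinations
of the tail. -/
theorem wlim_mem_closure {U : Ultrafilter ℕ} (hU : (U : Filter ℕ) ≤ atTop) {z : ℕ → E} {v : E}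
    (hv : ∀ φ : StrongDual ℝ E, Tendsto (fun i => φ (z i)) U (𝓝 (φ v))) (N : ℕ) :
    v ∈ closure (CC z N) := by
  by_contra hne
  obtain ⟨f, u, h1, h2⟩ := geometric_hahn_banach_closed_point (convex_CC z N).closure
    isClosed_closure hne
  have h3 : ∀ᶠ i in (U : Filter ℕ), f (z i) ≤ u := by
    have : ∀ᶠ i in (atTop : Filter ℕ), f (z i) ≤ u := by
      filter_upwards [eventually_ge_atTop N] with i hi
      exact (h1 _ (subset_closure (mem_CC z hi))).le
    exact hU this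
  have h4 : f v ≤ u := le_of_tendsto (hv f) h3
  linarith

/-- Two convex combinations with disjoint supports which are almost equal. -/
theorem exists_close (hE : Function.Surjective (NormedSpace.inclusionInDoubleDual ℝ E))
    (z : ℕ → E) (M : ℝ) (hM : ∀ n, ‖z n‖ ≤ M) {ε : ℝ} (hε : 0 < ε) :
    ∃ w w' : ℕ →₀ ℝ, (∀ i, 0 ≤ w i) ∧ (∀ i, 0 ≤ w' i) ∧
      Finsupp.linearCombination ℝ (fun _ : ℕ => (1 : ℝ)) w = 1 ∧
      Finsupp.linearCombination ℝ (fun _ : ℕ => (1 : ℝ)) w' = 1 ∧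
      Disjoint w.support w'.support ∧
      ‖Finsupp.linearCombination ℝ z w - Finsupp.linearCombination ℝ z w'‖ ≤ ε := by
  classical
  let U : Ultrafilter ℕ := Ultrafilter.of atTop
  have hU : (U : Filter ℕ) ≤ atTop := Ultrafilter.of_le atTop
  obtain ⟨v, hv⟩ := exists_wlim hE U z M (Eventually.of_forall hM)
  obtain ⟨y, ⟨w, a1, a2, a3, rfl⟩, hy⟩ :=
    Metric.mem_closure_iff.1 (wlim_mem_closure hU hv 0) (ε / 2) (by positivity)
  obtain ⟨N, hN⟩ : ∃ N, ∀ i ∈ w.support, i < N :=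
    ⟨w.support.sup id + 1, fun i hi => Nat.lt_succ_of_le (Finset.le_sup (f := id) hi)⟩
  obtain ⟨y', ⟨w', b1, b2, b3, rfl⟩, hy'⟩ :=
    Metric.mem_closure_iff.1 (wlim_mem_closure hU hv N) (ε / 2) (by positivity)
  refine ⟨w, w', a1, b1, a2, b2, ?_, ?_⟩
  · rw [Finset.disjoint_left]
    intro i hi hi'
    exact (Finsupp.mem_support_iff.1 hi') (b3 i (hN i hi))
  · rw [← dist_eq_norm]
    have := dist_triangle_left (Finsupp.linearCombination ℝ z w)
      (Finsupp.linearCombination ℝ z w') v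
    linarith

/-- The double limit argument. -/
theorem double_limit (hE : Function.Surjective (NormedSpace.inclusionInDoubleDual ℝ E))
    (w : ℕ → E) (M : ℝ) (hM : ∀ n, ‖w n‖ ≤ M) (ψ : ℕ → StrongDual ℝ E) (K : ℝ)
    (hK : ∀ m, ‖ψ m‖ ≤ K) (κ : ℝ) (h1 : ∀ m n, n < m → ψ m (w n) = 0)
    (h2 : ∀ m n, 1 ≤ m → m ≤ n → ψ m (w n) = κ) : κ = 0 := by
  classical
  let U : Ultrafilter ℕ := Ultrafilter.of atTop
  have hU : (U : Filter ℕ) ≤ atTop := Ultrafilter.of_le atTop
  obtain ⟨v, hv⟩ := exists_wlim hE U w M (Eventually.of_forall hM)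
  have h3 : ∀ m, 1 ≤ m → ψ m v = κ := by
    intro m hm
    refine tendsto_nhds_unique (hv (ψ m)) ?_
    refine tendsto_const_nhds.congr' ?_
    have : ∀ᶠ n in (atTop : Filter ℕ), κ = ψ m (w n) := by
      filter_upwards [eventually_ge_atTop m] with n hn
      exact (h2 m n hm hn).symm
    exact hU this
  have hK0 : 0 ≤ K := (norm_nonneg _).trans (hK 0)
  have h4 : ∀ ε > 0, |κ| ≤ K * ε := by
    intro ε hε
    obtain ⟨y, ⟨a, a1, a2, a3, rfl⟩, hy⟩ :=
      Metric.mem_closure_iff.1 (wlim_mem_closure hU hv 0) ε hε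
    obtain ⟨N, hN⟩ : ∃ N, ∀ i ∈ a.support, i < N :=
      ⟨a.support.sup id + 1, fun i hi => Nat.lt_succ_of_le (Finset.le_sup (f := id) hi)⟩
    have h5 : ψ (N + 1) (Finsupp.linearCombination ℝ w a) = 0 := by
      rw [Finsupp.linearCombination_apply, Finsupp.sum, map_sum]
      refine Finset.sum_eq_zero fun i hi => ?_
      rw [map_smul, h1 (N + 1) i (by have := hN i hi; omega), smul_zero]
    have h6 : κ = ψ (N + 1) (v - Finsupp.linearCombination ℝ w a) := by
      rw [map_sub, h5, h3 _ (by omega), sub_zero]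
    rw [h6, ← Real.norm_eq_abs]
    refine ((ψ (N + 1)).le_opNorm _).trans ?_
    rw [dist_eq_norm] at hy
    exact mul_le_mul (hK _) hy.le (norm_nonneg _) hK0
  by_contra hne
  have h5 : 0 < |κ| := abs_pos.2 hne
  have h6 := h4 (|κ| / (2 * (K + 1))) (by positivity)
  have h7 : K * (|κ| / (2 * (K + 1))) ≤ |κ| / 2 := by
    rw [← mul_div_assoc, div_le_div_iff₀ (by positivity) (by norm_num)]
    nlinarith
  linarith

end Pool.Agent.W335
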