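import Mathlib
import Pool.Agent.W335.QU
import Pool.Agent.W335.Refl

/-!
# Convergence along free isometries
-/

set_option autoImplicit false

namespace Pool.Agent.W335

open Set Filter Topology

variable {X : Type*} [MetricSpace X] {E : Type*} [NormedAddCommGroup E] [NormedSpace ℝ E]

/-- the isometries fixing `C` and moving `A` to a set free from `A` over `C`. -/
def UU (C : Finset X) (hC : C.Nonempty) (A : Finset X) : Set (X ≃ᵢ X) :=
  {g | (∀ c ∈ C, g c = c) ∧ ∀ a ∈ A, ∀ b ∈ A, dist (g a) b = fr C hC a b}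

theorem UU_anti {C : Finset X} {hC : C.Nonempty} {A B : Finset X} (h : A ⊆ B) :
    UU C hC B ⊆ UU C hC A :=
  fun _ hg => ⟨hg.1, fun a ha b hb => hg.2 a (h ha) b (h hb)⟩

/-- `β` is an orbit map for which the translations act with linear parts `L`. -/
structure Orb (β : (X ≃ᵢ X) → E) (L : (X ≃ᵢ X) → (E →ₗᵢ[ℝ] E)) : Prop where
  map : ∀ h g g', L h (β g - β g') = β (h * g) - β (h * g')
  cont : ∀ ε : ℝ, 0 < ε → ∃ A : Finset X, ∀ g w : X ≃ᵢ X, (∀ a ∈ A, w a = a) →
    ‖β (g * w) - β g‖ ≤ ε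

theorem core_one (hX : IsQU X) (hE : Function.Surjective (NormedSpace.inclusionInDoubleDual ℝ E))
    {β : (X ≃ᵢ X) → E} {L : (X ≃ᵢ X) → (E →ₗᵢ[ℝ] E)} (hβ : Orb β L) (C : Finset X)
    (hC : C.Nonempty) (M : ℝ) (hM : ∀ g : X ≃ᵢ X, (∀ c ∈ C, g c = c) → ‖β g‖ ≤ M)
    (φ : StrongDual ℝ E) (δ : ℝ) (hδ : 0 < δ) :
    ∃ A : Finset X, ∀ g ∈ UU C hC A, ∀ g' ∈ UU C hC A, φ (β g) - φ (β g') ≤ δ := by
  classical
  by_contra hcon
  push Not at hcon
  -- parameters
  obtain ⟨η, hη, hη'⟩ : ∃ η : ℝ, 0 < η ∧ ‖φ‖ * (5 * η) < δ := by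
    refine ⟨δ / (6 * (‖φ‖ + 1)), by positivity, ?_⟩
    have h0 := norm_nonneg φ
    have h1 : ‖φ‖ * (5 * (δ / (6 * (‖φ‖ + 1)))) = (5 / 6 * δ) * (‖φ‖ / (‖φ‖ + 1)) := by
      field_simp
    rw [h1]
    have h2 : ‖φ‖ / (‖φ‖ + 1) ≤ 1 := by
      rw [div_le_one (by positivity)]
      linarith
    have h3 : (5 / 6 * δ) * (‖φ‖ / (‖φ‖ + 1)) ≤ (5 / 6 * δ) * 1 :=
      mul_le_mul_of_nonneg_left h2 (by positivity)
    linarith
  obtain ⟨A, hA⟩ := hβ.cont η hη
  let Fr : (X ≃ᵢ X) → (X ≃ᵢ X) → Prop := fun g k => ∀ a ∈ A, ∀ b ∈ A, dist (g a) (k b) = fr C hC a b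
  have Fr_symm : ∀ g k, Fr g k → Fr k g := by
    intro g k h a ha b hb
    rw [dist_comm, h b hb a ha, fr_comm]
  let P : (X ≃ᵢ X) × (X ≃ᵢ X) → Prop := fun p => (∀ c ∈ C, p.1 c = c) ∧ (∀ c ∈ C, p.2 c = c) ∧
    Fr p.1 p.2 ∧ δ / 2 ≤ φ (β p.1) - φ (β p.2)
  let R : (X ≃ᵢ X) × (X ≃ᵢ X) → (X ≃ᵢ X) × (X ≃ᵢ X) → Prop := fun p q =>
    Fr p.1 q.1 ∧ Fr p.1 q.2 ∧ Fr p.2 q.1 ∧ Fr p.2 q.2
  have hstep : ∀ s : Finset ((X ≃ᵢ X) × (X ≃ᵢ X)), (∀ p ∈ s, P p) → ∃ q, P q ∧ ∀ p ∈ s, R p q := by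
    intro s hs
    -- all the points so far
    let S : Finset X := A ∪ (s.biUnion fun p => A.image p.1 ∪ A.image p.2)
    have hAS : A ⊆ S := Finset.subset_union_left
    have hpS : ∀ p ∈ s, ∀ a ∈ A, p.1 a ∈ S ∧ p.2 a ∈ S := by
      intro p hp a ha
      refine ⟨?_, ?_⟩
      · exact Finset.mem_union_right _ (Finset.mem_biUnion.2 ⟨p, hp,
          Finset.mem_union_left _ (Finset.mem_image_of_mem _ ha)⟩)
      · exact Finset.mem_union_right _ (Finset.mem_biUnion.2 ⟨p, hp,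
          Finset.mem_union_right _ (Finset.mem_image_of_mem _ ha)⟩)
    obtain ⟨g, hg, g', hg', hgg⟩ := hcon S
    obtain ⟨k, hk1, hk2⟩ := hX.exists_free hC (S ∪ A.image g ∪ A.image g')
    have hkg : Fr k g := by
      intro a ha b hb
      rw [hk2 a (by simp [hAS ha]) (g b) (by
        apply Finset.mem_union_left
        apply Finset.mem_union_right
        exact Finset.mem_image_of_mem _ hb)]
      exact fr_apply hg.1 _ _
    have hkg' : Fr k g' := by
      intro a ha b hb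
      rw [hk2 a (by simp [hAS ha]) (g' b) (by
        apply Finset.mem_union_right
        exact Finset.mem_image_of_mem _ hb)]
      exact fr_apply hg'.1 _ _
    -- freeness from the previous ones
    have hfree : ∀ u : X ≃ᵢ X, (∀ a ∈ A, ∀ b ∈ S, dist (u a) b = fr C hC a b) →
        ∀ p ∈ s, Fr p.1 u ∧ Fr p.2 u := by
      intro u hu p hp
      refine ⟨Fr_symm _ _ ?_, Fr_symm _ _ ?_⟩
      · intro a ha b hb
        rw [hu a ha (p.1 b) (hpS p hp b hb).1]
        exact fr_apply (hs p hp).1 _ _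
      · intro a ha b hb
        rw [hu a ha (p.2 b) (hpS p hp b hb).2]
        exact fr_apply (hs p hp).2.1 _ _
    have hug : ∀ a ∈ A, ∀ b ∈ S, dist (g a) b = fr C hC a b := fun a ha b hb =>
      hg.2 a (hAS ha) b hb
    have hug' : ∀ a ∈ A, ∀ b ∈ S, dist (g' a) b = fr C hC a b := fun a ha b hb =>
      hg'.2 a (hAS ha) b hb
    have huk : ∀ a ∈ A, ∀ b ∈ S, dist (k a) b = fr C hC a b := fun a ha b hb =>
      hk2 a (by simp [hAS ha]) b (by simp [hb])
    by_cases hcase : δ / 2 ≤ φ (β g) - φ (β k)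
    · exact ⟨(g, k), ⟨hg.1, hk1, Fr_symm _ _ hkg, hcase⟩, fun p hp =>
        ⟨(hfree g hug p hp).1, (hfree k huk p hp).1, (hfree g hug p hp).2, (hfree k huk p hp).2⟩⟩
    · refine ⟨(k, g'), ⟨hk1, hg'.1, hkg', ?_⟩, fun p hp =>
        ⟨(hfree k huk p hp).1, (hfree g' hug' p hp).1, (hfree k huk p hp).2,
          (hfree g' hug' p hp).2⟩⟩
      show δ / 2 ≤ φ (β k) - φ (β g')
      push Not at hcase
      linarith
  obtain ⟨f, hf1, hf2⟩ := exists_seq_of_forall_finset_exists P R hstep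
  let z : ℕ → E := fun n => β (f n).1 - β (f n).2
  have hzM : ∀ n, ‖z n‖ ≤ M + M := fun n =>
    (norm_sub_le _ _).trans (add_le_add (hM _ (hf1 n).1) (hM _ (hf1 n).2.1))
  obtain ⟨w, w', a1, b1, a2, b2, hdis, hclose⟩ := exists_close hE z (M + M) hzM hη
  -- the copies
  let pt : ℕ × Bool × A → X := fun x => if x.2.1 then (f x.1).1 x.2.2 else (f x.1).2 x.2.2
  have hFr : ∀ m n (s t : Bool) (a b : A), (m ≠ n ∨ s ≠ t) →
      dist (pt (m, s, a)) (pt (n, t, b)) = fr C hC a b := by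
    intro m n s t a b h
    rcases lt_trichotomy m n with hmn | hmn | hmn
    · have := hf2 m n hmn
      cases s <;> cases t
      · exact this.2.2.2 a a.2 b b.2
      · exact this.2.2.1 a a.2 b b.2
      · exact this.2.1 a a.2 b b.2
      · exact this.1 a a.2 b b.2
    · subst hmn
      have hst : s ≠ t := by simpa using h
      have := (hf1 m).2.2.1
      cases s <;> cases t
      · exact absurd rfl hst
      · exact Fr_symm _ _ this a a.2 b b.2
      · exact this a a.2 b b.2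
      · exact absurd rfl hst
    · have := hf2 n m hmn
      cases s <;> cases t
      · exact Fr_symm _ _ this.2.2.2 a a.2 b b.2
      · exact Fr_symm _ _ this.2.1 a a.2 b b.2
      · exact Fr_symm _ _ this.2.2.1 a a.2 b b.2
      · exact Fr_symm _ _ this.1 a a.2 b b.2
  have hsame : ∀ m (s : Bool) (a b : A), dist (pt (m, s, a)) (pt (m, s, b)) = dist a b := by
    intro m s a b
    cases s
    · exact (f m).2.dist_eq _ _
    · exact (f m).1.dist_eq _ _
  let T : Finset ℕ := w.support ∪ w'.support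
  obtain ⟨h, hh⟩ := hX.homog (ι := T × Bool × A) (fun x => pt (x.1, x.2.1, x.2.2))
    (fun x => pt (x.1, (if (x.1 : ℕ) ∈ w'.support then !x.2.1 else x.2.1), x.2.2))
    (by
      rintro ⟨m, s, a⟩ ⟨n, t, b⟩
      dsimp only
      by_cases hmn : m = n
      · subst hmn
        by_cases hst : s = t
        · subst hst
          rw [hsame, hsame]
        · rw [hFr _ _ _ _ _ _ (Or.inr hst), hFr _ _ _ _ _ _ (Or.inr _)]
          split_ifs
          · simpa using hst
          · exact hst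
      · have hmn' : (m : ℕ) ≠ n := fun h => hmn (Subtype.ext h)
        rw [hFr _ _ _ _ _ _ (Or.inl hmn'), hFr _ _ _ _ _ _ (Or.inl hmn')])
  have hh1 : ∀ m ∈ w.support, ∀ a ∈ A, h ((f m).1 a) = (f m).1 a ∧ h ((f m).2 a) = (f m).2 a := by
    intro m hm a ha
    have hm' : m ∉ w'.support := Finset.disjoint_left.1 hdis hm
    have hmT : m ∈ T := Finset.mem_union_left _ hm
    have e1 := hh (⟨m, hmT⟩, true, ⟨a, ha⟩)
    have e2 := hh (⟨m, hmT⟩, false, ⟨a, ha⟩)
    simp only [hm', if_false] at e1 e2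
    exact ⟨e1, e2⟩
  have hh2 : ∀ m ∈ w'.support, ∀ a ∈ A, h ((f m).1 a) = (f m).2 a ∧ h ((f m).2 a) = (f m).1 a := by
    intro m hm a ha
    have hmT : m ∈ T := Finset.mem_union_right _ hm
    have e1 := hh (⟨m, hmT⟩, true, ⟨a, ha⟩)
    have e2 := hh (⟨m, hmT⟩, false, ⟨a, ha⟩)
    simp only [hm, if_true] at e1 e2
    exact ⟨e1, e2⟩
  -- effect on the vectors
  have hmove : ∀ u v : X ≃ᵢ X, (∀ a ∈ A, h (u a) = v a) → ‖β (h * u) - β v‖ ≤ η := by
    intro u v huv
    have e : h * u = v * (v⁻¹ * (h * u)) := by group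
    rw [e]
    refine hA v _ ?_
    intro a ha
    show v⁻¹ (h (u a)) = a
    rw [huv a ha]
    exact v.symm_apply_apply a
  have hz1 : ∀ m ∈ w.support, ‖L h (z m) - z m‖ ≤ 2 * η := by
    intro m hm
    have e1 := hmove (f m).1 (f m).1 (fun a ha => (hh1 m hm a ha).1)
    have e2 := hmove (f m).2 (f m).2 (fun a ha => (hh1 m hm a ha).2)
    show ‖L h (β (f m).1 - β (f m).2) - (β (f m).1 - β (f m).2)‖ ≤ 2 * η
    rw [hβ.map]
    have e3 : β (h * (f m).1) - β (h * (f m).2) - (β (f m).1 - β (f m).2) =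
      (β (h * (f m).1) - β (f m).1) - (β (h * (f m).2) - β (f m).2) := by abel
    rw [e3]
    refine (norm_sub_le _ _).trans ?_
    linarith
  have hz2 : ∀ m ∈ w'.support, ‖L h (z m) + z m‖ ≤ 2 * η := by
    intro m hm
    have e1 := hmove (f m).1 (f m).2 (fun a ha => (hh2 m hm a ha).1)
    have e2 := hmove (f m).2 (f m).1 (fun a ha => (hh2 m hm a ha).2)
    show ‖L h (β (f m).1 - β (f m).2) + (β (f m).1 - β (f m).2)‖ ≤ 2 * η
    rw [hβ.map]
    have e3 : β (h * (f m).1) - β (h * (f m).2) + (β (f m).1 - β (f m).2) =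
      (β (h * (f m).1) - β (f m).2) - (β (h * (f m).2) - β (f m).1) := by abel
    rw [e3]
    refine (norm_sub_le _ _).trans ?_
    linarith
  -- sums
  have hsum : ∀ (u : ℕ →₀ ℝ) (c : ℕ → E), (∀ i, 0 ≤ u i) →
      Finsupp.linearCombination ℝ (fun _ : ℕ => (1 : ℝ)) u = 1 →
      (∀ i ∈ u.support, ‖c i‖ ≤ 2 * η) → ‖Finsupp.linearCombination ℝ c u‖ ≤ 2 * η := by
    intro u c hu hu1 hc
    rw [Finsupp.linearCombination_apply, Finsupp.sum] at hu1 ⊢
    refine (norm_sum_le _ _).trans ?_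
    have : ∑ i ∈ u.support, ‖u i • c i‖ ≤ ∑ i ∈ u.support, (u i • (1 : ℝ)) * (2 * η) := by
      refine Finset.sum_le_sum fun i hi => ?_
      rw [norm_smul, Real.norm_eq_abs, abs_of_nonneg (hu i), smul_eq_mul, mul_one]
      exact mul_le_mul_of_nonneg_left (hc i hi) (hu i)
    refine this.trans ?_
    rw [← Finset.sum_mul, hu1, one_mul]
  have hL : ∀ u : ℕ →₀ ℝ, L h (Finsupp.linearCombination ℝ z u) =
      Finsupp.linearCombination ℝ (fun i => L h (z i)) u := by
    intro u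
    rw [Finsupp.linearCombination_apply, Finsupp.linearCombination_apply, Finsupp.sum,
      Finsupp.sum, map_sum]
    refine Finset.sum_congr rfl fun i _ => ?_
    rw [map_smul]
  have hadd : ∀ (u : ℕ →₀ ℝ) (c d : ℕ → E), Finsupp.linearCombination ℝ (fun i => c i + d i) u =
      Finsupp.linearCombination ℝ c u + Finsupp.linearCombination ℝ d u := by
    intro u c d
    rw [Finsupp.linearCombination_apply, Finsupp.linearCombination_apply,
      Finsupp.linearCombination_apply, Finsupp.sum, Finsupp.sum, Finsupp.sum,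
      ← Finset.sum_add_distrib]
    refine Finset.sum_congr rfl fun i _ => ?_
    rw [smul_add]
  have hsub : ∀ (u : ℕ →₀ ℝ) (c d : ℕ → E), Finsupp.linearCombination ℝ (fun i => c i - d i) u =
      Finsupp.linearCombination ℝ c u - Finsupp.linearCombination ℝ d u := by
    intro u c d
    rw [Finsupp.linearCombination_apply, Finsupp.linearCombination_apply,
      Finsupp.linearCombination_apply, Finsupp.sum, Finsupp.sum, Finsupp.sum,
      ← Finset.sum_sub_distrib]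
    refine Finset.sum_congr rfl fun i _ => ?_
    rw [smul_sub]
  have k1 := hsum w (fun i => L h (z i) - z i) a1 a2 hz1
  have k2 := hsum w' (fun i => L h (z i) + z i) b1 b2 hz2
  rw [hsub, ← hL] at k1
  rw [hadd, ← hL] at k2
  set Zw := Finsupp.linearCombination ℝ z w
  set Zw' := Finsupp.linearCombination ℝ z w'
  have k3 : ‖L h (Zw - Zw')‖ ≤ η := by
    rw [LinearIsometry.norm_map]; exact hclose
  have k4 : ‖Zw + Zw'‖ ≤ 5 * η := by
    have e : Zw + Zw' = L h (Zw - Zw') - (L h Zw - Zw) + (L h Zw' + Zw') := by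
      rw [map_sub]; abel
    rw [e]
    refine (norm_add_le _ _).trans ?_
    have := norm_sub_le (L h (Zw - Zw')) (L h Zw - Zw)
    linarith
  -- lower bound
  have hlow : ∀ u : ℕ →₀ ℝ, (∀ i, 0 ≤ u i) →
      Finsupp.linearCombination ℝ (fun _ : ℕ => (1 : ℝ)) u = 1 →
      δ / 2 ≤ φ (Finsupp.linearCombination ℝ z u) := by
    intro u hu hu1
    rw [Finsupp.linearCombination_apply, Finsupp.sum] at hu1 ⊢
    rw [map_sum]
    calc δ / 2 = (∑ i ∈ u.support, u i • (1 : ℝ)) * (δ / 2) := by rw [hu1, one_mul]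
      _ = ∑ i ∈ u.support, (u i • (1 : ℝ)) * (δ / 2) := by rw [Finset.sum_mul]
      _ ≤ ∑ i ∈ u.support, φ (u i • z i) := by
          refine Finset.sum_le_sum fun i _ => ?_
          rw [map_smul, smul_eq_mul, smul_eq_mul, mul_one]
          refine mul_le_mul_of_nonneg_left ?_ (hu i)
          show δ / 2 ≤ φ (β (f i).1 - β (f i).2)
          rw [map_sub]
          exact (hf1 i).2.2.2
  have l1 := hlow w a1 a2
  have l2 := hlow w' b1 b2
  have l3 : φ (Zw + Zw') ≤ ‖φ‖ * ‖Zw + Zw'‖ :=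
    (le_abs_self _).trans (by rw [← Real.norm_eq_abs]; exact φ.le_opNorm _)
  rw [map_add] at l3
  have l4 : ‖φ‖ * ‖Zw + Zw'‖ ≤ ‖φ‖ * (5 * η) := mul_le_mul_of_nonneg_left k4 (norm_nonneg _)
  linarith

end Pool.Agent.W335
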