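import Mathlib
import Pool.Agent.W335.Core

/-!
# Every continuous affine isometric action of the isometry group of the rational Urysohn space on
a reflexive space has a fixed point
-/

set_option autoImplicit false

namespace Pool.Agent.W335

open Set Filter Topology

variable {X : Type*} [MetricSpace X] {E : Type*} [NormedAddCommGroup E] [NormedSpace ℝ E]

/-- the filter of free isometries over `C` -/
noncomputable def FF (C : Finset X) (hC : C.Nonempty) : Filter (X ≃ᵢ X) :=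
  ⨅ A : Finset X, 𝓟 (UU C hC A)

theorem FF_basis (C : Finset X) (hC : C.Nonempty) :
    (FF C hC).HasBasis (fun _ : Finset X => True) (UU C hC) := by
  classical
  refine hasBasis_iInf_principal ?_
  intro A B
  exact ⟨A ∪ B, UU_anti Finset.subset_union_left, UU_anti Finset.subset_union_right⟩

theorem FF_neBot (hX : IsQU X) (C : Finset X) (hC : C.Nonempty) : (FF C hC).NeBot := by
  rw [(FF_basis C hC).neBot_iff]
  intro A _
  obtain ⟨g, hg⟩ := hX.exists_free hC A
  exact ⟨g, hg⟩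

theorem FF_fix (C : Finset X) (hC : C.Nonempty) : ∀ᶠ g in FF C hC, ∀ c ∈ C, g c = c := by
  rw [(FF_basis C hC).eventually_iff]
  exact ⟨∅, trivial, fun g hg => hg.1⟩

theorem FF_left {C : Finset X} {hC : C.Nonempty} {h : X ≃ᵢ X} (hh : ∀ c ∈ C, h c = c) :
    Tendsto (fun g => h * g) (FF C hC) (FF C hC) := by
  classical
  rw [(FF_basis C hC).tendsto_iff (FF_basis C hC)]
  intro A _
  have hinv : ∀ c ∈ C, h⁻¹ c = c := fun c hc => by
    conv_lhs => rw [← hh c hc]
    exact h.symm_apply_apply c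
  refine ⟨A ∪ A.image (fun x => h⁻¹ x), trivial, fun g hg => ⟨fun c hc => ?_, fun a ha b hb => ?_⟩⟩
  · show h (g c) = c
    rw [hg.1 c hc, hh c hc]
  · show dist (h (g a)) b = _
    have e : b = h (h⁻¹ b) := (h.apply_symm_apply b).symm
    rw [e, h.dist_eq, hg.2 a (Finset.mem_union_left _ ha) (h⁻¹ b)
      (Finset.mem_union_right _ (Finset.mem_image.2 ⟨b, hb, rfl⟩)), fr_apply hinv,
      ← e]

theorem FF_right {C : Finset X} {hC : C.Nonempty} {h : X ≃ᵢ X} (hh : ∀ c ∈ C, h c = c) :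
    Tendsto (fun g => g * h) (FF C hC) (FF C hC) := by
  classical
  rw [(FF_basis C hC).tendsto_iff (FF_basis C hC)]
  intro A _
  refine ⟨A ∪ A.image h, trivial, fun g hg => ⟨fun c hc => ?_, fun a ha b hb => ?_⟩⟩
  · show g (h c) = c
    rw [hh c hc, hg.1 c hc]
  · show dist (g (h a)) b = _
    rw [hg.2 (h a) (Finset.mem_union_right _ (Finset.mem_image_of_mem _ ha)) b
      (Finset.mem_union_left _ hb), fr_comm, fr_apply hh, fr_comm]

/-- convergence along the filter of free isometries -/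
theorem exists_lim (hX : IsQU X)
    (hE : Function.Surjective (NormedSpace.inclusionInDoubleDual ℝ E))
    {β : (X ≃ᵢ X) → E} {L : (X ≃ᵢ X) → (E →ₗᵢ[ℝ] E)} (hβ : Orb β L) (C : Finset X)
    (hC : C.Nonempty) (M : ℝ) (hM : ∀ g : X ≃ᵢ X, (∀ c ∈ C, g c = c) → ‖β g‖ ≤ M)
    (φ : StrongDual ℝ E) : ∃ r : ℝ, Tendsto (fun g => φ (β g)) (FF C hC) (𝓝 r) := by
  have := FF_neBot hX C hC
  have hcau : Cauchy (map (fun g => φ (β g)) (FF C hC)) := by
    rw [Metric.cauchy_iff]
    refine ⟨inferInstance, fun ε hε => ?_⟩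
    obtain ⟨A, hA⟩ := core_one hX hE hβ C hC M hM φ (ε / 2) (by positivity)
    refine ⟨(fun g => φ (β g)) '' UU C hC A, image_mem_map ((FF_basis C hC).mem_of_mem trivial), ?_⟩
    rintro _ ⟨g, hg, rfl⟩ _ ⟨g', hg', rfl⟩
    rw [Real.dist_eq]
    have h1 := hA g hg g' hg'
    have h2 := hA g' hg' g hg
    have : |φ (β g) - φ (β g')| ≤ ε / 2 := abs_le.2 ⟨by linarith, h1⟩
    linarith
  obtain ⟨r, hr⟩ := cauchy_iff_exists_le_nhds.1 hcau
  exact ⟨r, hr⟩

/-- continuity of an action: orbit maps are continuous at the identity -/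
def ContAct (α : (X ≃ᵢ X) →* (E ≃ᵃⁱ[ℝ] E)) : Prop :=
  ∀ (v : E) (ε : ℝ), 0 < ε → ∃ F : Finset X, ∀ h : X ≃ᵢ X, (∀ x ∈ F, h x = x) →
    dist (α h v) v < ε

section

variable (α : (X ≃ᵢ X) →* (E ≃ᵃⁱ[ℝ] E))

/-- the linear part -/
noncomputable def Lin (g : X ≃ᵢ X) : E →ₗᵢ[ℝ] E := (α g).linearIsometryEquiv.toLinearIsometry

theorem Lin_sub (g : X ≃ᵢ X) (v w : E) : Lin α g (v - w) = α g v - α g w :=
  (α g).map_vsub v w

theorem Lin_apply (g : X ≃ᵢ X) (v : E) : Lin α g v = α g v - α g 0 := by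
  rw [← Lin_sub, sub_zero]

theorem act_mul (g h : X ≃ᵢ X) (v : E) : α (g * h) v = α g (α h v) := by
  rw [map_mul]; rfl

theorem act_one (v : E) : α 1 v = v := by
  rw [map_one]; rfl

theorem Lin_mul (g h : X ≃ᵢ X) (v : E) : Lin α (g * h) v = Lin α g (Lin α h v) := by
  rw [Lin_apply, Lin_apply α h, Lin_sub, act_mul, act_mul]

theorem act_dist (g : X ≃ᵢ X) (v w : E) : dist (α g v) (α g w) = dist v w := (α g).dist_map v w

theorem orb_affine (hα : ContAct α) (v : E) : Orb (fun g => α g v) (Lin α) := by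
  refine ⟨?_, ?_⟩
  · intro h g g'
    rw [Lin_sub, act_mul, act_mul]
  · intro ε hε
    obtain ⟨A, hA⟩ := hα v ε hε
    refine ⟨A, fun g w hw => ?_⟩
    rw [act_mul, ← dist_eq_norm, act_dist]
    exact (hA w hw).le

theorem lin_cont (hα : ContAct α) (v : E) (ε : ℝ) (hε : 0 < ε) :
    ∃ F : Finset X, ∀ h : X ≃ᵢ X, (∀ x ∈ F, h x = x) → ‖Lin α h v - v‖ ≤ ε := by
  classical
  obtain ⟨A, hA⟩ := hα v (ε / 2) (by positivity)
  obtain ⟨B, hB⟩ := hα 0 (ε / 2) (by positivity)
  refine ⟨A ∪ B, fun w hw => ?_⟩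
  have h1 := hA w (fun a ha => hw a (Finset.mem_union_left _ ha))
  have h2 := hB w (fun a ha => hw a (Finset.mem_union_right _ ha))
  rw [Lin_apply]
  rw [dist_eq_norm] at h1 h2
  rw [sub_zero] at h2
  have e : α w v - α w 0 - v = (α w v - v) - α w 0 := by abel
  rw [e]
  refine (norm_sub_le _ _).trans ?_
  linarith

theorem orb_linear (hα : ContAct α) (v : E) : Orb (fun g => Lin α g v) (Lin α) := by
  refine ⟨?_, ?_⟩
  · intro h g g'
    rw [map_sub, Lin_mul, Lin_mul]
  · intro ε hε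
    obtain ⟨A, hA⟩ := lin_cont α hα v ε hε
    refine ⟨A, fun g w hw => ?_⟩
    rw [Lin_mul, ← map_sub, LinearIsometry.norm_map]
    exact hA w hw

/-- smooth functionals separate points -/
theorem exists_smooth (hX : IsQU X)
    (hE : Function.Surjective (NormedSpace.inclusionInDoubleDual ℝ E)) (hα : ContAct α)
    (x0 : X) (u : E) (hu : u ≠ 0) :
    ∃ (C : Finset X) (ψ : StrongDual ℝ E), x0 ∈ C ∧
      (∀ g : X ≃ᵢ X, (∀ c ∈ C, g c = c) → ∀ v, ψ (Lin α g v) = ψ v) ∧ ψ u ≠ 0 := by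
  classical
  have hnu : 0 < ‖u‖ := norm_pos_iff.2 hu
  obtain ⟨F, hF⟩ := lin_cont α hα u (‖u‖ / 2) (by positivity)
  let C : Finset X := insert x0 F
  have hC : C.Nonempty := ⟨x0, Finset.mem_insert_self _ _⟩
  have := FF_neBot hX C hC
  obtain ⟨φ, hφ1, hφ2⟩ := exists_dual_vector ℝ u hnu.ne'
  have hlim : ∀ v, ∃ r : ℝ, Tendsto (fun g => φ (Lin α g v)) (FF C hC) (𝓝 r) := fun v =>
    exists_lim hX hE (orb_linear α hα v) C hC ‖v‖
      (fun g _ => by rw [LinearIsometry.norm_map]) φ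
  choose ℓ hℓ using hlim
  have hbd : ∀ v, |ℓ v| ≤ 1 * ‖v‖ := by
    intro v
    refine le_of_tendsto (hℓ v).abs (Eventually.of_forall fun g => ?_)
    have h1 := φ.le_opNorm (Lin α g v)
    rw [hφ1, LinearIsometry.norm_map, Real.norm_eq_abs] at h1
    exact h1
  let ψ0 : E →ₗ[ℝ] ℝ :=
    { toFun := ℓ
      map_add' := fun v w => tendsto_nhds_unique (hℓ (v + w))
        (by simpa using (hℓ v).add (hℓ w))
      map_smul' := fun c v => tendsto_nhds_unique (hℓ (c • v))
        (by simpa using (hℓ v).const_mul c) }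
  refine ⟨C, ψ0.mkContinuous 1 hbd, Finset.mem_insert_self _ _, ?_, ?_⟩
  · intro g hg v
    show ℓ (Lin α g v) = ℓ v
    refine tendsto_nhds_unique (hℓ (Lin α g v)) ?_
    have h1 := (hℓ v).comp (FF_right (hC := hC) hg)
    refine h1.congr fun k => ?_
    show φ (Lin α (k * g) v) = φ (Lin α k (Lin α g v))
    rw [Lin_mul]
  · show ℓ u ≠ 0
    have h1 : ‖u‖ / 2 ≤ ℓ u := by
      refine ge_of_tendsto (hℓ u) ?_
      filter_upwards [FF_fix C hC] with g hg
      have h2 := hF g (fun x hx => hg x (Finset.mem_insert_of_mem hx))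
      have h3 : φ (Lin α g u - u) ≥ -‖Lin α g u - u‖ := by
        have := φ.le_opNorm (Lin α g u - u)
        rw [hφ1, one_mul, Real.norm_eq_abs] at this
        exact (abs_le.1 this).1
      rw [map_sub, hφ2] at h3
      have h4 : ((‖u‖ : ℝ) : ℝ) = ‖u‖ := rfl
      have h5 : (RCLike.ofReal ‖u‖ : ℝ) = ‖u‖ := rfl
      linarith [h5]
    exact (lt_of_lt_of_le (by positivity) h1).ne'

/-- the displacement -/
theorem disp_mul (g h : X ≃ᵢ X) (v : E) : dist (α (g * h) v) v ≤ dist (α g v) v + dist (α h v) v := by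
  rw [act_mul]
  have h1 := dist_triangle (α g (α h v)) (α g v) v
  rw [act_dist] at h1
  linarith

theorem disp_inv (g : X ≃ᵢ X) (v : E) : dist (α g⁻¹ v) v = dist (α g v) v := by
  have := act_dist α g (α g⁻¹ v) v
  rw [← act_mul, mul_inv_cancel, act_one] at this
  rw [← this, dist_comm]

theorem fr_single (x a b : X) (h : ({x} : Finset X).Nonempty) :
    fr {x} h a b = dist a x + dist x b := by
  unfold fr
  simp

/-- orbits of point stabilisers are bounded -/
theorem orbit_bdd (hX : IsQU X) (hα : ContAct α) (x : X) (v : E) :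
    ∃ M : ℝ, ∀ g : X ≃ᵢ X, g x = x → dist (α g v) v ≤ M := by
  classical
  obtain ⟨A0, hA0⟩ := hα v 1 one_pos
  let A : Finset X := insert x A0
  have hA : ∀ h : X ≃ᵢ X, (∀ a ∈ A, h a = a) → dist (α h v) v ≤ 1 := fun h hh =>
    (hA0 h (fun a ha => hh a (Finset.mem_insert_of_mem ha))).le
  have hxA : x ∈ A := Finset.mem_insert_self _ _
  have hC : ({x} : Finset X).Nonempty := Finset.singleton_nonempty x
  obtain ⟨f, hf1, hf2⟩ := hX.exists_free hC A
  refine ⟨2 * (dist (α f v) v + 2) + 2, fun g hg => ?_⟩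
  obtain ⟨f', hf1', hf2'⟩ := hX.exists_free hC (A ∪ A.image g)
  have hff : ∀ a ∈ A, ∀ b ∈ A, dist (f a) b = dist a x + dist x b := fun a ha b hb => by
    rw [hf2 a ha b hb, fr_single]
  have hff' : ∀ a ∈ A, ∀ b ∈ A, dist (f' a) b = dist a x + dist x b := fun a ha b hb => by
    rw [hf2' a (Finset.mem_union_left _ ha) b (Finset.mem_union_left _ hb), fr_single]
  have hff'' : ∀ a ∈ A, ∀ b ∈ A, dist (f' a) (g b) = dist a x + dist x b := fun a ha b hb => by
    rw [hf2' a (Finset.mem_union_left _ ha) (g b)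
      (Finset.mem_union_right _ (Finset.mem_image_of_mem _ hb)), fr_single]
    congr 1
    conv_lhs => rw [← hg]
    exact g.dist_eq _ _
  -- w : fixes A, maps f a to f' a
  obtain ⟨w, hw⟩ := hX.homog (ι := Bool × A) (fun p => if p.1 then f p.2 else p.2)
    (fun p => if p.1 then f' p.2 else p.2)
    (by
      rintro ⟨s, a, ha⟩ ⟨t, b, hb⟩
      cases s <;> cases t
      · rfl
      · simp only [Bool.false_eq_true, if_false, if_true]
        rw [dist_comm a (f b), hff b hb a ha, dist_comm a (f' b), hff' b hb a ha]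
      · simp only [Bool.false_eq_true, if_false, if_true]
        rw [hff a ha b hb, hff' a ha b hb]
      · simp only [if_true]
        rw [f.dist_eq, f'.dist_eq])
  have hw1 : ∀ a ∈ A, w a = a := fun a ha => by
    have := hw (false, ⟨a, ha⟩)
    simpa using this
  have hw2 : ∀ a ∈ A, w (f a) = f' a := fun a ha => by
    have := hw (true, ⟨a, ha⟩)
    simpa using this
  -- h : fixes f' a, maps a to g a
  obtain ⟨h, hh⟩ := hX.homog (ι := Bool × A) (fun p => if p.1 then f' p.2 else p.2)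
    (fun p => if p.1 then f' p.2 else g p.2)
    (by
      rintro ⟨s, a, ha⟩ ⟨t, b, hb⟩
      cases s <;> cases t
      · simp only [Bool.false_eq_true, if_false]
        rw [g.dist_eq]
      · simp only [Bool.false_eq_true, if_false, if_true]
        rw [dist_comm a (f' b), hff' b hb a ha, dist_comm (g a) (f' b), hff'' b hb a ha]
      · simp only [Bool.false_eq_true, if_false, if_true]
        rw [hff' a ha b hb, hff'' a ha b hb]
      · rfl)
  have hh1 : ∀ a ∈ A, h a = g a := fun a ha => by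
    have := hh (false, ⟨a, ha⟩)
    simpa using this
  have hh2 : ∀ a ∈ A, h (f' a) = f' a := fun a ha => by
    have := hh (true, ⟨a, ha⟩)
    simpa using this
  have e1 : dist (α f' v) v ≤ dist (α f v) v + 2 := by
    have e : f' = w * (f * (f⁻¹ * (w⁻¹ * f'))) := by group
    have h1 : dist (α (f⁻¹ * (w⁻¹ * f')) v) v ≤ 1 := by
      refine hA _ fun a ha => ?_
      show f⁻¹ (w⁻¹ (f' a)) = a
      rw [← hw2 a ha]
      have : w⁻¹ (w (f a)) = f a := w.symm_apply_apply _
      rw [this]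
      exact f.symm_apply_apply a
    have h2 := disp_mul α w (f * (f⁻¹ * (w⁻¹ * f'))) v
    have h3 := disp_mul α f (f⁻¹ * (w⁻¹ * f')) v
    have h4 := hA w hw1
    rw [← e] at h2
    linarith
  have e2 : dist (α h v) v ≤ 2 * (dist (α f v) v + 2) + 1 := by
    have e : h = f' * ((f'⁻¹ * (h * f')) * f'⁻¹) := by group
    have h1 : dist (α (f'⁻¹ * (h * f')) v) v ≤ 1 := by
      refine hA _ fun a ha => ?_
      show f'⁻¹ (h (f' a)) = a
      rw [hh2 a ha]
      exact f'.symm_apply_apply a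
    have h2 := disp_mul α f' ((f'⁻¹ * (h * f')) * f'⁻¹) v
    have h3 := disp_mul α (f'⁻¹ * (h * f')) f'⁻¹ v
    rw [disp_inv] at h3
    rw [← e] at h2
    linarith
  have e3 : dist (α (h⁻¹ * g) v) v ≤ 1 := by
    refine hA _ fun a ha => ?_
    show h⁻¹ (g a) = a
    rw [← hh1 a ha]
    exact h.symm_apply_apply a
  have e4 := disp_mul α h (h⁻¹ * g) v
  have e : h * (h⁻¹ * g) = g := by group
  rw [e] at e4
  linarith

/-- a point fixed by the stabiliser of `x0` -/
theorem exists_fix_stab (hX : IsQU X)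
    (hE : Function.Surjective (NormedSpace.inclusionInDoubleDual ℝ E)) (hα : ContAct α) (x0 : X) :
    ∃ ξ : E, ∀ g : X ≃ᵢ X, g x0 = x0 → α g ξ = ξ := by
  classical
  have hC : ({x0} : Finset X).Nonempty := Finset.singleton_nonempty x0
  have := FF_neBot hX {x0} hC
  obtain ⟨M, hM⟩ := orbit_bdd α hX hα x0 0
  have hM' : ∀ g : X ≃ᵢ X, (∀ c ∈ ({x0} : Finset X), g c = c) → ‖α g 0‖ ≤ M := fun g hg => by
    have := hM g (hg x0 (Finset.mem_singleton_self _))
    rwa [dist_eq_norm, sub_zero] at this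
  let U : Ultrafilter (X ≃ᵢ X) := Ultrafilter.of (FF {x0} hC)
  have hU : (U : Filter (X ≃ᵢ X)) ≤ FF {x0} hC := Ultrafilter.of_le _
  obtain ⟨ξ, hξ⟩ := exists_wlim hE U (fun g => α g 0) M (by
    filter_upwards [hU (FF_fix {x0} hC)] with g hg using hM' g hg)
  have hlim : ∀ φ : StrongDual ℝ E, Tendsto (fun g => φ (α g 0)) (FF {x0} hC) (𝓝 (φ ξ)) := by
    intro φ
    obtain ⟨r, hr⟩ := exists_lim hX hE (orb_affine α hα 0) {x0} hC M hM' φ
    have : r = φ ξ := tendsto_nhds_unique (hr.mono_left hU) (hξ φ)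
    rwa [← this]
  refine ⟨ξ, fun h hh => eq_of_dual fun φ => ?_⟩
  have hh' : ∀ c ∈ ({x0} : Finset X), h c = c := fun c hc => by
    rw [Finset.mem_singleton.1 hc]; exact hh
  have h1 := (hlim φ).comp (FF_left (hC := hC) hh')
  have h2 := (hlim (φ.comp (Lin α h).toContinuousLinearMap)).add_const (φ (α h 0))
  have e1 : φ (α h ξ) = (φ.comp (Lin α h).toContinuousLinearMap) ξ + φ (α h 0) := by
    show φ (α h ξ) = φ (Lin α h ξ) + φ (α h 0)
    rw [Lin_apply, map_sub]; ring
  rw [e1]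
  refine tendsto_nhds_unique h2 (h1.congr fun g => ?_)
  show φ (α (h * g) 0) = φ (Lin α h (α g 0)) + φ (α h 0)
  rw [act_mul, Lin_apply, map_sub]; ring

end

end Pool.Agent.W335
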