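import Mathlib
import Pool.Agent.W335.Fix

/-!
# The fixed point theorem
-/

set_option autoImplicit false

namespace Pool.Agent.W335

open Set Filter Topology

variable {X : Type*} [MetricSpace X] {E : Type*} [NormedAddCommGroup E] [NormedSpace ℝ E]

/-- The double sequence: points `y n` and copies of `C` such that `y n` has the type of `y` over the
`m`-th copy for `n < m` and the type of `y'` for `n ≥ m`. -/
theorem exists_double (hX : IsQU X) (C : Finset X) (y y' : X) (h1 : ∀ c ∈ C, 1 ≤ dist y c)
    (h1' : ∀ c ∈ C, 1 ≤ dist y' c) (h2 : ∀ c ∈ C, |dist y c - dist y' c| ≤ 1) :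
    ∃ (s : ℕ → X) (h : ℕ → (X ≃ᵢ X)), (∀ m n, m ≠ n → dist (s m) (s n) = 1) ∧
      (∀ m n, n < m → ∀ c ∈ C, dist (s n) (h m c) = dist y c) ∧
      (∀ m n, m ≤ n → ∀ c ∈ C, dist (s n) (h m c) = dist y' c) := by
  classical
  have hXc := hX.countable
  let F : ℕ → ℕ → X → ℝ := fun n m c => if n < m then dist y c else dist y' c
  let G : X → ℝ := fun c => min (dist y c) (dist y' c)
  have hF : ∀ n m c, c ∈ C → 1 ≤ F n m c ∧ G c ≤ F n m c ∧ F n m c ≤ G c + 1 ∧ 1 ≤ G c := by
    intro n m c hc
    have a1 := h1 c hc
    have a2 := h1' c hc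
    have a3 := abs_le.1 (h2 c hc)
    have b1 : G c ≤ dist y c := min_le_left _ _
    have b2 : G c ≤ dist y' c := min_le_right _ _
    have b3 : 1 ≤ G c := le_min a1 a2
    have b4 : dist y c ≤ G c + 1 ∧ dist y' c ≤ G c + 1 := by
      rcases min_choice (dist y c) (dist y' c) with e | e
      · have e' : G c = dist y c := e
        constructor <;> linarith [a3.1, a3.2]
      · have e' : G c = dist y' c := e
        constructor <;> linarith [a3.1, a3.2]
    show 1 ≤ (if n < m then dist y c else dist y' c) ∧ G c ≤ (if n < m then dist y c else dist y' c) ∧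
      (if n < m then dist y c else dist y' c) ≤ G c + 1 ∧ 1 ≤ G c
    split_ifs
    · exact ⟨a1, b1, b4.1, b3⟩
    · exact ⟨a2, b2, b4.2, b3⟩
  have hFl : ∀ n m c b, F n m c ≤ F n m b + dist b c := by
    intro n m c b
    show (if n < m then dist y c else dist y' c) ≤ (if n < m then dist y b else dist y' b) + dist b c
    split_ifs
    · exact dist_triangle _ _ _
    · exact dist_triangle _ _ _
  have hFs : ∀ n m c b, dist b c ≤ F n m b + F n m c := by
    intro n m c b
    show dist b c ≤ (if n < m then dist y b else dist y' b) + (if n < m then dist y c else dist y' c)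
    split_ifs
    · exact dist_triangle_left _ _ _
    · exact dist_triangle_left _ _ _
  have hGl : ∀ c b, G c ≤ G b + dist b c := by
    intro c b
    have e1 : G c ≤ dist y c := min_le_left _ _
    have e2 : G c ≤ dist y' c := min_le_right _ _
    have e3 := dist_triangle y b c
    have e4 := dist_triangle y' b c
    rcases min_choice (dist y b) (dist y' b) with e | e
    · have e' : G b = dist y b := e
      linarith
    · have e' : G b = dist y' b := e
      linarith
  have hFR : ∀ n m c, Rt (F n m c) := by
    intro n m c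
    show Rt (if n < m then dist y c else dist y' c)
    split_ifs <;> exact hX.rat _ _
  have hGR : ∀ c, Rt (G c) := fun c => Rt.min (hX.rat _ _) (hX.rat _ _)
  let ι := ℕ ⊕ (ℕ × C)
  let D : ι → ι → ℝ := fun p q => match p, q with
    | .inl n, .inl n' => if n = n' then 0 else 1
    | .inl n, .inr (m, c) => F n m c
    | .inr (m, c), .inl n => F n m c
    | .inr (m, c), .inr (m', c') => if m = m' then dist (c : X) c' else G c + G c'
  obtain ⟨e, he⟩ := hX.emb D
    (by
      rintro (n | ⟨m, c⟩) (n' | ⟨m', c'⟩)
      · show Rt (if n = n' then 0 else 1)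
        split_ifs
        · exact Rt.zero
        · exact Rt.one
      · exact hFR _ _ _
      · exact hFR _ _ _
      · show Rt (if m = m' then dist (c : X) c' else G c + G c')
        split_ifs
        · exact hX.rat _ _
        · exact Rt.add (hGR _) (hGR _))
    (by
      rintro (n | ⟨m, c⟩)
      · show (if n = n then (0 : ℝ) else 1) = 0
        simp
      · show (if m = m then dist (c : X) c else G c + G c) = 0
        simp)
    (by
      rintro (n | ⟨m, c⟩) (n' | ⟨m', c'⟩)
      · show (if n = n' then (0 : ℝ) else 1) = (if n' = n then (0 : ℝ) else 1)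
        simp only [eq_comm]
      · rfl
      · rfl
      · show (if m = m' then dist (c : X) c' else G c + G c') =
          (if m' = m then dist (c' : X) c else G c' + G c)
        by_cases h : m = m'
        · subst h; simp [dist_comm]
        · rw [if_neg h, if_neg (Ne.symm h), add_comm])
    (by
      rintro (n | ⟨m, c, hc⟩) (n' | ⟨m', c', hc'⟩) (n'' | ⟨m'', c'', hc''⟩)
      · show (if n = n'' then (0 : ℝ) else 1) ≤
          (if n = n' then (0 : ℝ) else 1) + (if n' = n'' then (0 : ℝ) else 1)
        by_cases e1 : n = n'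
        · subst e1; simp
        · rw [if_neg e1]; split_ifs <;> norm_num
      · show F n m'' c'' ≤ (if n = n' then (0 : ℝ) else 1) + F n' m'' c''
        by_cases e1 : n = n'
        · subst e1; simp
        · rw [if_neg e1]
          have := hF n m'' c'' hc''
          have := hF n' m'' c'' hc''
          linarith
      · show (if n = n'' then (0 : ℝ) else 1) ≤ F n m' c' + F n'' m' c'
        have := hF n m' c' hc'
        have := hF n'' m' c' hc'
        split_ifs <;> linarith
      · show F n m'' c'' ≤ F n m' c' + (if m' = m'' then dist c' c'' else G c' + G c'')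
        by_cases e1 : m' = m''
        · subst e1; rw [if_pos rfl]; exact hFl _ _ _ _
        · rw [if_neg e1]
          have := hF n m' c' hc'
          have := hF n m'' c'' hc''
          linarith
      · show F n'' m c ≤ F n' m c + (if n' = n'' then (0 : ℝ) else 1)
        by_cases e1 : n' = n''
        · subst e1; simp
        · rw [if_neg e1]
          have := hF n'' m c hc
          have := hF n' m c hc
          linarith
      · show (if m = m'' then dist c c'' else G c + G c'') ≤ F n' m c + F n' m'' c''
        by_cases e1 : m = m''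
        · subst e1; rw [if_pos rfl]; exact hFs _ _ _ _
        · rw [if_neg e1]
          have := hF n' m c hc
          have := hF n' m'' c'' hc''
          linarith
      · show F n'' m c ≤ (if m = m' then dist c c' else G c + G c') + F n'' m' c'
        by_cases e1 : m = m'
        · subst e1; rw [if_pos rfl]
          have := hFl n'' m c c'
          rw [dist_comm c c']
          linarith
        · rw [if_neg e1]
          have := hF n'' m c hc
          have := hF n'' m' c' hc'
          linarith
      · show (if m = m'' then dist c c'' else G c + G c'') ≤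
          (if m = m' then dist c c' else G c + G c') + (if m' = m'' then dist c' c'' else G c' + G c'')
        have g1 := hF 0 0 c hc
        have g2 := hF 0 0 c' hc'
        have g3 := hF 0 0 c'' hc''
        by_cases e1 : m = m'
        · subst e1
          by_cases e2 : m = m''
          · subst e2; simp only [if_true]; exact dist_triangle _ _ _
          · rw [if_neg e2, if_pos rfl, if_neg e2]
            have := hGl c c'
            rw [dist_comm c c']
            linarith
        · by_cases e2 : m' = m''
          · subst e2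
            rw [if_neg e1, if_pos rfl, if_neg e1]
            have := hGl c'' c'
            linarith
          · rw [if_neg e1, if_neg e2]
            by_cases e3 : m = m''
            · rw [if_pos e3]
              have := hFs 0 0 c'' c
              linarith
            · rw [if_neg e3]
              linarith)
  have hh : ∀ m : ℕ, ∃ g : X ≃ᵢ X, ∀ c : C, g c = e (.inr (m, c)) := fun m =>
    hX.homog (ι := C) (fun c => (c : X)) (fun c => e (.inr (m, c)))
      (by
        intro c c'
        rw [he]
        show dist (c : X) c' = (if m = m then dist (c : X) c' else G c + G c')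
        simp)
  choose h hh using hh
  refine ⟨fun n => e (.inl n), h, ?_, ?_, ?_⟩
  · intro m n hmn
    rw [he]
    show (if m = n then (0 : ℝ) else 1) = 1
    rw [if_neg hmn]
  · intro m n hmn c hc
    rw [hh m ⟨c, hc⟩, he]
    show (if n < m then dist y c else dist y' c) = dist y c
    rw [if_pos hmn]
  · intro m n hmn c hc
    rw [hh m ⟨c, hc⟩, he]
    show (if n < m then dist y c else dist y' c) = dist y' c
    rw [if_neg (by omega)]

/-- two points with the same type over a finite set are conjugate -/
theorem exists_conj (hX : IsQU X) (C : Finset X) (y y' : X) (h : ∀ c ∈ C, dist y c = dist y' c) :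
    ∃ g : X ≃ᵢ X, (∀ c ∈ C, g c = c) ∧ g y = y' := by
  classical
  obtain ⟨g, hg⟩ := hX.homog (ι := Option C) (fun o => o.elim y (fun c => (c : X)))
    (fun o => o.elim y' (fun c => (c : X)))
    (by
      rintro (_ | ⟨c, hc⟩) (_ | ⟨c', hc'⟩)
      · simp
      · exact h c' hc'
      · show dist c y = dist c y'
        rw [dist_comm, h c hc, dist_comm]
      · rfl)
  exact ⟨g, fun c hc => hg (some ⟨c, hc⟩), hg none⟩

variable (α : (X ≃ᵢ X) →* (E ≃ᵃⁱ[ℝ] E))

theorem main_fix (hX : IsQU X)
    (hE : Function.Surjective (NormedSpace.inclusionInDoubleDual ℝ E)) (hα : ContAct α) :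
    ∃ v : E, ∀ g : X ≃ᵢ X, α g v = v := by
  classical
  obtain ⟨x0⟩ := hX.nonempty
  have hXc := hX.countable
  obtain ⟨ξ, hξ⟩ := exists_fix_stab α hX hE hα x0
  -- the equivariant map
  have htr : ∀ x : X, ∃ g : X ≃ᵢ X, g x0 = x := fun x => by
    obtain ⟨g, -, hg⟩ := exists_conj hX ∅ x0 x (by simp)
    exact ⟨g, hg⟩
  choose t ht using htr
  let Φ : X → E := fun x => α (t x) ξ
  have hΦ0 : ∀ g : X ≃ᵢ X, Φ (g x0) = α g ξ := by
    intro g
    have h1 : (g⁻¹ * t (g x0)) x0 = x0 := by
      show g⁻¹ (t (g x0) x0) = x0
      rw [ht]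
      exact g.symm_apply_apply x0
    have h2 := hξ _ h1
    show α (t (g x0)) ξ = α g ξ
    have e : t (g x0) = g * (g⁻¹ * t (g x0)) := by group
    rw [e, act_mul, h2]
  have hΦ : ∀ (g : X ≃ᵢ X) (x : X), Φ (g x) = α g (Φ x) := by
    intro g x
    have e1 : g x = (g * t x) x0 := by
      show g x = g (t x x0)
      rw [ht]
    rw [e1, hΦ0, act_mul]
  have hΦx0 : Φ x0 = ξ := by
    have := hΦ0 1
    rw [act_one] at this
    exact this
  -- invariance of smooth functionals
  have hinv : ∀ (C : Finset X) (ψ : StrongDual ℝ E), x0 ∈ C →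
      (∀ g : X ≃ᵢ X, (∀ c ∈ C, g c = c) → ∀ v, ψ (Lin α g v) = ψ v) →
      ∀ y y' : X, (∀ c ∈ C, dist y c = dist y' c) → ψ (Φ y) = ψ (Φ y') := by
    intro C ψ hx0 hψ y y' hyy
    obtain ⟨g, hg1, hg2⟩ := exists_conj hX C y y' hyy
    rw [← hg2, hΦ]
    have h1 := hψ g hg1 (Φ y - ξ)
    rw [Lin_sub, hξ g (hg1 x0 hx0), map_sub, map_sub] at h1
    linarith
  -- the double limit lemma
  have hDL : ∀ (C : Finset X) (ψ : StrongDual ℝ E), x0 ∈ C →
      (∀ g : X ≃ᵢ X, (∀ c ∈ C, g c = c) → ∀ v, ψ (Lin α g v) = ψ v) →
      ∀ y y' : X, (∀ c ∈ C, 1 ≤ dist y c) → (∀ c ∈ C, 1 ≤ dist y' c) →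
        (∀ c ∈ C, |dist y c - dist y' c| ≤ 1) → ψ (Φ y) = ψ (Φ y') := by
    intro C ψ hx0 hψ y y' h1 h1' h2
    obtain ⟨s, h, hs, hs1, hs2⟩ := exists_double hX C y y' h1 h1' h2
    -- values
    have hv1 : ∀ m n, n < m → ψ (Φ ((h m)⁻¹ (s n))) = ψ (Φ y) := by
      intro m n hmn
      refine hinv C ψ hx0 hψ _ _ fun c hc => ?_
      rw [← hs1 m n hmn c hc]
      have e : s n = h m ((h m)⁻¹ (s n)) := ((h m).apply_symm_apply _).symm
      nth_rewrite 2 [e]
      rw [(h m).dist_eq]
    have hv2 : ∀ m n, m ≤ n → ψ (Φ ((h m)⁻¹ (s n))) = ψ (Φ y') := by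
      intro m n hmn
      refine hinv C ψ hx0 hψ _ _ fun c hc => ?_
      rw [← hs2 m n hmn c hc]
      have e : s n = h m ((h m)⁻¹ (s n)) := ((h m).apply_symm_apply _).symm
      nth_rewrite 2 [e]
      rw [(h m).dist_eq]
    let w : ℕ → E := fun n => Φ (s n) - Φ (s 0)
    let Ψ : ℕ → StrongDual ℝ E := fun m => ψ.comp (Lin α (h m)⁻¹).toContinuousLinearMap
    have hΨ : ∀ m n, Ψ m (w n) = ψ (Φ ((h m)⁻¹ (s n))) - ψ (Φ ((h m)⁻¹ (s 0))) := by
      intro m n
      show ψ (Lin α (h m)⁻¹ (Φ (s n) - Φ (s 0))) = _
      rw [Lin_sub, ← hΦ, ← hΦ, map_sub]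
    have hκ := double_limit hE w (max ‖w 0‖ ‖w 1‖)
      (by
        intro n
        rcases Nat.eq_zero_or_pos n with hn | hn
        · subst hn; exact le_max_left _ _
        · refine le_of_eq_of_le ?_ (le_max_right _ _)
          obtain ⟨g, hg1, hg2⟩ := exists_conj hX {s 0} (s 1) (s n)
            (by
              intro c hc
              rw [Finset.mem_singleton.1 hc, hs 1 0 one_ne_zero, hs n 0 (by omega)])
          have hg3 := hg1 (s 0) (Finset.mem_singleton_self _)
          show ‖Φ (s n) - Φ (s 0)‖ = ‖Φ (s 1) - Φ (s 0)‖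
          have e1 : Φ (s n) = α g (Φ (s 1)) := by rw [← hΦ, hg2]
          have e2 : Φ (s 0) = α g (Φ (s 0)) := by rw [← hΦ, hg3]
          rw [e1]
          nth_rewrite 1 [e2]
          rw [← dist_eq_norm, ← dist_eq_norm, act_dist])
      Ψ (‖ψ‖ * 1)
      (by
        intro m
        refine (ContinuousLinearMap.opNorm_comp_le _ _).trans ?_
        exact mul_le_mul_of_nonneg_left (LinearIsometry.norm_toContinuousLinearMap_le _)
          (norm_nonneg _))
      (ψ (Φ y') - ψ (Φ y))
      (by
        intro m n hmn
        rw [hΨ, hv1 m n hmn, hv1 m 0 (by omega), sub_self])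
      (by
        intro m n hm hmn
        rw [hΨ, hv2 m n hmn, hv1 m 0 (by omega)])
    linarith
  -- chains
  have hchain : ∀ (C : Finset X) (ψ : StrongDual ℝ E), x0 ∈ C →
      (∀ g : X ≃ᵢ X, (∀ c ∈ C, g c = c) → ∀ v, ψ (Lin α g v) = ψ v) →
      ∀ (N : ℕ) (z z' y y' : X), dist z z' ≤ N → (∀ c ∈ C, dist y c = 1 + dist z c) →
        (∀ c ∈ C, dist y' c = 1 + dist z' c) → ψ (Φ y) = ψ (Φ y') := by
    intro C ψ hx0 hψ N
    induction N with
    | zero =>
      intro z z' y y' hz hy hy'
      have : z = z' := dist_le_zero.1 (by simpa using hz)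
      subst this
      exact hinv C ψ hx0 hψ _ _ fun c hc => by rw [hy c hc, hy' c hc]
    | succ N ih =>
      intro z z' y y' hz hy hy'
      by_cases hle : dist z z' ≤ 1
      · refine hDL C ψ hx0 hψ y y' ?_ ?_ ?_
        · intro c hc; rw [hy c hc]; linarith [dist_nonneg (x := z) (y := c)]
        · intro c hc; rw [hy' c hc]; linarith [dist_nonneg (x := z') (y := c)]
        · intro c hc
          rw [hy c hc, hy' c hc]
          have e : 1 + dist z c - (1 + dist z' c) = dist z c - dist z' c := by ring
          rw [e]
          exact (abs_dist_sub_le z z' c).trans hle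
      · push Not at hle
        -- an intermediate point
        obtain ⟨v, hv⟩ := hX.ext' (ι := Bool) (fun b => if b then z else z')
          (fun b => if b then 1 else dist z z' - 1)
          (by
            intro b; cases b
            · exact Rt.sub (hX.rat _ _) Rt.one
            · exact Rt.one)
          (by
            intro b b'
            cases b <;> cases b' <;> simp only [Bool.false_eq_true, if_false, if_true, sub_self,
              abs_zero, dist_self]
            · constructor <;> linarith
            · rw [dist_comm z' z]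
              refine ⟨abs_le.2 ⟨?_, ?_⟩, ?_⟩ <;> linarith
            · refine ⟨abs_le.2 ⟨?_, ?_⟩, ?_⟩ <;> linarith
            · constructor <;> linarith)
        have hv1 : dist v z = 1 := by simpa using hv true
        have hv2 : dist v z' = dist z z' - 1 := by simpa using hv false
        obtain ⟨y'', hy''⟩ := hX.ext' (ι := C) (fun c => (c : X)) (fun c => 1 + dist v c)
          (fun c => Rt.add Rt.one (hX.rat _ _))
          (by
            intro c c'
            refine ⟨?_, ?_⟩
            · have e : 1 + dist v c - (1 + dist v c') = dist v c - dist v c' := by ring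
              rw [e, dist_comm v c, dist_comm v c']
              exact abs_dist_sub_le _ _ _
            · have := dist_triangle_left (c : X) c' v
              linarith)
        have hy2 : ∀ c ∈ C, dist y'' c = 1 + dist v c := fun c hc => hy'' ⟨c, hc⟩
        have s1 : ψ (Φ y) = ψ (Φ y'') := by
          refine hDL C ψ hx0 hψ y y'' ?_ ?_ ?_
          · intro c hc; rw [hy c hc]; linarith [dist_nonneg (x := z) (y := c)]
          · intro c hc; rw [hy2 c hc]; linarith [dist_nonneg (x := v) (y := c)]
          · intro c hc
            rw [hy c hc, hy2 c hc]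
            have e : 1 + dist z c - (1 + dist v c) = dist z c - dist v c := by ring
            rw [e]
            refine (abs_dist_sub_le z v c).trans ?_
            rw [dist_comm, hv1]
        rw [s1]
        refine ih v z' y'' y' ?_ hy2 hy'
        rw [hv2]
        push_cast at hz
        linarith
  -- the sequence
  have hXne := hX.nonempty
  obtain ⟨a, ha⟩ := exists_surjective_nat X
  have hseq : ∀ n : ℕ, ∃ y : X, dist y x0 = 1 ∧ ∀ i < n, dist y (a i) = 1 + dist x0 (a i) := by
    intro n
    obtain ⟨y, hy⟩ := hX.ext' (ι := Option (Fin n)) (fun o => o.elim x0 (fun i => a i))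
      (fun o => o.elim 1 (fun i => 1 + dist x0 (a i)))
      (by
        rintro (_ | i)
        · exact Rt.one
        · exact Rt.add Rt.one (hX.rat _ _))
      (by
        rintro (_ | i) (_ | j)
        · simp only [Option.elim, sub_self, abs_zero, dist_self]
          constructor <;> norm_num
        · simp only [Option.elim]
          have := dist_nonneg (x := x0) (y := a j)
          refine ⟨abs_le.2 ⟨?_, ?_⟩, ?_⟩ <;> linarith
        · simp only [Option.elim]
          have := dist_nonneg (x := x0) (y := a i)
          rw [dist_comm (a i) x0]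
          refine ⟨abs_le.2 ⟨?_, ?_⟩, ?_⟩ <;> linarith
        · simp only [Option.elim]
          have h1 := dist_triangle x0 (a i) (a j)
          have h2 := dist_triangle x0 (a j) (a i)
          have h3 := dist_comm (a i) (a j)
          have h4 := dist_triangle_left (a i) (a j) x0
          refine ⟨abs_le.2 ⟨?_, ?_⟩, ?_⟩ <;> linarith)
    exact ⟨y, hy none, fun i hi => hy (some ⟨i, hi⟩)⟩
  choose y hy1 hy2 using hseq
  let U : Ultrafilter ℕ := Ultrafilter.of atTop
  have hU : (U : Filter ℕ) ≤ atTop := Ultrafilter.of_le atTop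
  obtain ⟨u, hu⟩ := exists_wlim hE U (fun n => Φ (y n)) (‖ξ‖ + dist (Φ (y 0)) ξ)
    (Eventually.of_forall fun n => by
      obtain ⟨g, hg1, hg2⟩ := exists_conj hX {x0} (y 0) (y n)
        (by
          intro c hc
          rw [Finset.mem_singleton.1 hc, hy1, hy1])
      have hg3 := hg1 x0 (Finset.mem_singleton_self _)
      have e1 : Φ (y n) = α g (Φ (y 0)) := by rw [← hΦ, hg2]
      have e2 : dist (Φ (y n)) ξ = dist (Φ (y 0)) ξ := by
        rw [e1]
        nth_rewrite 1 [← hξ g hg3]
        rw [act_dist]
      rw [← e2]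
      have := norm_le_norm_add_norm_sub' (Φ (y n)) ξ
      rw [dist_eq_norm]
      exact this)
  refine ⟨u, fun g => ?_⟩
  by_contra hne
  have hne' : α g u - u ≠ 0 := sub_ne_zero.2 hne
  obtain ⟨C, ψ, hx0, hψ, hψu⟩ := exists_smooth α hX hE hα x0 _ hne'
  apply hψu
  -- compare the limits
  have l1 : Tendsto (fun n => ψ (Φ (y n))) U (𝓝 (ψ u)) := hu ψ
  have l2 : Tendsto (fun n => ψ (Φ (g (y n)))) U (𝓝 (ψ (α g u))) := by
    have h1 := (hu (ψ.comp (Lin α g).toContinuousLinearMap)).add_const (ψ (α g 0))
    have e1 : ψ (α g u) = (ψ.comp (Lin α g).toContinuousLinearMap) u + ψ (α g 0) := by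
      show ψ (α g u) = ψ (Lin α g u) + ψ (α g 0)
      rw [Lin_apply, map_sub]; ring
    rw [e1]
    refine h1.congr fun n => ?_
    show ψ (Lin α g (Φ (y n))) + ψ (α g 0) = ψ (Φ (g (y n)))
    rw [hΦ, Lin_apply, map_sub]; ring
  have hev : ∀ᶠ n in (U : Filter ℕ), ψ (Φ (g (y n))) = ψ (Φ (y n)) := by
    -- indices of the points of C and g⁻¹ C
    let b : X → ℕ := Function.surjInv ha
    have hb : ∀ x, a (b x) = x := Function.surjInv_eq ha
    let N : ℕ := (C.sup b + 1) + (C.sup (fun c => b (g⁻¹ c)) + 1)
    have : ∀ᶠ n in (atTop : Filter ℕ), ψ (Φ (g (y n))) = ψ (Φ (y n)) := by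
      filter_upwards [eventually_ge_atTop N] with n hn
      obtain ⟨K, hK⟩ := exists_nat_ge (dist (g x0) x0)
      refine hchain C ψ hx0 hψ K (g x0) x0 _ _ hK ?_ ?_
      · intro c hc
        have e : c = g (g⁻¹ c) := (g.apply_symm_apply c).symm
        have hlt : b (g⁻¹ c) < n := by
          have : b (g⁻¹ c) ≤ C.sup (fun c => b (g⁻¹ c)) := Finset.le_sup (f := fun c => b (g⁻¹ c)) hc
          omega
        have h3 := hy2 n _ hlt
        rw [hb] at h3
        rw [e, g.dist_eq, g.dist_eq]
        exact h3
      · intro c hc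
        have hlt : b c < n := by
          have : b c ≤ C.sup b := Finset.le_sup (f := b) hc
          omega
        have h3 := hy2 n _ hlt
        rw [hb] at h3
        exact h3
    exact hU this
  have : ψ (α g u) = ψ u := tendsto_nhds_unique (l2.congr' hev) l1
  rw [map_sub, this, sub_self]

end Pool.Agent.W335
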