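import Mathlib
import Pool.Agent.W335.Fix2

/-!
# The isometry group of a countable metric space as a non-Archimedean Polish group
-/

set_option autoImplicit false

namespace Pool.Agent.W335

open Set Filter Topology

/-- `X` with the discrete topology -/
structure Disc (X : Type*) where
  /-- the point -/
  pt : X

instance (X : Type*) : TopologicalSpace (Disc X) := ⊥

instance (X : Type*) : DiscreteTopology (Disc X) := ⟨rfl⟩

instance (X : Type*) [Countable X] : Countable (Disc X) :=
  Function.Injective.countable (f := Disc.pt) (by rintro ⟨a⟩ ⟨b⟩ h; simp_all)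

theorem continuous_eval_disc (X : Type*) :
    Continuous (fun p : (X → Disc X) × Disc X => p.1 p.2.pt) := by
  rw [continuous_iff_continuousAt]
  intro p
  rw [ContinuousAt, nhds_discrete (Disc X), tendsto_pure]
  have h1 : ∀ᶠ q in 𝓝 p, q.2 = p.2 := by
    have : ContinuousAt (fun q : (X → Disc X) × Disc X => q.2) p := continuous_snd.continuousAt
    rw [ContinuousAt, nhds_discrete (Disc X), tendsto_pure] at this
    exact this
  have h2 : ∀ᶠ q in 𝓝 p, q.1 p.2.pt = p.1 p.2.pt := by
    have : ContinuousAt (fun q : (X → Disc X) × Disc X => q.1 p.2.pt) p :=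
      ((continuous_apply p.2.pt).comp continuous_fst).continuousAt
    rw [ContinuousAt, nhds_discrete (Disc X), tendsto_pure] at this
    exact this
  filter_upwards [h1, h2] with q hq1 hq2
  rw [hq1, hq2]

variable {X : Type*} [MetricSpace X]

/-- The pair of `g` and its inverse. -/
def pairMap (g : X ≃ᵢ X) : (X → Disc X) × (X → Disc X) := (fun x => ⟨g x⟩, fun x => ⟨g⁻¹ x⟩)

/-- the topology of pointwise convergence with respect to the discrete topology -/
@[reducible] def isoTop (X : Type*) [MetricSpace X] : TopologicalSpace (X ≃ᵢ X) :=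
  TopologicalSpace.induced pairMap inferInstance

theorem continuous_pairMap : @Continuous _ _ (isoTop X) _ (pairMap (X := X)) :=
  continuous_induced_dom

theorem continuous_ap (x : X) :
    @Continuous _ _ (isoTop X) _ (fun g : X ≃ᵢ X => (⟨g x⟩ : Disc X)) := by
  let _ := isoTop X
  exact (continuous_apply x).comp (continuous_fst.comp continuous_pairMap)

theorem continuous_ap_inv (x : X) :
    @Continuous _ _ (isoTop X) _ (fun g : X ≃ᵢ X => (⟨g⁻¹ x⟩ : Disc X)) := by
  let _ := isoTop X
  exact (continuous_apply x).comp (continuous_snd.comp continuous_pairMap)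

/-- basic neighbourhoods of the identity -/
theorem exists_fix_subset (U : Set (X ≃ᵢ X)) (hU : U ∈ @nhds _ (isoTop X) 1) :
    ∃ F : Finset X, ∀ g : X ≃ᵢ X, (∀ x ∈ F, g x = x) → g ∈ U := by
  classical
  let _ := isoTop X
  rw [nhds_induced, mem_comap] at hU
  obtain ⟨V, hV, hVU⟩ := hU
  rw [nhds_prod_eq, mem_prod_iff] at hV
  obtain ⟨V1, hV1, V2, hV2, hV⟩ := hV
  rw [nhds_pi, Filter.mem_pi] at hV1 hV2
  obtain ⟨I1, hI1, t1, ht1, h1⟩ := hV1
  obtain ⟨I2, hI2, t2, ht2, h2⟩ := hV2
  refine ⟨hI1.toFinset ∪ hI2.toFinset, fun g hg => ?_⟩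
  apply hVU
  apply hV
  refine ⟨h1 ?_, h2 ?_⟩
  · intro x hx
    have e : g x = x := hg x (Finset.mem_union_left _ (hI1.mem_toFinset.2 hx))
    show (⟨g x⟩ : Disc X) ∈ t1 x
    rw [e]
    exact mem_of_mem_nhds (ht1 x)
  · intro x hx
    have e : g x = x := hg x (Finset.mem_union_right _ (hI2.mem_toFinset.2 hx))
    have e' : g⁻¹ x = x := by
      conv_lhs => rw [← e]
      exact g.symm_apply_apply x
    show (⟨g⁻¹ x⟩ : Disc X) ∈ t2 x
    rw [e']
    exact mem_of_mem_nhds (ht2 x)

theorem isoGroup (X : Type*) [MetricSpace X] : @IsTopologicalGroup (X ≃ᵢ X) (isoTop X) _ := by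
  let _ := isoTop X
  refine { continuous_mul := ?_, continuous_inv := ?_ }
  · rw [continuous_induced_rng]
    refine Continuous.prodMk ?_ ?_
    · refine continuous_pi fun x => ?_
      have h1 : Continuous (fun p : (X ≃ᵢ X) × (X ≃ᵢ X) =>
          (((pairMap p.1).1, (⟨p.2 x⟩ : Disc X)) : (X → Disc X) × Disc X)) :=
        (continuous_fst.comp (continuous_pairMap.comp continuous_fst)).prodMk
          ((continuous_ap x).comp continuous_snd)
      exact (continuous_eval_disc X).comp h1
    · refine continuous_pi fun x => ?_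
      have h1 : Continuous (fun p : (X ≃ᵢ X) × (X ≃ᵢ X) =>
          (((pairMap p.2).2, (⟨p.1⁻¹ x⟩ : Disc X)) : (X → Disc X) × Disc X)) :=
        (continuous_snd.comp (continuous_pairMap.comp continuous_snd)).prodMk
          ((continuous_ap_inv x).comp continuous_fst)
      have h2 := (continuous_eval_disc X).comp h1
      refine h2.congr fun p => ?_
      show (⟨p.2⁻¹ (p.1⁻¹ x)⟩ : Disc X) = ⟨(p.1 * p.2)⁻¹ x⟩
      rw [mul_inv_rev]
      rfl
  · rw [continuous_induced_rng]
    refine Continuous.prodMk ?_ ?_
    · exact continuous_snd.comp continuous_pairMap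
    · refine (continuous_fst.comp continuous_pairMap).congr fun g => ?_
      show (pairMap g).1 = (pairMap g⁻¹).2
      unfold pairMap
      simp only [inv_inv]

/-- the pointwise stabiliser of a finite set, as an open subgroup -/
def openStab (F : Finset X) : @OpenSubgroup (X ≃ᵢ X) _ (isoTop X) := by
  let _ := isoTop X
  exact
  { carrier := {g | ∀ x ∈ F, g x = x}
    mul_mem' := fun {g h} hg hh x hx => by
      show g (h x) = x
      rw [hh x hx, hg x hx]
    one_mem' := fun x _ => rfl
    inv_mem' := fun {g} hg x hx => by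
      show g⁻¹ x = x
      conv_lhs => rw [← hg x hx]
      exact g.symm_apply_apply x
    isOpen' := by
      show IsOpen {g : X ≃ᵢ X | ∀ x ∈ F, g x = x}
      have : {g : X ≃ᵢ X | ∀ x ∈ F, g x = x} =
          ⋂ x ∈ F, (fun g : X ≃ᵢ X => (⟨g x⟩ : Disc X)) ⁻¹' {(⟨x⟩ : Disc X)} := by
        ext g
        simp
      rw [this]
      refine isOpen_biInter_finset fun x _ => ?_
      exact (isOpen_discrete _).preimage (continuous_ap x) }

theorem isoNonarch (X : Type*) [MetricSpace X] : @NonarchimedeanGroup (X ≃ᵢ X) _ (isoTop X) := by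
  let _ := isoTop X
  have := isoGroup X
  refine { is_nonarchimedean := ?_ }
  intro U hU
  obtain ⟨F, hF⟩ := exists_fix_subset U hU
  exact ⟨openStab F, fun g hg => hF g hg⟩

theorem isoPolish (X : Type*) [MetricSpace X] [Countable X] :
    @PolishSpace (X ≃ᵢ X) (isoTop X) := by
  let _ := isoTop X
  have hemb : IsClosedEmbedding (pairMap (X := X)) := by
    refine ⟨⟨⟨rfl⟩, ?_⟩, ?_⟩
    · intro g h hgh
      ext x
      exact congrArg Disc.pt (congrFun (congrArg Prod.fst hgh) x)
    · have hrange : range (pairMap (X := X)) =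
          (⋂ x : X, {p : (X → Disc X) × (X → Disc X) | p.1 (p.2 x).pt = ⟨x⟩}) ∩
          (⋂ x : X, {p : (X → Disc X) × (X → Disc X) | p.2 (p.1 x).pt = ⟨x⟩}) ∩
          ⋂ x : X, ⋂ y : X, {p : (X → Disc X) × (X → Disc X) |
            dist (p.1 x).pt (p.1 y).pt = dist x y} := by
        ext p
        constructor
        · rintro ⟨g, rfl⟩
          refine ⟨⟨mem_iInter.2 fun x => ?_, mem_iInter.2 fun x => ?_⟩,
            mem_iInter.2 fun x => mem_iInter.2 fun y => g.dist_eq x y⟩
          · show (⟨g (g⁻¹ x)⟩ : Disc X) = ⟨x⟩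
            congr 1
            exact g.apply_symm_apply x
          · show (⟨g⁻¹ (g x)⟩ : Disc X) = ⟨x⟩
            congr 1
            exact g.symm_apply_apply x
        · rintro ⟨⟨h1, h2⟩, h3⟩
          have h1' : ∀ x, p.1 (p.2 x).pt = ⟨x⟩ := fun x => mem_iInter.1 h1 x
          have h2' : ∀ x, p.2 (p.1 x).pt = ⟨x⟩ := fun x => mem_iInter.1 h2 x
          have h3' : ∀ x y, dist (p.1 x).pt (p.1 y).pt = dist x y := fun x y =>
            mem_iInter.1 (mem_iInter.1 h3 x) y
          exact ⟨⟨⟨fun x => (p.1 x).pt, fun x => (p.2 x).pt, fun x => congrArg Disc.pt (h2' x),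
            fun x => congrArg Disc.pt (h1' x)⟩, Isometry.of_dist_eq h3'⟩, rfl⟩
      rw [hrange]
      refine (IsClosed.inter ?_ ?_).inter ?_
      · refine isClosed_iInter fun x => ?_
        have h1 : Continuous (fun p : (X → Disc X) × (X → Disc X) => p.1 (p.2 x).pt) :=
          (continuous_eval_disc X).comp
            (continuous_fst.prodMk ((continuous_apply x).comp continuous_snd))
        exact (isClosed_discrete ({(⟨x⟩ : Disc X)} : Set (Disc X))).preimage h1
      · refine isClosed_iInter fun x => ?_
        have h1 : Continuous (fun p : (X → Disc X) × (X → Disc X) => p.2 (p.1 x).pt) :=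
          (continuous_eval_disc X).comp
            (continuous_snd.prodMk ((continuous_apply x).comp continuous_fst))
        exact (isClosed_discrete ({(⟨x⟩ : Disc X)} : Set (Disc X))).preimage h1
      · refine isClosed_iInter fun x => isClosed_iInter fun y => ?_
        have h1 : Continuous (fun p : (X → Disc X) × (X → Disc X) =>
            ((p.1 x, p.1 y) : Disc X × Disc X)) :=
          ((continuous_apply x).comp continuous_fst).prodMk
            ((continuous_apply y).comp continuous_fst)
        exact (isClosed_discrete ({q : Disc X × Disc X | dist q.1.pt q.2.pt = dist x y} :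
          Set (Disc X × Disc X))).preimage h1
  have h0 : PolishSpace (X → Disc X) := by
    have : TopologicalSpace.IsCompletelyMetrizableSpace (X → Disc X) :=
      TopologicalSpace.IsCompletelyMetrizableSpace.pi_countable
    exact inferInstance
  exact hemb.polishSpace

end Pool.Agent.W335
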