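import Mathlib
import Pool.Agent.W335.Top

/-!
# Permutation groups of a countable set, with the topology of pointwise convergence
-/

set_option autoImplicit false

namespace Pool.Agent.W335

open Set Filter Topology

variable {Y : Type*} (H : Subgroup (Equiv.Perm Y))

/-- The pair of `g` and its inverse. -/
def pmap (g : H) : (Y → Disc Y) × (Y → Disc Y) :=
  (fun x => ⟨(g : Equiv.Perm Y) x⟩, fun x => ⟨((g : Equiv.Perm Y)⁻¹) x⟩)

/-- the topology of pointwise convergence -/
@[reducible] def permTop : TopologicalSpace H :=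
  TopologicalSpace.induced (pmap H) inferInstance

theorem continuous_pmap : @Continuous _ _ (permTop H) _ (pmap H) :=
  continuous_induced_dom

theorem continuous_pap (x : Y) :
    @Continuous _ _ (permTop H) _ (fun g : H => (⟨(g : Equiv.Perm Y) x⟩ : Disc Y)) := by
  let _ := permTop H
  exact (continuous_apply x).comp (continuous_fst.comp (continuous_pmap H))

theorem continuous_pap_inv (x : Y) :
    @Continuous _ _ (permTop H) _ (fun g : H => (⟨((g : Equiv.Perm Y)⁻¹) x⟩ : Disc Y)) := by
  let _ := permTop H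
  exact (continuous_apply x).comp (continuous_snd.comp (continuous_pmap H))

/-- neighbourhoods of a point -/
theorem perm_mem_nhds (g : H) (U : Set H) :
    U ∈ @nhds _ (permTop H) g ↔ ∃ F : Finset Y, ∀ h : H,
      (∀ y ∈ F, (h : Equiv.Perm Y) y = (g : Equiv.Perm Y) y) → h ∈ U := by
  classical
  let _ := permTop H
  constructor
  · intro hU
    rw [nhds_induced, mem_comap] at hU
    obtain ⟨V, hV, hVU⟩ := hU
    rw [nhds_prod_eq, mem_prod_iff] at hV
    obtain ⟨V1, hV1, V2, hV2, hV⟩ := hV
    rw [nhds_pi, Filter.mem_pi] at hV1 hV2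
    obtain ⟨I1, hI1, t1, ht1, h1⟩ := hV1
    obtain ⟨I2, hI2, t2, ht2, h2⟩ := hV2
    refine ⟨hI1.toFinset ∪ hI2.toFinset.image (fun x => ((g : Equiv.Perm Y)⁻¹) x), fun h hh => ?_⟩
    apply hVU
    apply hV
    refine ⟨h1 ?_, h2 ?_⟩
    · intro x hx
      have e : (h : Equiv.Perm Y) x = (g : Equiv.Perm Y) x :=
        hh x (Finset.mem_union_left _ (hI1.mem_toFinset.2 hx))
      show (⟨(h : Equiv.Perm Y) x⟩ : Disc Y) ∈ t1 x
      rw [e]
      exact mem_of_mem_nhds (ht1 x)
    · intro x hx
      have e : (h : Equiv.Perm Y) (((g : Equiv.Perm Y)⁻¹) x) = x := by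
        rw [hh _ (Finset.mem_union_right _ (Finset.mem_image.2 ⟨x, hI2.mem_toFinset.2 hx, rfl⟩))]
        exact (g : Equiv.Perm Y).apply_symm_apply x
      have e' : ((h : Equiv.Perm Y)⁻¹) x = ((g : Equiv.Perm Y)⁻¹) x := by
        conv_lhs => rw [← e]
        exact (h : Equiv.Perm Y).symm_apply_apply _
      show (⟨((h : Equiv.Perm Y)⁻¹) x⟩ : Disc Y) ∈ t2 x
      rw [e']
      exact mem_of_mem_nhds (ht2 x)
  · rintro ⟨F, hF⟩
    have h1 : ∀ y ∈ F, ∀ᶠ h : H in 𝓝 g, (h : Equiv.Perm Y) y = (g : Equiv.Perm Y) y := by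
      intro y _
      have h2 : ContinuousAt (fun g : H => (⟨(g : Equiv.Perm Y) y⟩ : Disc Y)) g :=
        (continuous_pap H y).continuousAt
      rw [ContinuousAt, nhds_discrete (Disc Y), tendsto_pure] at h2
      filter_upwards [h2] with h hh
      exact congrArg Disc.pt hh
    have h3 : ∀ᶠ h : H in 𝓝 g, ∀ y ∈ F, (h : Equiv.Perm Y) y = (g : Equiv.Perm Y) y :=
      (Filter.eventually_all_finset F).2 h1
    filter_upwards [h3] with h hh using hF h hh

theorem permGroup : @IsTopologicalGroup H (permTop H) _ := by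
  let _ := permTop H
  refine { continuous_mul := ?_, continuous_inv := ?_ }
  · rw [continuous_induced_rng]
    refine Continuous.prodMk ?_ ?_
    · refine continuous_pi fun x => ?_
      have h1 : Continuous (fun p : H × H =>
          (((pmap H p.1).1, (⟨(p.2 : Equiv.Perm Y) x⟩ : Disc Y)) : (Y → Disc Y) × Disc Y)) :=
        (continuous_fst.comp ((continuous_pmap H).comp continuous_fst)).prodMk
          ((continuous_pap H x).comp continuous_snd)
      exact (continuous_eval_disc Y).comp h1
    · refine continuous_pi fun x => ?_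
      have h1 : Continuous (fun p : H × H =>
          (((pmap H p.2).2, (⟨((p.1 : Equiv.Perm Y)⁻¹) x⟩ : Disc Y)) : (Y → Disc Y) × Disc Y)) :=
        (continuous_snd.comp ((continuous_pmap H).comp continuous_snd)).prodMk
          ((continuous_pap_inv H x).comp continuous_fst)
      have h2 := (continuous_eval_disc Y).comp h1
      refine h2.congr fun p => ?_
      show (⟨((p.2 : Equiv.Perm Y)⁻¹) (((p.1 : Equiv.Perm Y)⁻¹) x)⟩ : Disc Y) =
        ⟨(((p.1 * p.2 : H) : Equiv.Perm Y)⁻¹) x⟩
      rw [Subgroup.coe_mul, mul_inv_rev]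
      rfl
  · rw [continuous_induced_rng]
    refine Continuous.prodMk ?_ ?_
    · exact continuous_snd.comp (continuous_pmap H)
    · refine (continuous_fst.comp (continuous_pmap H)).congr fun g => ?_
      show (pmap H g).1 = (pmap H g⁻¹).2
      unfold pmap
      simp only [Subgroup.coe_inv, inv_inv]

/-- A permutation group which contains every permutation that is locally in the group (on triples)
is Polish. -/
theorem permPolish [Countable Y]
    (hcl : ∀ σ : Equiv.Perm Y, (∀ a b c : Y, ∃ h ∈ H, h a = σ a ∧ h b = σ b ∧ h c = σ c) → σ ∈ H) :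
    @PolishSpace H (permTop H) := by
  let _ := permTop H
  have hemb : IsClosedEmbedding (pmap H) := by
    refine ⟨⟨⟨rfl⟩, ?_⟩, ?_⟩
    · intro g h hgh
      apply Subtype.ext
      ext x
      exact congrArg Disc.pt (congrFun (congrArg Prod.fst hgh) x)
    · have hrange : range (pmap H) =
          (⋂ x : Y, {p : (Y → Disc Y) × (Y → Disc Y) | p.1 (p.2 x).pt = ⟨x⟩}) ∩
          (⋂ x : Y, {p : (Y → Disc Y) × (Y → Disc Y) | p.2 (p.1 x).pt = ⟨x⟩}) ∩
          ⋂ a : Y, ⋂ b : Y, ⋂ c : Y, {p : (Y → Disc Y) × (Y → Disc Y) |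
            ∃ h ∈ H, h a = (p.1 a).pt ∧ h b = (p.1 b).pt ∧ h c = (p.1 c).pt} := by
        ext p
        constructor
        · rintro ⟨g, rfl⟩
          refine ⟨⟨mem_iInter.2 fun x => ?_, mem_iInter.2 fun x => ?_⟩,
            mem_iInter.2 fun a => mem_iInter.2 fun b => mem_iInter.2 fun c =>
              ⟨g, g.2, rfl, rfl, rfl⟩⟩
          · show (⟨(g : Equiv.Perm Y) (((g : Equiv.Perm Y)⁻¹) x)⟩ : Disc Y) = ⟨x⟩
            congr 1
            exact (g : Equiv.Perm Y).apply_symm_apply x
          · show (⟨((g : Equiv.Perm Y)⁻¹) ((g : Equiv.Perm Y) x)⟩ : Disc Y) = ⟨x⟩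
            congr 1
            exact (g : Equiv.Perm Y).symm_apply_apply x
        · rintro ⟨⟨h1, h2⟩, h3⟩
          have h1' : ∀ x, p.1 (p.2 x).pt = ⟨x⟩ := fun x => mem_iInter.1 h1 x
          have h2' : ∀ x, p.2 (p.1 x).pt = ⟨x⟩ := fun x => mem_iInter.1 h2 x
          let σ : Equiv.Perm Y := ⟨fun x => (p.1 x).pt, fun x => (p.2 x).pt,
            fun x => congrArg Disc.pt (h2' x), fun x => congrArg Disc.pt (h1' x)⟩
          have hσ : σ ∈ H := hcl σ fun a b c =>
            mem_iInter.1 (mem_iInter.1 (mem_iInter.1 h3 a) b) c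
          exact ⟨⟨σ, hσ⟩, rfl⟩
      rw [hrange]
      refine (IsClosed.inter ?_ ?_).inter ?_
      · refine isClosed_iInter fun x => ?_
        have h1 : Continuous (fun p : (Y → Disc Y) × (Y → Disc Y) => p.1 (p.2 x).pt) :=
          (continuous_eval_disc Y).comp
            (continuous_fst.prodMk ((continuous_apply x).comp continuous_snd))
        exact (isClosed_discrete ({(⟨x⟩ : Disc Y)} : Set (Disc Y))).preimage h1
      · refine isClosed_iInter fun x => ?_
        have h1 : Continuous (fun p : (Y → Disc Y) × (Y → Disc Y) => p.2 (p.1 x).pt) :=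
          (continuous_eval_disc Y).comp
            (continuous_snd.prodMk ((continuous_apply x).comp continuous_fst))
        exact (isClosed_discrete ({(⟨x⟩ : Disc Y)} : Set (Disc Y))).preimage h1
      · refine isClosed_iInter fun a => isClosed_iInter fun b => isClosed_iInter fun c => ?_
        have h1 : Continuous (fun p : (Y → Disc Y) × (Y → Disc Y) =>
            ((p.1 a, p.1 b, p.1 c) : Disc Y × Disc Y × Disc Y)) :=
          ((continuous_apply a).comp continuous_fst).prodMk
            (((continuous_apply b).comp continuous_fst).prodMk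
              ((continuous_apply c).comp continuous_fst))
        exact (isClosed_discrete ({q : Disc Y × Disc Y × Disc Y |
          ∃ h ∈ H, h a = q.1.pt ∧ h b = q.2.1.pt ∧ h c = q.2.2.pt} :
          Set (Disc Y × Disc Y × Disc Y))).preimage h1
  have h0 : PolishSpace (Y → Disc Y) := by
    have : TopologicalSpace.IsCompletelyMetrizableSpace (Y → Disc Y) :=
      TopologicalSpace.IsCompletelyMetrizableSpace.pi_countable
    exact inferInstance
  exact hemb.polishSpace

/-- A bounded compatible left-invariant metric. -/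
theorem exists_bdd_metric [Countable Y] [Nonempty Y] :
    ∃ δ : H → H → ℝ, (∀ x, δ x x = 0) ∧ (∀ x y, δ x y = 0 → x = y) ∧ (∀ x y, δ x y = δ y x) ∧
      (∀ x y z, δ x z ≤ δ x y + δ y z) ∧ (∀ g x y, δ (g * x) (g * y) = δ x y) ∧
      (∀ x y, δ x y ≤ 1) ∧
      ∀ x : H, (@nhds _ (permTop H) x).HasBasis (fun ε : ℝ => 0 < ε) (fun ε => {y | δ x y < ε}) := by
  classical
  obtain ⟨e, he⟩ := exists_surjective_nat Y
  let s : H → ((_ : ℕ) → Disc Y) := fun g n => ⟨(g : Equiv.Perm Y) (e n)⟩
  have hs : Function.Injective s := by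
    intro g h hgh
    apply Subtype.ext
    ext y
    obtain ⟨n, rfl⟩ := he y
    exact congrArg Disc.pt (congrFun hgh n)
  let δ : H → H → ℝ := fun g h => PiNat.dist.dist (s g) (s h)
  refine ⟨δ, fun x => PiNat.dist_self _, fun x y h => hs (PiNat.eq_of_dist_eq_zero _ _ h),
    fun x y => PiNat.dist_comm _ _, fun x y z => PiNat.dist_triangle _ _ _, ?_,
    fun x y => PiNat.dist_le_one _ _, ?_⟩
  · intro g x y
    by_cases hxy : x = y
    · subst hxy
      show PiNat.dist.dist _ _ = PiNat.dist.dist _ _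
      rw [PiNat.dist_self, PiNat.dist_self]
    · have h1 : s x ≠ s y := fun h => hxy (hs h)
      have h2 : s (g * x) ≠ s (g * y) := fun h => hxy (mul_left_cancel (hs h))
      show PiNat.dist.dist _ _ = PiNat.dist.dist _ _
      rw [PiNat.dist_eq_of_ne h1, PiNat.dist_eq_of_ne h2]
      congr 1
      have key : ∀ n, s (g * x) n = s (g * y) n ↔ s x n = s y n := by
        intro n
        constructor
        · intro h
          have h3 : (g : Equiv.Perm Y) ((x : Equiv.Perm Y) (e n)) =
              (g : Equiv.Perm Y) ((y : Equiv.Perm Y) (e n)) := congrArg Disc.pt h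
          have h4 := (g : Equiv.Perm Y).injective h3
          show (⟨(x : Equiv.Perm Y) (e n)⟩ : Disc Y) = ⟨(y : Equiv.Perm Y) (e n)⟩
          rw [h4]
        · intro h
          have h3 : (x : Equiv.Perm Y) (e n) = (y : Equiv.Perm Y) (e n) := congrArg Disc.pt h
          show (⟨(g : Equiv.Perm Y) ((x : Equiv.Perm Y) (e n))⟩ : Disc Y) =
            ⟨(g : Equiv.Perm Y) ((y : Equiv.Perm Y) (e n))⟩
          rw [h3]
      apply le_antisymm
      · by_contra hlt
        push Not at hlt
        have h3 := PiNat.apply_eq_of_lt_firstDiff hlt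
        exact PiNat.apply_firstDiff_ne h1 ((key _).1 h3)
      · by_contra hlt
        push Not at hlt
        have h3 := PiNat.apply_eq_of_lt_firstDiff hlt
        exact PiNat.apply_firstDiff_ne h2 ((key _).2 h3)
  · intro x
    refine ⟨fun U => ?_⟩
    rw [perm_mem_nhds]
    constructor
    · rintro ⟨F, hF⟩
      let b : Y → ℕ := Function.surjInv he
      have hb : ∀ y, e (b y) = y := Function.surjInv_eq he
      refine ⟨(1 / 2 : ℝ) ^ (F.sup b), by positivity, fun h hh => hF h fun y hy => ?_⟩
      have h1 : b y ≤ F.sup b := Finset.le_sup hy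
      have h2 := PiNat.apply_eq_of_dist_lt (x := s x) (y := s h) hh h1
      have h3 : (x : Equiv.Perm Y) (e (b y)) = (h : Equiv.Perm Y) (e (b y)) := congrArg Disc.pt h2
      rw [hb] at h3
      exact h3.symm
    · rintro ⟨ε, hε, hU⟩
      obtain ⟨n, hn⟩ := exists_pow_lt_of_lt_one hε (show (1 / 2 : ℝ) < 1 by norm_num)
      refine ⟨(Finset.range n).image e, fun h hh => hU ?_⟩
      show PiNat.dist.dist (s x) (s h) < ε
      refine lt_of_le_of_lt ?_ hn
      rw [← PiNat.mem_cylinder_iff_dist_le, PiNat.mem_cylinder_iff]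
      intro i hi
      show (⟨(x : Equiv.Perm Y) (e i)⟩ : Disc Y) = ⟨(h : Equiv.Perm Y) (e i)⟩
      rw [hh (e i) (Finset.mem_image.2 ⟨i, Finset.mem_range.2 hi, rfl⟩)]

end Pool.Agent.W335
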