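import Mathlib
import Pool.Agent.W335.PermTop

/-!
# The automorphism group of the countable dense circular order
-/

set_option autoImplicit false
set_option linter.unusedSimpArgs false

namespace Pool.Agent.W335

open Set Filter Topology

/-- Ultrahomogeneity of `ℚ`. -/
theorem ratHomog {ι : Type*} [Finite ι] (p q : ι → ℚ) (hpq : ∀ i j, p i < p j ↔ q i < q j) :
    ∃ σ : ℚ ≃o ℚ, ∀ i, σ (p i) = q i := by
  classical
  let _ := Fintype.ofFinite ι
  have hcmp : ∀ i j, cmp (p i) (p j) = cmp (q i) (q j) := by
    intro i j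
    rcases lt_trichotomy (p i) (p j) with h | h | h
    · rw [cmp_eq_lt_iff _ _ |>.2 h, cmp_eq_lt_iff _ _ |>.2 ((hpq i j).1 h)]
    · have h1 : q i = q j := by
        apply le_antisymm
        · exact not_lt.1 fun h' => absurd ((hpq j i).2 h') (by rw [h]; exact lt_irrefl _)
        · exact not_lt.1 fun h' => absurd ((hpq i j).2 h') (by rw [h]; exact lt_irrefl _)
      rw [cmp_eq_eq_iff _ _ |>.2 h, cmp_eq_eq_iff _ _ |>.2 h1]
    · rw [cmp_eq_gt_iff _ _ |>.2 h, cmp_eq_gt_iff _ _ |>.2 ((hpq j i).1 h)]
  let s : Order.PartialIso ℚ ℚ := ⟨Finset.univ.image fun i => (p i, q i), by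
    intro x hx y hy
    obtain ⟨i, -, rfl⟩ := Finset.mem_image.1 hx
    obtain ⟨j, -, rfl⟩ := Finset.mem_image.1 hy
    exact hcmp i j⟩
  let to_cofinal : ℚ ⊕ ℚ → Order.Cofinal (Order.PartialIso ℚ ℚ) := fun p ↦
    Sum.recOn p (Order.PartialIso.definedAtLeft ℚ) (Order.PartialIso.definedAtRight ℚ)
  let our_ideal : Order.Ideal (Order.PartialIso ℚ ℚ) := Order.idealOfCofinals s to_cofinal
  let F a := Order.PartialIso.funOfIdeal a our_ideal
    (Order.cofinal_meets_idealOfCofinals _ to_cofinal (Sum.inl a))
  let G b := Order.PartialIso.invOfIdeal b our_ideal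
    (Order.cofinal_meets_idealOfCofinals _ to_cofinal (Sum.inr b))
  refine ⟨OrderIso.ofCmpEqCmp (fun a ↦ (F a).val) (fun b ↦ (G b).val) fun a b ↦ by
      rcases (F a).prop with ⟨f, hf, ha⟩
      rcases (G b).prop with ⟨g, hg, hb⟩
      rcases our_ideal.directed _ hf _ hg with ⟨m, _, fm, gm⟩
      exact m.prop (a, _) (fm ha) (_, b) (gm hb), fun i => ?_⟩
  show (F (p i)).val = q i
  rcases (F (p i)).prop with ⟨f, hf, ha⟩
  have hs : s ∈ our_ideal := Order.mem_idealOfCofinals s to_cofinal
  rcases our_ideal.directed _ hf _ hs with ⟨m, _, fm, sm⟩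
  have h1 := m.prop (p i, (F (p i)).val) (fm ha) (p i, q i)
    (sm (Finset.mem_image.2 ⟨i, Finset.mem_univ _, rfl⟩))
  have h2 : cmp (p i) (p i) = Ordering.eq := cmp_self_eq_eq _
  have h3 : cmp (F (p i)).val (q i) = Ordering.eq := by rw [← h2]; exact h1.symm
  exact cmp_eq_eq_iff _ _ |>.1 h3

/-- The countable dense circular order is `ℚ` with one more point. -/
abbrev QB : Type := WithBot ℚ

/-- The circular order on `QB`. -/
def Cyc (a b c : QB) : Prop := (a < b ∧ b < c) ∨ (b < c ∧ c < a) ∨ (c < a ∧ a < b)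

/-- The automorphism group of the circular order. -/
def circAut : Subgroup (Equiv.Perm QB) where
  carrier := {σ | ∀ a b c, Cyc (σ a) (σ b) (σ c) ↔ Cyc a b c}
  mul_mem' := by
    intro σ τ hσ hτ a b c
    exact (hσ _ _ _).trans (hτ _ _ _)
  one_mem' := fun a b c => Iff.rfl
  inv_mem' := by
    intro σ hσ a b c
    have h := hσ (σ⁻¹ a) (σ⁻¹ b) (σ⁻¹ c)
    have e : ∀ x, σ (σ⁻¹ x) = x := fun x => σ.apply_symm_apply x
    rw [e, e, e] at h
    exact h.symm

/-- An order automorphism of `ℚ` fixes the point at infinity. -/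
def ordAut (σ : ℚ ≃o ℚ) : circAut :=
  ⟨(σ.withBotCongr : QB ≃o QB).toEquiv, by
    intro a b c
    show Cyc (σ.withBotCongr a) (σ.withBotCongr b) (σ.withBotCongr c) ↔ _
    unfold Cyc
    simp only [OrderIso.lt_iff_lt]⟩

theorem ordAut_coe (σ : ℚ ≃o ℚ) (q : ℚ) :
    ((ordAut σ : circAut) : Equiv.Perm QB) (q : QB) = ((σ q : ℚ) : QB) := rfl

theorem ordAut_bot (σ : ℚ ≃o ℚ) : ((ordAut σ : circAut) : Equiv.Perm QB) ⊥ = ⊥ := rfl

/-- The involution `x ↦ -1/x`. -/
def flipF : QB → QB
  | ⊥ => ((0 : ℚ) : QB)
  | (q : ℚ) => if q = 0 then ⊥ else ((-q⁻¹ : ℚ) : QB)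

theorem flipF_bot : flipF ⊥ = ((0 : ℚ) : QB) := rfl

theorem flipF_zero : flipF ((0 : ℚ) : QB) = ⊥ :=
  if_pos (c := (0 : ℚ) = 0) (e := ((-(0 : ℚ)⁻¹ : ℚ) : QB)) rfl

theorem flipF_coe {q : ℚ} (hq : q ≠ 0) : flipF (q : QB) = ((-q⁻¹ : ℚ) : QB) :=
  if_neg (c := q = 0) hq

theorem flipF_invol : Function.Involutive flipF := by
  intro a
  induction a using WithBot.recBotCoe with
  | bot => rw [flipF_bot, flipF_zero]
  | coe q =>
    by_cases hq : q = 0
    · subst hq; rw [flipF_zero, flipF_bot]
    · rw [flipF_coe hq, flipF_coe (by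
        rw [neg_ne_zero]; exact inv_ne_zero hq)]
      congr 1
      rw [inv_neg, inv_inv, neg_neg]

theorem flipF_lt (a b : QB) : flipF a < flipF b ↔
    ((a < ((0 : ℚ) : QB) ↔ b < ((0 : ℚ) : QB)) ∧ a < b) ∨
      (¬ a < ((0 : ℚ) : QB) ∧ b < ((0 : ℚ) : QB)) := by
  induction a using WithBot.recBotCoe with
  | bot =>
    induction b using WithBot.recBotCoe with
    | bot => simp
    | coe b =>
      by_cases hb : b = 0
      · subst hb
        rw [flipF_zero, flipF_bot]
        simp only [WithBot.bot_lt_coe, lt_irrefl, not_lt_bot, iff_false, not_true_eq_false,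
          false_and, and_false, or_false]
      · rw [flipF_bot, flipF_coe hb]
        have h0 : (⊥ : QB) < ((0 : ℚ) : QB) := WithBot.bot_lt_coe _
        have h1 : (⊥ : QB) < (b : QB) := WithBot.bot_lt_coe _
        simp only [h0, h1, WithBot.coe_lt_coe, true_iff, and_true, not_true_eq_false, false_and,
          or_false]
        rw [neg_pos, inv_lt_zero]
  | coe a =>
    induction b using WithBot.recBotCoe with
    | bot =>
      have h0 : (⊥ : QB) < ((0 : ℚ) : QB) := WithBot.bot_lt_coe _
      have h1 : ¬ (a : QB) < ⊥ := not_lt_bot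
      simp only [h0, h1, and_false, false_or, and_true, WithBot.coe_lt_coe]
      by_cases ha : a = 0
      · subst ha; rw [flipF_zero, flipF_bot]; simp
      · rw [flipF_coe ha, flipF_bot, WithBot.coe_lt_coe, neg_lt_zero, inv_pos, not_lt]
        exact ⟨fun h => h.le, fun h => lt_of_le_of_ne h (Ne.symm ha)⟩
    | coe b =>
      simp only [WithBot.coe_lt_coe]
      by_cases ha : a = 0
      · subst ha
        by_cases hb : b = 0
        · subst hb; simp
        · rw [flipF_zero, flipF_coe hb]
          simp only [WithBot.bot_lt_coe, lt_irrefl, false_iff, not_false_eq_true, true_and,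
            true_iff]
          rcases lt_or_gt_of_ne hb with h | h
          · exact Or.inr h
          · exact Or.inl ⟨not_lt.2 h.le, h⟩
      · by_cases hb : b = 0
        · subst hb
          rw [flipF_zero, flipF_coe ha]
          simp only [not_lt_bot, lt_irrefl, iff_false, and_false, or_false, false_iff]
          intro h
          exact h.1 h.2
        · rw [flipF_coe ha, flipF_coe hb, WithBot.coe_lt_coe, neg_lt_neg_iff]
          rcases lt_or_gt_of_ne ha with h | h <;> rcases lt_or_gt_of_ne hb with h' | h'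
          · simp only [h, h', true_and, not_true_eq_false, false_and, or_false]
            exact inv_lt_inv_of_neg h' h
          · simp only [h, h'.le.not_gt, iff_false, not_true_eq_false, false_and, or_false]
            have h1 : a⁻¹ < 0 := inv_lt_zero.2 h
            have h2 : 0 < b⁻¹ := inv_pos.2 h'
            intro h3
            linarith
          · simp only [h.le.not_gt, h', false_iff, not_true_eq_false, false_and,
              not_false_eq_true, and_self, or_true, iff_true]
            have h1 : b⁻¹ < 0 := inv_lt_zero.2 h'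
            have h2 : 0 < a⁻¹ := inv_pos.2 h
            linarith
          · simp only [h.le.not_gt, h'.le.not_gt, true_and, and_false, or_false]
            exact inv_lt_inv₀ h' h

theorem flipF_cyc (a b c : QB) : Cyc (flipF a) (flipF b) (flipF c) ↔ Cyc a b c := by
  unfold Cyc
  rw [flipF_lt, flipF_lt, flipF_lt]
  have key : ∀ x y : QB, x < ((0 : ℚ) : QB) → ¬ y < ((0 : ℚ) : QB) → x < y ∧ ¬ y < x := by
    intro x y hx hy
    have h := lt_of_lt_of_le hx (not_lt.1 hy)
    exact ⟨h, h.le.not_gt⟩
  by_cases hA : a < ((0 : ℚ) : QB) <;> by_cases hB : b < ((0 : ℚ) : QB) <;>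
    by_cases hC : c < ((0 : ℚ) : QB)
  · simp only [hA, hB, hC, true_and, not_true_eq_false, false_and, or_false]
  · have h1 := key a c hA hC
    have h2 := key b c hB hC
    simp only [hA, hB, hC, h1.1, h1.2, h2.1, h2.2, iff_true, true_iff, iff_false, false_iff,
      not_true_eq_false, not_false_eq_true, and_true, true_and, and_false, false_and, or_false,
      false_or, or_true, true_or, not_true, not_false_iff]
  · have h1 := key a b hA hB
    have h2 := key c b hC hB
    simp only [hA, hB, hC, h1.1, h1.2, h2.1, h2.2, iff_true, true_iff, iff_false, false_iff,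
      not_true_eq_false, not_false_eq_true, and_true, true_and, and_false, false_and, or_false,
      false_or, or_true, true_or, not_true, not_false_iff]
  · have h1 := key a b hA hB
    have h2 := key a c hA hC
    simp only [hA, hB, hC, h1.1, h1.2, h2.1, h2.2, iff_true, true_iff, iff_false, false_iff,
      not_true_eq_false, not_false_eq_true, and_true, true_and, and_false, false_and, or_false,
      false_or, or_true, true_or, not_true, not_false_iff]
  · have h1 := key b a hB hA
    have h2 := key c a hC hA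
    simp only [hA, hB, hC, h1.1, h1.2, h2.1, h2.2, iff_true, true_iff, iff_false, false_iff,
      not_true_eq_false, not_false_eq_true, and_true, true_and, and_false, false_and, or_false,
      false_or, or_true, true_or, not_true, not_false_iff]
  · have h1 := key b a hB hA
    have h2 := key b c hB hC
    simp only [hA, hB, hC, h1.1, h1.2, h2.1, h2.2, iff_true, true_iff, iff_false, false_iff,
      not_true_eq_false, not_false_eq_true, and_true, true_and, and_false, false_and, or_false,
      false_or, or_true, true_or, not_true, not_false_iff]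
  · have h1 := key c a hC hA
    have h2 := key c b hC hB
    simp only [hA, hB, hC, h1.1, h1.2, h2.1, h2.2, iff_true, true_iff, iff_false, false_iff,
      not_true_eq_false, not_false_eq_true, and_true, true_and, and_false, false_and, or_false,
      false_or, or_true, true_or, not_true, not_false_iff]
  · simp only [hA, hB, hC, true_and, and_false, or_false]

/-- The involution in the group. -/
def flipG : circAut := ⟨flipF_invol.toPerm, fun a b c => flipF_cyc a b c⟩

theorem flipG_apply (a : QB) : ((flipG : circAut) : Equiv.Perm QB) a = flipF a := rfl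

/-- The translations. -/
def trG (c : ℚ) : circAut := ordAut (OrderIso.addRight c)

theorem trG_coe (c q : ℚ) : ((trG c : circAut) : Equiv.Perm QB) (q : QB) = ((q + c : ℚ) : QB) := rfl

theorem trG_bot (c : ℚ) : ((trG c : circAut) : Equiv.Perm QB) ⊥ = ⊥ := rfl

/-- Elements fixing the point at infinity preserve the linear order. -/
theorem stab_lt (g : circAut) (hg : (g : Equiv.Perm QB) ⊥ = ⊥) (a b : QB) :
    (g : Equiv.Perm QB) a < (g : Equiv.Perm QB) b ↔ a < b := by
  have h1 : ∀ x y : QB, Cyc ⊥ x y ↔ (x ≠ ⊥ ∧ x < y) := by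
    intro x y
    unfold Cyc
    simp only [not_lt_bot, and_false, false_and, or_false, bot_lt_iff_ne_bot]
  have h2 := g.2 ⊥ a b
  rw [hg, h1, h1] at h2
  have h3 : ∀ x, (g : Equiv.Perm QB) x = ⊥ ↔ x = ⊥ := by
    intro x
    conv_lhs => rw [← hg]
    exact (g : Equiv.Perm QB).apply_eq_iff_eq
  by_cases ha : a = ⊥
  · subst ha
    rw [hg, bot_lt_iff_ne_bot, bot_lt_iff_ne_bot]
    exact not_congr (h3 b)
  · have h4 : (g : Equiv.Perm QB) a ≠ ⊥ := fun h => ha ((h3 a).1 h)
    constructor
    · intro h; exact (h2.1 ⟨h4, h⟩).2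
    · intro h; exact (h2.2 ⟨ha, h⟩).2

/-- The group of the circular order is coarsely bounded. -/
theorem circ_OB (l : circAut → ℝ) (hmul : ∀ g h, l (g * h) ≤ l g + l h)
    (hinv : ∀ g, l g⁻¹ = l g) (A : Finset QB)
    (hA : ∀ g : circAut, (∀ a ∈ A, (g : Equiv.Perm QB) a = a) → l g ≤ 1) :
    ∃ B, ∀ g, l g ≤ B := by
  classical
  -- the stabiliser of the point at infinity
  have hstab : ∃ B, ∀ g : circAut, (g : Equiv.Perm QB) ⊥ = ⊥ → l g ≤ B := by
    let ι := {a : QB // a ∈ A ∧ a ≠ ⊥} ⊕ {a : QB // a ∈ A ∧ a ≠ ⊥}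
    have : Finite {a : QB // a ∈ A ∧ a ≠ ⊥} :=
      Finite.of_injective (fun a => (⟨a.1, a.2.1⟩ : A)) (by
        intro a b hab
        apply Subtype.ext
        exact congrArg (fun x : A => (x : QB)) hab)
    let p : circAut → ι → QB := fun g => Sum.elim (fun a => a.1) (fun a => (g : Equiv.Perm QB) a.1)
    let ty : circAut → (ι → ι → Prop) := fun g i j => p g i < p g j
    have h1 : ∀ t : ι → ι → Prop, ∃ B, ∀ g : circAut, (g : Equiv.Perm QB) ⊥ = ⊥ → ty g = t →
        l g ≤ B := by
      intro t
      by_cases hex : ∃ h : circAut, (h : Equiv.Perm QB) ⊥ = ⊥ ∧ ty h = t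
      · obtain ⟨h, hh, hht⟩ := hex
        refine ⟨l h + 2, fun g hg hgt => ?_⟩
        have hne : ∀ (k : circAut), (k : Equiv.Perm QB) ⊥ = ⊥ → ∀ i, p k i ≠ ⊥ := by
          intro k hk i
          rcases i with a | a
          · exact a.2.2
          · intro h4
            apply a.2.2
            apply (k : Equiv.Perm QB).injective
            rw [hk]
            exact h4
        obtain ⟨σ, hσ⟩ := ratHomog (fun i => (p g i).unbot (hne g hg i))
          (fun i => (p h i).unbot (hne h hh i)) (by
            intro i j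
            rw [← WithBot.coe_lt_coe (a := (p g i).unbot _),
              ← WithBot.coe_lt_coe (a := (p h i).unbot _), WithBot.coe_unbot, WithBot.coe_unbot,
              WithBot.coe_unbot, WithBot.coe_unbot]
            have h5 : ty g i j = ty h i j := by rw [hgt, hht]
            exact h5.to_iff)
        have hσ' : ∀ i, ((ordAut σ : circAut) : Equiv.Perm QB) (p g i) = p h i := by
          intro i
          have h6 := congrArg (fun x : ℚ => (x : QB)) (hσ i)
          simp only [WithBot.coe_unbot] at h6
          rw [← h6, ← ordAut_coe, WithBot.coe_unbot]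
        have h7 : l (ordAut σ) ≤ 1 := by
          apply hA
          intro a ha
          by_cases hab : a = ⊥
          · subst hab; exact ordAut_bot σ
          · exact hσ' (Sum.inl ⟨a, ha, hab⟩)
        have h8 : l (h⁻¹ * (ordAut σ * g)) ≤ 1 := by
          apply hA
          intro a ha
          show ((h : Equiv.Perm QB)⁻¹) (((ordAut σ : circAut) : Equiv.Perm QB)
            ((g : Equiv.Perm QB) a)) = a
          by_cases hab : a = ⊥
          · subst hab
            rw [hg, ordAut_bot]
            rw [Equiv.Perm.inv_eq_iff_eq]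
            exact hh.symm
          · rw [Equiv.Perm.inv_eq_iff_eq]
            exact hσ' (Sum.inr ⟨a, ha, hab⟩)
        have h9 : g = (ordAut σ)⁻¹ * (h * (h⁻¹ * (ordAut σ * g))) := by group
        calc l g = l ((ordAut σ)⁻¹ * (h * (h⁻¹ * (ordAut σ * g)))) := by rw [← h9]
          _ ≤ l (ordAut σ)⁻¹ + l (h * (h⁻¹ * (ordAut σ * g))) := hmul _ _
          _ ≤ l (ordAut σ)⁻¹ + (l h + l (h⁻¹ * (ordAut σ * g))) := by
              gcongr
              exact hmul _ _
          _ ≤ l h + 2 := by rw [hinv]; linarith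
      · exact ⟨0, fun g hg hgt => absurd ⟨g, hg, hgt⟩ hex⟩
    choose B hB using h1
    obtain ⟨M, hM⟩ := Finite.exists_le B
    exact ⟨M, fun g hg => (hB (ty g) g hg rfl).trans (hM _)⟩
  obtain ⟨B, hB⟩ := hstab
  refine ⟨max B (l flipG + B + B), fun g => ?_⟩
  by_cases hg : (g : Equiv.Perm QB) ⊥ = ⊥
  · exact (hB g hg).trans (le_max_left _ _)
  · refine le_trans ?_ (le_max_right _ _)
    obtain ⟨c, hc⟩ := WithBot.ne_bot_iff_exists.1 hg
    have h1 : ((flipG * (trG (-c) * g) : circAut) : Equiv.Perm QB) ⊥ = ⊥ := by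
      show flipF (((trG (-c) : circAut) : Equiv.Perm QB) ((g : Equiv.Perm QB) ⊥)) = ⊥
      rw [← hc, trG_coe, add_neg_cancel, flipF_zero]
    have h2 : g = (trG (-c))⁻¹ * (flipG⁻¹ * (flipG * (trG (-c) * g))) := by group
    calc l g = l ((trG (-c))⁻¹ * (flipG⁻¹ * (flipG * (trG (-c) * g)))) := by rw [← h2]
      _ ≤ l (trG (-c))⁻¹ + l (flipG⁻¹ * (flipG * (trG (-c) * g))) := hmul _ _
      _ ≤ l (trG (-c))⁻¹ + (l flipG⁻¹ + l (flipG * (trG (-c) * g))) := by
          gcongr
          exact hmul _ _
      _ ≤ l flipG + B + B := by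
          rw [hinv, hinv]
          have h3 := hB _ h1
          have h4 := hB (trG (-c)) (trG_bot _)
          linarith

end Pool.Agent.W335
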