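import Mathlib
import Pool.Agent.W335.Circ

/-!
# The automorphism group of the countable dense circular order is not amenable
-/

set_option autoImplicit false

namespace Pool.Agent.W335

open Set Filter Topology MeasureTheory

/-- The conditions satisfied by the linear orders obtained by cutting the circle. -/
def IsCut (R : QB → QB → Bool) : Prop :=
  (∀ a b, a ≠ b → R a b = !R b a) ∧
  ∀ a b c, Cyc a b c → (R a b = true ∧ R b c = true ∧ R c a = false) ∨
    (R a b = true ∧ R b c = false ∧ R c a = true) ∨ (R a b = false ∧ R b c = true ∧ R c a = true)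

/-- The compact space of cuts. -/
def Cut : Type := {R : QB → QB → Bool // IsCut R}

instance : TopologicalSpace Cut := inferInstanceAs (TopologicalSpace {R : QB → QB → Bool // IsCut R})

instance : T2Space Cut := inferInstanceAs (T2Space {R : QB → QB → Bool // IsCut R})

theorem continuous_ev (a b : QB) : Continuous (fun R : QB → QB → Bool => R a b) :=
  (continuous_apply b).comp (continuous_apply a)

theorem isClosed_isCut : IsClosed {R : QB → QB → Bool | IsCut R} := by
  have h1 : {R : QB → QB → Bool | IsCut R} =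
      (⋂ a : QB, ⋂ b : QB, {R | a ≠ b → R a b = !R b a}) ∩
      ⋂ a : QB, ⋂ b : QB, ⋂ c : QB, {R | Cyc a b c →
        (R a b = true ∧ R b c = true ∧ R c a = false) ∨
        (R a b = true ∧ R b c = false ∧ R c a = true) ∨
        (R a b = false ∧ R b c = true ∧ R c a = true)} := by
    ext R
    constructor
    · intro hR
      exact ⟨mem_iInter.2 fun a => mem_iInter.2 fun b => hR.1 a b,
        mem_iInter.2 fun a => mem_iInter.2 fun b => mem_iInter.2 fun c => hR.2 a b c⟩
    · rintro ⟨h1, h2⟩
      exact ⟨fun a b => mem_iInter.1 (mem_iInter.1 h1 a) b,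
        fun a b c => mem_iInter.1 (mem_iInter.1 (mem_iInter.1 h2 a) b) c⟩
  rw [h1]
  refine IsClosed.inter ?_ ?_
  · refine isClosed_iInter fun a => isClosed_iInter fun b => ?_
    have h2 : Continuous (fun R : QB → QB → Bool => (R a b, R b a)) :=
      (continuous_ev a b).prodMk (continuous_ev b a)
    exact (isClosed_discrete ({q : Bool × Bool | a ≠ b → q.1 = !q.2} :
      Set (Bool × Bool))).preimage h2
  · refine isClosed_iInter fun a => isClosed_iInter fun b => isClosed_iInter fun c => ?_
    have h2 : Continuous (fun R : QB → QB → Bool => (R a b, R b c, R c a)) :=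
      (continuous_ev a b).prodMk ((continuous_ev b c).prodMk (continuous_ev c a))
    exact (isClosed_discrete ({q : Bool × Bool × Bool | Cyc a b c →
      (q.1 = true ∧ q.2.1 = true ∧ q.2.2 = false) ∨
      (q.1 = true ∧ q.2.1 = false ∧ q.2.2 = true) ∨
      (q.1 = false ∧ q.2.1 = true ∧ q.2.2 = true)} :
      Set (Bool × Bool × Bool))).preimage h2

instance : CompactSpace Cut :=
  isCompact_iff_compactSpace.1 isClosed_isCut.isCompact

instance : Nonempty Cut := by
  classical
  refine ⟨⟨fun a b => decide (a < b), ?_, ?_⟩⟩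
  · intro a b hab
    rcases lt_or_gt_of_ne hab with h | h
    · simp [h, h.le.not_gt]
    · simp [h, h.le.not_gt]
  · intro a b c habc
    simp only [decide_eq_true_eq, decide_eq_false_iff_not]
    rcases habc with h | h | h
    · exact Or.inl ⟨h.1, h.2, (h.1.trans h.2).le.not_gt⟩
    · exact Or.inr (Or.inr ⟨(h.1.trans h.2).le.not_gt, h.1, h.2⟩)
    · exact Or.inr (Or.inl ⟨h.2, (h.1.trans h.2).le.not_gt, h.1⟩)

instance : MulAction circAut Cut where
  smul g R := ⟨fun a b => R.1 ((g : Equiv.Perm QB)⁻¹ a) ((g : Equiv.Perm QB)⁻¹ b), by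
    refine ⟨fun a b hab => R.2.1 _ _ fun h => hab (((g : Equiv.Perm QB)⁻¹).injective h),
      fun a b c habc => R.2.2 _ _ _ ?_⟩
    have h := g⁻¹.2 a b c
    exact h.2 habc⟩
  one_smul R := by
    apply Subtype.ext
    rfl
  mul_smul g h R := by
    apply Subtype.ext
    funext a b
    show R.1 (((g * h : circAut) : Equiv.Perm QB)⁻¹ a) (((g * h : circAut) : Equiv.Perm QB)⁻¹ b) =
      R.1 ((h : Equiv.Perm QB)⁻¹ ((g : Equiv.Perm QB)⁻¹ a))
        ((h : Equiv.Perm QB)⁻¹ ((g : Equiv.Perm QB)⁻¹ b))
    rw [Subgroup.coe_mul, mul_inv_rev]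
    rfl

theorem cut_smul (g : circAut) (R : Cut) (a b : QB) :
    (g • R).1 a b = R.1 ((g : Equiv.Perm QB)⁻¹ a) ((g : Equiv.Perm QB)⁻¹ b) := rfl

theorem cut_smul' (g : circAut) (R : Cut) (a b : QB) :
    (g • R).1 ((g : Equiv.Perm QB) a) ((g : Equiv.Perm QB) b) = R.1 a b := by
  have e : ∀ x, (g : Equiv.Perm QB)⁻¹ ((g : Equiv.Perm QB) x) = x :=
    fun x => (g : Equiv.Perm QB).symm_apply_apply x
  rw [cut_smul, e, e]

instance circTop : TopologicalSpace circAut := permTop circAut

theorem cut_continuousSMul : ContinuousSMul circAut Cut := by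
  refine ⟨?_⟩
  refine Continuous.subtype_mk ?_ _
  refine continuous_pi fun a => continuous_pi fun b => ?_
  have h1 : Continuous (fun p : circAut × Cut =>
      ((p.2.1, (⟨(p.1 : Equiv.Perm QB)⁻¹ a⟩ : Disc QB), (⟨(p.1 : Equiv.Perm QB)⁻¹ b⟩ : Disc QB)) :
        (QB → QB → Bool) × Disc QB × Disc QB)) :=
    (continuous_subtype_val.comp continuous_snd).prodMk
      (((continuous_pap_inv circAut a).comp continuous_fst).prodMk
        ((continuous_pap_inv circAut b).comp continuous_fst))
  have h2 : Continuous (fun q : (QB → QB → Bool) × Disc QB × Disc QB => q.1 q.2.1.pt q.2.2.pt) := by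
    rw [continuous_iff_continuousAt]
    rintro ⟨R, x, y⟩
    have h3 : (fun q : (QB → QB → Bool) × Disc QB × Disc QB => q.1 q.2.1.pt q.2.2.pt) =ᶠ[𝓝 (R, x, y)]
        fun q => q.1 x.pt y.pt := by
      have h4 : ∀ᶠ q : (QB → QB → Bool) × Disc QB × Disc QB in 𝓝 (R, x, y), q.2 = (x, y) := by
        have h5 : ContinuousAt (fun q : (QB → QB → Bool) × Disc QB × Disc QB => q.2) (R, x, y) :=
          continuous_snd.continuousAt
        rw [ContinuousAt, nhds_discrete (Disc QB × Disc QB), tendsto_pure] at h5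
        exact h5
      filter_upwards [h4] with q hq
      rw [hq]
    exact ((continuous_ev x.pt y.pt).comp continuous_fst).continuousAt.congr h3.symm
  exact h2.comp h1

/-- the rotation `∞ → 0 → -1 → ∞` -/
def rotG : circAut := flipG * trG 1

theorem rotG_bot : ((rotG : circAut) : Equiv.Perm QB) ⊥ = ((0 : ℚ) : QB) := rfl

theorem rotG_zero : ((rotG : circAut) : Equiv.Perm QB) ((0 : ℚ) : QB) = ((-1 : ℚ) : QB) := by
  show flipF (((trG 1 : circAut) : Equiv.Perm QB) ((0 : ℚ) : QB)) = _
  rw [trG_coe, flipF_coe (by norm_num)]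
  norm_num

theorem rotG_neg_one : ((rotG : circAut) : Equiv.Perm QB) ((-1 : ℚ) : QB) = ⊥ := by
  show flipF (((trG 1 : circAut) : Equiv.Perm QB) ((-1 : ℚ) : QB)) = _
  rw [trG_coe, show (-1 : ℚ) + 1 = 0 by norm_num, flipF_zero]

/-- No Borel probability measure on the space of cuts is invariant. -/
theorem no_invariant (μ : @Measure Cut (borel Cut)) (hμ : @IsProbabilityMeasure Cut (borel Cut) μ)
    (hinv : ∀ g : circAut, @Measure.map Cut Cut (borel Cut) (borel Cut) (fun R => g • R) μ = μ) :
    False := by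
  let _ : MeasurableSpace Cut := borel Cut
  have : BorelSpace Cut := ⟨rfl⟩
  have := cut_continuousSMul
  let f : QB → QB → Cut → ℝ := fun a b R => if R.1 a b = true then 1 else 0
  have hf : ∀ a b, Continuous (f a b) := by
    intro a b
    have h1 : Continuous (fun R : Cut => R.1 a b) := (continuous_ev a b).comp continuous_subtype_val
    exact (continuous_of_discreteTopology (f := fun t : Bool => if t = true then (1 : ℝ) else 0)).comp
      h1
  have hint : ∀ a b, Integrable (f a b) μ := by
    intro a b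
    refine Integrable.of_bound (hf a b).aestronglyMeasurable 1 (Filter.Eventually.of_forall ?_)
    intro R
    show ‖(if R.1 a b = true then (1 : ℝ) else 0)‖ ≤ 1
    split_ifs <;> simp
  have hmeas : ∀ g : circAut, Measurable (fun R : Cut => g • R) := fun g =>
    (continuous_const_smul g).measurable
  let m : QB → QB → ℝ := fun a b => ∫ R, f a b R ∂μ
  have hm : ∀ (g : circAut) (a b : QB),
      m ((g : Equiv.Perm QB) a) ((g : Equiv.Perm QB) b) = m a b := by
    intro g a b
    show ∫ R, f _ _ R ∂μ = ∫ R, f a b R ∂μ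
    conv_lhs => rw [← hinv g]
    rw [integral_map (hmeas g).aemeasurable (hf _ _).aestronglyMeasurable]
    congr 1
    funext R
    show (if (g • R).1 _ _ = true then (1 : ℝ) else 0) = if R.1 a b = true then 1 else 0
    rw [cut_smul']
  have hone : ∀ c : ℝ, ∫ _ : Cut, c ∂μ = c := by
    intro c
    rw [integral_const, probReal_univ, one_smul]
  have hsum2 : ∀ a b, a ≠ b → m a b + m b a = 1 := by
    intro a b hab
    show ∫ R, f a b R ∂μ + ∫ R, f b a R ∂μ = 1
    rw [← integral_add (hint a b) (hint b a)]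
    have h1 : ∀ R : Cut, f a b R + f b a R = 1 := by
      intro R
      show (if R.1 a b = true then (1 : ℝ) else 0) + (if R.1 b a = true then 1 else 0) = 1
      rw [R.2.1 a b hab]
      cases R.1 b a <;> simp
    simp only [h1]
    exact hone 1
  have hsum3 : ∀ a b c, Cyc a b c → m a b + m b c + m c a = 2 := by
    intro a b c habc
    show ∫ R, f a b R ∂μ + ∫ R, f b c R ∂μ + ∫ R, f c a R ∂μ = 2
    rw [← integral_add (hint a b) (hint b c),
      ← integral_add (f := fun R => f a b R + f b c R) ((hint a b).add (hint b c)) (hint c a)]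
    have h1 : ∀ R : Cut, f a b R + f b c R + f c a R = 2 := by
      intro R
      show (if R.1 a b = true then (1 : ℝ) else 0) + (if R.1 b c = true then 1 else 0) +
        (if R.1 c a = true then 1 else 0) = 2
      rcases R.2.2 a b c habc with h | h | h <;> rw [h.1, h.2.1, h.2.2] <;> norm_num
    simp only [h1]
    exact hone 2
  have e1 := hm rotG ⊥ ((-1 : ℚ) : QB)
  rw [rotG_bot, rotG_neg_one] at e1
  have e2 := hm rotG ((-1 : ℚ) : QB) ((0 : ℚ) : QB)
  rw [rotG_neg_one, rotG_zero] at e2
  have e3 := hm (trG 1) ⊥ ((-1 : ℚ) : QB)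
  rw [trG_bot, trG_coe, show (-1 : ℚ) + 1 = 0 by norm_num] at e3
  have e4 := hsum2 ⊥ ((0 : ℚ) : QB) (WithBot.bot_ne_coe)
  have e5 := hsum3 ⊥ ((-1 : ℚ) : QB) ((0 : ℚ) : QB)
    (Or.inl ⟨WithBot.bot_lt_coe _, WithBot.coe_lt_coe.2 (by norm_num)⟩)
  linarith

end Pool.Agent.W335
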