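import Mathlib
import Pool.Agent.W335.PermTop

/-!
# Permutation representation on `ℓ²(Y)`
-/

set_option autoImplicit false

namespace Pool.Agent.W335

open Set Filter Topology
open scoped ENNReal

/-- The Hilbert space `ℓ²(Y)`. -/
abbrev L2 (Y : Type) : Type := lp (fun _ : Y => ℝ) 2

variable {Y : Type}

/-- The action of a permutation. -/
noncomputable def permFun (σ : Equiv.Perm Y) (f : L2 Y) : L2 Y :=
  ⟨fun y => f (σ⁻¹ y), by
    have h := (lp.memℓp f).summable (by norm_num)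
    exact memℓp_gen (((σ⁻¹ : Equiv.Perm Y).summable_iff (f := fun y => ‖f y‖ ^ (2 : ℝ≥0∞).toReal)).2
      h)⟩

theorem permFun_apply (σ : Equiv.Perm Y) (f : L2 Y) (y : Y) : permFun σ f y = f (σ⁻¹ y) := rfl

theorem permFun_mul (σ τ : Equiv.Perm Y) (f : L2 Y) :
    permFun (σ * τ) f = permFun σ (permFun τ f) := by
  apply lp.ext
  funext y
  show f ((σ * τ)⁻¹ y) = f (τ⁻¹ (σ⁻¹ y))
  rw [mul_inv_rev]
  rfl

theorem permFun_one (f : L2 Y) : permFun 1 f = f := rfl

theorem permFun_norm (σ : Equiv.Perm Y) (f : L2 Y) : ‖permFun σ f‖ = ‖f‖ := by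
  rw [lp.norm_eq_tsum_rpow (by norm_num), lp.norm_eq_tsum_rpow (by norm_num)]
  congr 1
  exact (σ⁻¹ : Equiv.Perm Y).tsum_eq (fun y => ‖f y‖ ^ (2 : ℝ≥0∞).toReal)

/-- The permutation representation. -/
noncomputable def permL (σ : Equiv.Perm Y) : L2 Y ≃ₗᵢ[ℝ] L2 Y where
  toFun := permFun σ
  invFun := permFun σ⁻¹
  map_add' f g := rfl
  map_smul' c f := rfl
  left_inv f := by rw [← permFun_mul, inv_mul_cancel, permFun_one]
  right_inv f := by rw [← permFun_mul, mul_inv_cancel, permFun_one]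
  norm_map' f := permFun_norm σ f

theorem permL_apply (σ : Equiv.Perm Y) (f : L2 Y) (y : Y) : permL σ f y = f (σ⁻¹ y) := rfl

theorem permL_mul (σ τ : Equiv.Perm Y) (f : L2 Y) : permL (σ * τ) f = permL σ (permL τ f) :=
  permFun_mul σ τ f

theorem permL_one (f : L2 Y) : permL 1 f = f := rfl

theorem permL_single [DecidableEq Y] (σ : Equiv.Perm Y) (y : Y) (a : ℝ) :
    permL σ (lp.single 2 y a) = lp.single 2 (σ y) a := by
  apply lp.ext
  funext z
  rw [permL_apply]
  by_cases hz : z = σ y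
  · subst hz
    have e : σ⁻¹ (σ y) = y := σ.symm_apply_apply y
    rw [e]
    rw [lp.single_apply_self, lp.single_apply_self]
  · rw [lp.single_apply_ne _ _ _ hz, lp.single_apply_ne]
    intro h
    apply hz
    rw [← h]
    exact (σ.apply_symm_apply z).symm

theorem l2_approx [DecidableEq Y] (f : L2 Y) {ε : ℝ} (hε : 0 < ε) :
    ∃ A : Finset Y, ‖f - ∑ y ∈ A, lp.single 2 y (f y)‖ < ε := by
  have h := lp.hasSum_single (p := 2) (by norm_num) f
  have h1 := (Metric.tendsto_nhds.1 h) ε hε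
  obtain ⟨A, hA⟩ := h1.exists
  refine ⟨A, ?_⟩
  rw [dist_comm, dist_eq_norm] at hA
  exact hA

theorem l2_separable [Countable Y] : TopologicalSpace.SeparableSpace (L2 Y) := by
  classical
  rw [← TopologicalSpace.isSeparable_univ_iff]
  have h1 : closure ((Submodule.span ℝ (Set.range fun y : Y => (lp.single 2 y (1 : ℝ) : L2 Y)) :
      Submodule ℝ (L2 Y)) : Set (L2 Y)) = Set.univ := by
    rw [Set.eq_univ_iff_forall]
    intro f
    rw [Metric.mem_closure_iff]
    intro ε hε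
    obtain ⟨A, hA⟩ := l2_approx f hε
    refine ⟨∑ y ∈ A, lp.single 2 y (f y), ?_, by rw [dist_eq_norm]; exact hA⟩
    refine Submodule.sum_mem _ fun y _ => ?_
    have h2 : (lp.single 2 y (f y) : L2 Y) = f y • lp.single 2 y (1 : ℝ) := by
      rw [← lp.single_smul, smul_eq_mul, mul_one]
    rw [h2]
    exact Submodule.smul_mem _ _ (Submodule.subset_span ⟨y, rfl⟩)
  rw [← h1]
  apply TopologicalSpace.IsSeparable.closure
  apply TopologicalSpace.IsSeparable.span
  exact (Set.countable_range _).isSeparable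

theorem permL_faithful (σ : Equiv.Perm Y) (h : ∀ f : L2 Y, permL σ f = f) : σ = 1 := by
  classical
  ext y
  have h1 := h (lp.single 2 y 1)
  rw [permL_single] at h1
  by_contra hne'
  have hne : σ y ≠ y := hne'
  have h2 : (lp.single 2 (σ y) (1 : ℝ) : L2 Y) (σ y) = (lp.single 2 y (1 : ℝ) : L2 Y) (σ y) := by
    rw [h1]
  rw [lp.single_apply_self, lp.single_apply_ne _ _ _ hne] at h2
  exact one_ne_zero h2

variable (H : Subgroup (Equiv.Perm Y))

theorem permL_continuous :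
    @Continuous (H × L2 Y) (L2 Y) (@instTopologicalSpaceProd _ _ (permTop H) _) _
      (fun p => permL (p.1 : Equiv.Perm Y) p.2) := by
  classical
  let _ := permTop H
  rw [continuous_iff_continuousAt]
  rintro ⟨g, f⟩
  rw [Metric.continuousAt_iff']
  intro ε hε
  obtain ⟨A, hA⟩ := l2_approx f (show 0 < ε / 4 by positivity)
  set s : L2 Y := ∑ y ∈ A, lp.single 2 y (f y) with hs
  have h1 : ∀ᶠ h : H in 𝓝 g, ∀ y ∈ A, (h : Equiv.Perm Y) y = (g : Equiv.Perm Y) y := by
    have : {h : H | ∀ y ∈ A, (h : Equiv.Perm Y) y = (g : Equiv.Perm Y) y} ∈ 𝓝 g :=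
      (perm_mem_nhds H g _).2 ⟨A, fun h hh => hh⟩
    exact this
  have h2 : ∀ᶠ f' : L2 Y in 𝓝 f, dist f' f < ε / 4 := Metric.eventually_nhds_iff.2
    ⟨ε / 4, by positivity, fun _ h => h⟩
  have h3 : ∀ᶠ p : H × L2 Y in 𝓝 (g, f), (∀ y ∈ A, (p.1 : Equiv.Perm Y) y = (g : Equiv.Perm Y) y) ∧
      dist p.2 f < ε / 4 := by
    rw [nhds_prod_eq]
    exact (h1.prod_mk h2)
  filter_upwards [h3] with p hp
  have h4 : permL (p.1 : Equiv.Perm Y) s = permL (g : Equiv.Perm Y) s := by
    rw [hs, map_sum, map_sum]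
    refine Finset.sum_congr rfl fun y hy => ?_
    rw [permL_single, permL_single, hp.1 y hy]
  have h5 : permL (p.1 : Equiv.Perm Y) p.2 - permL (g : Equiv.Perm Y) f =
      permL (p.1 : Equiv.Perm Y) (p.2 - f) + permL (p.1 : Equiv.Perm Y) (f - s) -
        permL (g : Equiv.Perm Y) (f - s) := by
    rw [map_sub, map_sub, map_sub, h4]
    abel
  show dist (permL (p.1 : Equiv.Perm Y) p.2) (permL (g : Equiv.Perm Y) f) < ε
  rw [dist_eq_norm, h5]
  calc _ ≤ ‖permL (p.1 : Equiv.Perm Y) (p.2 - f) + permL (p.1 : Equiv.Perm Y) (f - s)‖ +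
        ‖permL (g : Equiv.Perm Y) (f - s)‖ := norm_sub_le _ _
    _ ≤ ‖permL (p.1 : Equiv.Perm Y) (p.2 - f)‖ + ‖permL (p.1 : Equiv.Perm Y) (f - s)‖ +
        ‖permL (g : Equiv.Perm Y) (f - s)‖ := by gcongr; exact norm_add_le _ _
    _ = ‖p.2 - f‖ + ‖f - s‖ + ‖f - s‖ := by
        rw [LinearIsometryEquiv.norm_map, LinearIsometryEquiv.norm_map,
          LinearIsometryEquiv.norm_map]
    _ < ε := by
        have h6 := hp.2
        rw [dist_eq_norm] at h6
        linarith

end Pool.Agent.W335
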