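import Mathlib
import Pool.Agent.W335.L2Perm
import Pool.Agent.W335.CircNA

/-!
# The group `ℓ²(Y) ⋊ Aut(Y, C)`, where `C` is the countable dense circular order
-/

set_option autoImplicit false

namespace Pool.Agent.W335

open Set Filter Topology

/-- The semidirect product, as a type. -/
def SDG : Type := L2 QB × circAut

namespace SDG

/-- The linear action of the automorphism group. -/
noncomputable abbrev pl (k : circAut) : L2 QB ≃ₗᵢ[ℝ] L2 QB := permL (k : Equiv.Perm QB)

theorem pl_mul (k l : circAut) (x : L2 QB) : pl (k * l) x = pl k (pl l x) := permL_mul _ _ _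

theorem pl_one (x : L2 QB) : pl 1 x = x := rfl

theorem pl_inv (k : circAut) (x : L2 QB) : pl k (pl k⁻¹ x) = x := by
  rw [← pl_mul, mul_inv_cancel, pl_one]

theorem pl_inv' (k : circAut) (x : L2 QB) : pl k⁻¹ (pl k x) = x := by
  rw [← pl_mul, inv_mul_cancel, pl_one]

noncomputable instance : Mul SDG := ⟨fun p q => (p.1 + pl p.2 q.1, p.2 * q.2)⟩
noncomputable instance : One SDG := ⟨((0 : L2 QB), (1 : circAut))⟩
noncomputable instance : Inv SDG := ⟨fun p => (-(pl p.2⁻¹ p.1), p.2⁻¹)⟩

theorem mul_def (p q : SDG) : p * q = ((p.1 + pl p.2 q.1, p.2 * q.2) : L2 QB × circAut) := rfl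
theorem one_def : (1 : SDG) = (((0 : L2 QB), (1 : circAut)) : L2 QB × circAut) := rfl
theorem inv_def (p : SDG) : p⁻¹ = ((-(pl p.2⁻¹ p.1), p.2⁻¹) : L2 QB × circAut) := rfl

noncomputable instance : Group SDG := Group.ofLeftAxioms
  (by
    intro a b c
    refine Prod.ext ?_ (mul_assoc _ _ _)
    show (a.1 + pl a.2 b.1) + pl (a.2 * b.2) c.1 = a.1 + pl a.2 (b.1 + pl b.2 c.1)
    rw [pl_mul, map_add, add_assoc])
  (by
    intro a
    refine Prod.ext ?_ (one_mul _)
    show 0 + pl 1 a.1 = a.1
    rw [pl_one, zero_add])
  (by
    intro a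
    refine Prod.ext ?_ (inv_mul_cancel _)
    show -(pl a.2⁻¹ a.1) + pl a.2⁻¹ a.1 = 0
    rw [neg_add_cancel])

noncomputable instance : TopologicalSpace SDG := inferInstanceAs (TopologicalSpace (L2 QB × circAut))

instance circGroup : IsTopologicalGroup circAut := permGroup circAut

theorem pl_continuous : Continuous (fun p : circAut × L2 QB => pl p.1 p.2) :=
  permL_continuous circAut

instance : IsTopologicalGroup SDG where
  continuous_mul := by
    have h1 : Continuous (fun p : (L2 QB × circAut) × (L2 QB × circAut) =>
        ((p.1.1 + pl p.1.2 p.2.1, p.1.2 * p.2.2) : L2 QB × circAut)) := by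
      refine Continuous.prodMk ?_ ?_
      · exact (continuous_fst.comp continuous_fst).add (pl_continuous.comp
          ((continuous_snd.comp continuous_fst).prodMk (continuous_fst.comp continuous_snd)))
      · exact (continuous_snd.comp continuous_fst).mul (continuous_snd.comp continuous_snd)
    exact h1
  continuous_inv := by
    have h1 : Continuous (fun p : (L2 QB × circAut) =>
        ((-(pl p.2⁻¹ p.1), p.2⁻¹) : L2 QB × circAut)) := by
      refine Continuous.prodMk ?_ ?_
      · exact (pl_continuous.comp (continuous_snd.inv.prodMk continuous_fst)).neg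
      · exact continuous_snd.inv
    exact h1

theorem circPolish : PolishSpace circAut := by
  apply permPolish
  intro σ hσ a b c
  obtain ⟨h, hh, h1, h2, h3⟩ := hσ a b c
  rw [← h1, ← h2, ← h3]
  exact hh a b c

instance : PolishSpace SDG := by
  have h1 : PolishSpace circAut := circPolish
  have h2 : TopologicalSpace.SeparableSpace (L2 QB) := l2_separable
  have h3 : SecondCountableTopology (L2 QB) := UniformSpace.secondCountable_of_separable _
  have h4 : PolishSpace (L2 QB) := inferInstance
  exact (inferInstance : PolishSpace (L2 QB × circAut))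

/-- The affine isometric action on `ℓ²`. -/
noncomputable def act : SDG →* (L2 QB ≃ᵃⁱ[ℝ] L2 QB) where
  toFun p := (pl p.2).toAffineIsometryEquiv.trans (AffineIsometryEquiv.constVAdd ℝ (L2 QB) p.1)
  map_one' := by
    ext1 x
    show (0 : L2 QB) + pl 1 x = x
    rw [pl_one, zero_add]
  map_mul' := by
    intro p q
    ext1 x
    show (p.1 + pl p.2 q.1) + pl (p.2 * q.2) x = p.1 + pl p.2 (q.1 + pl q.2 x)
    rw [pl_mul, map_add, add_assoc]

theorem act_apply (p : SDG) (x : L2 QB) : act p x = p.1 + pl p.2 x := rfl

theorem act_zero (p : SDG) : act p 0 = p.1 := by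
  rw [act_apply, map_zero, add_zero]

theorem act_continuous : Continuous (fun p : SDG × L2 QB => act p.1 p.2) := by
  have h1 : Continuous (fun p : (L2 QB × circAut) × L2 QB => p.1.1 + pl p.1.2 p.2) :=
    (continuous_fst.comp continuous_fst).add (pl_continuous.comp
      ((continuous_snd.comp continuous_fst).prodMk continuous_snd))
  exact h1

theorem pl_faithful (k : circAut) (h : ∀ x, pl k x = x) : k = 1 :=
  Subtype.ext (permL_faithful _ h)

theorem act_injective : Function.Injective act := by
  rw [injective_iff_map_eq_one]
  intro p hp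
  have h1 : ∀ x, p.1 + pl p.2 x = x := by
    intro x
    rw [← act_apply, hp]
    rfl
  have h2 : p.1 = 0 := by
    have := h1 0
    rwa [map_zero, add_zero] at this
  refine Prod.ext h2 ?_
  apply pl_faithful
  intro x
  have := h1 x
  rwa [h2, zero_add] at this

/-- The projection. -/
noncomputable def proj : SDG →* circAut where
  toFun p := p.2
  map_one' := rfl
  map_mul' _ _ := rfl

theorem proj_continuous : Continuous proj := by
  have h1 : Continuous (fun p : L2 QB × circAut => p.2) := continuous_snd
  exact h1

/-- The action on the space of cuts. -/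
noncomputable instance : MulAction SDG Cut := MulAction.compHom Cut proj

theorem smul_def (p : SDG) (R : Cut) : p • R = proj p • R := rfl

theorem sdg_continuousSMul : ContinuousSMul SDG Cut := by
  have h1 := cut_continuousSMul.continuous_smul
  have h2 : Continuous (fun p : SDG × Cut => proj p.1 • p.2) :=
    h1.comp ((proj_continuous.comp continuous_fst).prodMk continuous_snd)
  exact ⟨h2⟩

end SDG

end Pool.Agent.W335
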