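import Mathlib
import Pool.Agent.W784.HP.Defs

/-!
Part HP-IND: probability of the event.
-/

set_option autoImplicit false

open MeasureTheory ProbabilityTheory Filter Topology

namespace Pool.Agent.W335.HP

open Pool.Agent.W784.HP

lemma tail_aux (p : ℕ → ℝ) (M : ℕ) (hM : 10 ≤ M) (h1 : ∀ n, M ≤ n → 1 - (1 / 2 : ℝ) ^ n ≤ p n)
    (k : ℕ) : 1 - 2 * (1 / 2 : ℝ) ^ M + 2 * (1 / 2) ^ (M + k) ≤
      ∏ n ∈ Finset.range k, p (M + n) := by
  induction k with
  | zero => simp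
  | succ k ih =>
    rw [Finset.prod_range_succ]
    have h2 := h1 (M + k) (Nat.le_add_right M k)
    set y : ℝ := (1 / 2) ^ (M + k) with hy
    have hy0 : 0 < y := by positivity
    have hyM : y ≤ (1 / 2) ^ M := by
      rw [hy, pow_add]
      have : (1 / 2 : ℝ) ^ k ≤ 1 := pow_le_one₀ (by norm_num) (by norm_num)
      have h3 : (0 : ℝ) < (1 / 2) ^ M := by positivity
      nlinarith
    have hM2 : (1 / 2 : ℝ) ^ M ≤ (1 / 2) ^ 10 := pow_le_pow_of_le_one (by norm_num)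
      (by norm_num) hM
    have hM3 : (1 / 2 : ℝ) ^ M ≤ 1 / 4 := hM2.trans (by norm_num)
    have e : (1 / 2 : ℝ) ^ (M + (k + 1)) = y / 2 := by
      rw [hy, ← add_assoc, pow_succ]
      ring
    rw [e]
    have hX : 0 ≤ 1 - 2 * (1 / 2 : ℝ) ^ M + 2 * y := by linarith
    have hX1 : 1 - 2 * (1 / 2 : ℝ) ^ M + 2 * y ≤ 1 := by linarith
    have hp0 : 0 ≤ 1 - y := by linarith
    calc 1 - 2 * (1 / 2 : ℝ) ^ M + 2 * (y / 2) ≤
        (1 - 2 * (1 / 2 : ℝ) ^ M + 2 * y) * (1 - y) := by nlinarith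
      _ ≤ (∏ n ∈ Finset.range k, p (M + n)) * p (M + k) :=
        mul_le_mul ih h2 hp0 (hX.trans ih)

theorem prob_event {Ω : Type*} [MeasurableSpace Ω] (P : Measure Ω) [IsProbabilityMeasure P]
    (ξ : ℕ → Ω → ℂ) (h : IsGaussianSeq P ξ)
    (hone : ∀ n : ℕ, (∀ δ : ℝ, 0 ≤ δ → δ ≤ 1 →
        Real.exp (-1) * δ ^ 2 ≤ (P {ω | ‖ξ n ω‖ ≤ δ}).toReal) ∧
      (3 * Real.exp (-4) ≤ (P {ω | 1 ≤ ‖ξ n ω‖}).toReal) ∧
      (∀ t : ℝ, 0 ≤ t → (P {ω | t < ‖ξ n ω‖}).toReal ≤ 2 * Real.exp (-(t ^ 2 / 2))))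
    (M N : ℕ) (hM : 10 ≤ M) (hN : N < M) (δ : ℕ → ℝ) (h0 : ∀ n, 0 < δ n) (h1 : ∀ n, δ n ≤ 1) :
    Real.exp (-5) * ∏ n ∈ Finset.range M, (Real.exp (-1) * δ n ^ 2) ≤
      (P {ω | 1 ≤ ‖ξ N ω‖ ∧ (∀ n, n < M → n ≠ N → ‖ξ n ω‖ ≤ δ n) ∧
        ∀ n, M ≤ n → ‖ξ n ω‖ ≤ n}).toReal := by
  set S : ℕ → Set ℂ := fun n => if n = N then {z | 1 ≤ ‖z‖} else
    if n < M then {z | ‖z‖ ≤ δ n} else {z | ‖z‖ ≤ n} with hS
  have hSm : ∀ n, MeasurableSet (S n) := by
    intro n
    rw [hS]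
    dsimp only
    split_ifs
    · exact measurableSet_le measurable_const measurable_norm
    · exact measurableSet_le measurable_norm measurable_const
    · exact measurableSet_le measurable_norm measurable_const
  set A : ℕ → Set Ω := fun L => ⋂ i ∈ Finset.range L, ξ i ⁻¹' S i with hA
  have hAm : ∀ L, MeasurableSet (A L) := fun L =>
    Finset.measurableSet_biInter _ fun i _ => h.measurable i (hSm i)
  have hAnti : Antitone A := by
    intro L L' hL
    exact Set.biInter_subset_biInter_left (Finset.range_mono hL)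
  have hev : {ω | 1 ≤ ‖ξ N ω‖ ∧ (∀ n, n < M → n ≠ N → ‖ξ n ω‖ ≤ δ n) ∧
        ∀ n, M ≤ n → ‖ξ n ω‖ ≤ n} = ⋂ L, A L := by
    ext ω
    simp only [hA, Set.mem_iInter, Finset.mem_range, Set.mem_preimage]
    constructor
    · rintro ⟨h2, h3, h4⟩ L n hn
      rw [hS]
      dsimp only
      split_ifs with h5 h6
      · rw [h5]
        exact h2
      · exact h3 n h6 h5
      · exact h4 n (not_lt.1 h6)
    · intro h2
      have h3 : ∀ n, ξ n ω ∈ S n := fun n => h2 (n + 1) n (Nat.lt_succ_self n)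
      refine ⟨?_, ?_, ?_⟩
      · have := h3 N
        rw [hS] at this
        dsimp only at this
        rw [if_pos rfl] at this
        exact this
      · intro n hn hnN
        have := h3 n
        rw [hS] at this
        dsimp only at this
        rw [if_neg hnN, if_pos hn] at this
        exact this
      · intro n hn
        have := h3 n
        rw [hS] at this
        dsimp only at this
        rw [if_neg (by omega), if_neg (by omega)] at this
        exact this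
  have hlim : Tendsto (fun L => (P (A L)).toReal) atTop (𝓝 (P (⋂ L, A L)).toReal) :=
    (ENNReal.tendsto_toReal (measure_ne_top P _)).comp
      (tendsto_measure_iInter_atTop (fun L => (hAm L).nullMeasurableSet) hAnti
        ⟨0, measure_ne_top P _⟩)
  have hprod : ∀ L, (P (A L)).toReal = ∏ n ∈ Finset.range L, (P (ξ n ⁻¹' S n)).toReal := by
    intro L
    rw [hA]
    dsimp only
    rw [h.indep.measure_inter_preimage_eq_mul (Finset.range L) (sets := S) fun i _ => hSm i,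
      ENNReal.toReal_prod]
  rw [hev]
  -- the three kinds of factors
  have f1 : 3 * Real.exp (-4) ≤ (P (ξ N ⁻¹' S N)).toReal := by
    have : ξ N ⁻¹' S N = {ω | 1 ≤ ‖ξ N ω‖} := by
      rw [hS]
      dsimp only
      rw [if_pos rfl]
      rfl
    rw [this]
    exact (hone N).2.1
  have f2 : ∀ n, n < M → n ≠ N → Real.exp (-1) * δ n ^ 2 ≤ (P (ξ n ⁻¹' S n)).toReal := by
    intro n hn hnN
    have : ξ n ⁻¹' S n = {ω | ‖ξ n ω‖ ≤ δ n} := by
      rw [hS]
      dsimp only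
      rw [if_neg hnN, if_pos hn]
      rfl
    rw [this]
    exact (hone n).1 (δ n) (h0 n).le (h1 n)
  have f3 : ∀ n, M ≤ n → 1 - (1 / 2 : ℝ) ^ n ≤ (P (ξ n ⁻¹' S n)).toReal := by
    intro n hn
    have e1 : ξ n ⁻¹' S n = {ω | (n : ℝ) < ‖ξ n ω‖}ᶜ := by
      rw [hS]
      dsimp only
      rw [if_neg (by omega), if_neg (by omega)]
      ext ω
      simp
    have hm : MeasurableSet {ω | (n : ℝ) < ‖ξ n ω‖} :=
      measurableSet_lt measurable_const (h.measurable n).norm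
    rw [e1, prob_compl_eq_one_sub hm, ENNReal.toReal_sub_of_le prob_le_one ENNReal.one_ne_top,
      ENNReal.toReal_one]
    have h2 := (hone n).2.2 n (Nat.cast_nonneg n)
    have h3 : 2 * Real.exp (-((n : ℝ) ^ 2 / 2)) ≤ (1 / 2) ^ n := by
      have hn10 : (10 : ℝ) ≤ n := by exact_mod_cast hM.trans hn
      have h4 : Real.exp (-((n : ℝ) ^ 2 / 2)) ≤ Real.exp (n * (-5)) :=
        Real.exp_le_exp.2 (by nlinarith)
      have h5 : Real.exp (n * (-5)) = Real.exp (-5) ^ n := Real.exp_nat_mul (-5) n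
      have h6 : Real.exp (-5) ≤ 1 / 4 := by
        rw [Real.exp_neg]
        have h7 := Real.add_one_le_exp (5 : ℝ)
        rw [inv_eq_one_div]
        exact one_div_le_one_div_of_le (by norm_num) (by linarith)
      have h7 : Real.exp (-5) ^ n ≤ (1 / 4) ^ n := pow_le_pow_left₀ (Real.exp_pos _).le h6 n
      have h8 : (1 / 4 : ℝ) ^ n = (1 / 2) ^ n * (1 / 2) ^ n := by
        rw [← mul_pow]
        norm_num
      have h9 : (1 / 2 : ℝ) ^ n ≤ 1 / 2 := by
        calc (1 / 2 : ℝ) ^ n ≤ (1 / 2) ^ 1 := pow_le_pow_of_le_one (by norm_num) (by norm_num)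
              (by omega)
          _ = 1 / 2 := pow_one _
      have h10 : (0 : ℝ) < (1 / 2) ^ n := by positivity
      calc 2 * Real.exp (-((n : ℝ) ^ 2 / 2)) ≤ 2 * ((1 / 2) ^ n * (1 / 2) ^ n) := by
            rw [← h8]
            linarith [h4.trans (h5 ▸ h7)]
        _ ≤ (1 / 2) ^ n := by nlinarith
    linarith
  have g1 : 3 * Real.exp (-4) * ∏ n ∈ Finset.range M, (Real.exp (-1) * δ n ^ 2) ≤
      ∏ n ∈ Finset.range M, (P (ξ n ⁻¹' S n)).toReal := by
    have hNM : N ∈ Finset.range M := Finset.mem_range.2 hN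
    rw [← Finset.mul_prod_erase _ (fun n => (P (ξ n ⁻¹' S n)).toReal) hNM,
      ← Finset.mul_prod_erase _ (fun n => Real.exp (-1) * δ n ^ 2) hNM]
    have h2 : ∏ n ∈ (Finset.range M).erase N, (Real.exp (-1) * δ n ^ 2) ≤
        ∏ n ∈ (Finset.range M).erase N, (P (ξ n ⁻¹' S n)).toReal := by
      refine Finset.prod_le_prod (fun n _ => by positivity) fun n hn => ?_
      exact f2 n (Finset.mem_range.1 (Finset.mem_of_mem_erase hn)) (Finset.ne_of_mem_erase hn)
    have h3 : 0 ≤ ∏ n ∈ (Finset.range M).erase N, (Real.exp (-1) * δ n ^ 2) :=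
      Finset.prod_nonneg fun n _ => by positivity
    have h4 : Real.exp (-1) * δ N ^ 2 ≤ 1 := by
      have h5 : Real.exp (-1) ≤ 1 := Real.exp_le_one_iff.2 (by norm_num)
      have h6 : δ N ^ 2 ≤ 1 := pow_le_one₀ (h0 N).le (h1 N)
      exact mul_le_one₀ h5 (by positivity) h6
    calc 3 * Real.exp (-4) * (Real.exp (-1) * δ N ^ 2 *
          ∏ n ∈ (Finset.range M).erase N, (Real.exp (-1) * δ n ^ 2))
        ≤ 3 * Real.exp (-4) * (1 *
          ∏ n ∈ (Finset.range M).erase N, (Real.exp (-1) * δ n ^ 2)) := by gcongr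
      _ ≤ (P (ξ N ⁻¹' S N)).toReal *
          ∏ n ∈ (Finset.range M).erase N, (P (ξ n ⁻¹' S n)).toReal := by
        rw [one_mul]
        exact mul_le_mul f1 h2 h3 ENNReal.toReal_nonneg
  have g2 : ∀ k, 1 / 2 ≤ ∏ n ∈ Finset.range k, (P (ξ (M + n) ⁻¹' S (M + n))).toReal := by
    intro k
    refine le_trans ?_ (tail_aux (fun n => (P (ξ n ⁻¹' S n)).toReal) M hM f3 k)
    have hM2 : (1 / 2 : ℝ) ^ M ≤ (1 / 2) ^ 10 := pow_le_pow_of_le_one (by norm_num)
      (by norm_num) hM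
    have hM3 : (1 / 2 : ℝ) ^ M ≤ 1 / 4 := hM2.trans (by norm_num)
    have : (0 : ℝ) < (1 / 2) ^ (M + k) := by positivity
    linarith
  refine ge_of_tendsto hlim ?_
  filter_upwards [eventually_ge_atTop M] with L hL
  obtain ⟨k, rfl⟩ := Nat.exists_eq_add_of_le hL
  rw [hprod, Finset.prod_range_add]
  have h2 : 0 ≤ ∏ n ∈ Finset.range M, (Real.exp (-1) * δ n ^ 2) :=
    Finset.prod_nonneg fun n _ => by positivity
  have h3 : Real.exp (-5) ≤ 3 * Real.exp (-4) * (1 / 2) := by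
    have : Real.exp (-5) = Real.exp (-4) * Real.exp (-1) := by
      rw [← Real.exp_add]
      norm_num
    rw [this]
    have h5 : Real.exp (-1) ≤ 1 := Real.exp_le_one_iff.2 (by norm_num)
    nlinarith [Real.exp_pos (-4)]
  calc Real.exp (-5) * ∏ n ∈ Finset.range M, (Real.exp (-1) * δ n ^ 2)
      ≤ (3 * Real.exp (-4) * (1 / 2)) * ∏ n ∈ Finset.range M, (Real.exp (-1) * δ n ^ 2) :=
        mul_le_mul_of_nonneg_right h3 h2
    _ = (3 * Real.exp (-4) * ∏ n ∈ Finset.range M, (Real.exp (-1) * δ n ^ 2)) * (1 / 2) := by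
        ring
    _ ≤ _ := mul_le_mul g1 (g2 k) (by norm_num)
        (Finset.prod_nonneg fun n _ => ENNReal.toReal_nonneg)

end Pool.Agent.W335.HP
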