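import Pool.Agent.W784.RR.Defs
import Pool.Agent.Helper88.RB.P_PX_asymp
import Pool.Agent.Helper88.RB.P_PX_cont_off

set_option autoImplicit false
open MeasureTheory Set Filter Topology
open scoped ENNReal NNReal

namespace Pool.W335.RRFlat

open Pool.Agent.Helper88.RB Pool.Agent.W784.RR

/-! ### one-variable substitutions -/

theorem sq_subst {a b : ℝ} (ha : 0 ≤ a) (hab : a < b) (g : ℝ → ℝ≥0∞) :
    ∫⁻ s in Ioo (a ^ 2) (b ^ 2), g s = ∫⁻ r in Ioo a b, ENNReal.ofReal (2 * r) * g (r ^ 2) := by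
  have himg : (fun r : ℝ => r ^ 2) '' Ioo a b = Ioo (a ^ 2) (b ^ 2) := by
    ext s
    constructor
    · rintro ⟨r, ⟨h1, h2⟩, rfl⟩
      exact ⟨by nlinarith, by nlinarith⟩
    · rintro ⟨h1, h2⟩
      refine ⟨Real.sqrt s, ⟨?_, ?_⟩, Real.sq_sqrt (by nlinarith)⟩
      · exact Real.lt_sqrt_of_sq_lt h1
      · rw [Real.sqrt_lt' (by linarith)]
        exact h2
  rw [← himg, lintegral_image_eq_lintegral_abs_deriv_mul measurableSet_Ioo
    (f' := fun r => 2 * r)]
  · apply setLIntegral_congr_fun measurableSet_Ioo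
    intro r hr
    simp only
    rw [abs_of_pos (by have := hr.1; linarith)]
  · intro r _
    have := (hasDerivAt_pow 2 r).hasDerivWithinAt (s := Ioo a b)
    simpa using this
  · intro x hx y hy hxy
    have h1 : 0 < x := lt_of_le_of_lt ha hx.1
    have h2 : 0 < y := lt_of_le_of_lt ha hy.1
    exact (pow_left_inj₀ h1.le h2.le two_ne_zero).1 hxy

theorem refl_subst {A B : ℝ} (g : ℝ → ℝ≥0∞) :
    ∫⁻ s in Ioo A B, g s = ∫⁻ s in Ioo A B, g (A + B - s) := by
  have himg : (fun r : ℝ => A + B - r) '' Ioo A B = Ioo A B := by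
    rw [Set.image_const_sub_Ioo]
    congr 1 <;> ring
  conv_lhs => rw [← himg]
  rw [lintegral_image_eq_lintegral_abs_deriv_mul measurableSet_Ioo
    (f' := fun r => -1)]
  · simp
  · intro r _
    exact ((hasDerivAt_id r).const_sub (A + B)).hasDerivWithinAt
  · intro x hx y hy hxy
    simp only at hxy
    linarith

theorem aff_subst {A L : ℝ} (hL : 0 < L) (g : ℝ → ℝ≥0∞) :
    ∫⁻ s in Ioo A (A + L), g s = ∫⁻ u in Ioo (0:ℝ) 1, ENNReal.ofReal L * g (A + L * u) := by
  have himg : (fun r : ℝ => A + L * r) '' Ioo 0 1 = Ioo A (A + L) := by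
    ext s
    constructor
    · rintro ⟨r, ⟨h1, h2⟩, rfl⟩
      exact ⟨by nlinarith, by nlinarith⟩
    · rintro ⟨h1, h2⟩
      refine ⟨(s - A) / L, ⟨?_, ?_⟩, ?_⟩
      · apply div_pos <;> linarith
      · rw [div_lt_one hL]; linarith
      · simp only
        field_simp
        ring
  conv_lhs => rw [← himg]
  rw [lintegral_image_eq_lintegral_abs_deriv_mul measurableSet_Ioo
    (f' := fun r => L)]
  · simp only [abs_of_pos hL]
  · intro r _
    have := ((hasDerivAt_id r).const_mul L).const_add A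
    simpa using this.hasDerivWithinAt
  · intro x hx y hy hxy
    simp only at hxy
    exact mul_left_cancel₀ hL.ne' (by linarith)

theorem scale_subst {t b : ℝ} (ht : 0 < t) (g : ℝ → ℝ≥0∞) :
    ∫⁻ s in Ioo 0 b, g s = ∫⁻ u in Ioo (0:ℝ) (b / t), ENNReal.ofReal t * g (t * u) := by
  have himg : (fun r : ℝ => t * r) '' Ioo 0 (b / t) = Ioo 0 b := by
    ext s
    constructor
    · rintro ⟨r, ⟨h1, h2⟩, rfl⟩
      refine ⟨by positivity, ?_⟩
      rw [lt_div_iff₀ ht] at h2
      simp only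
      linarith
    · rintro ⟨h1, h2⟩
      refine ⟨s / t, ⟨by positivity, ?_⟩, ?_⟩
      · exact div_lt_div_of_pos_right h2 ht
      · simp only
        field_simp
  conv_lhs => rw [← himg]
  rw [lintegral_image_eq_lintegral_abs_deriv_mul measurableSet_Ioo
    (f' := fun r => t)]
  · simp only [abs_of_pos ht]
  · intro r _
    have := ((hasDerivAt_id r).const_mul t)
    simpa using this.hasDerivWithinAt
  · intro x hx y hy hxy
    exact mul_left_cancel₀ ht.ne' hxy

/-- `∫_a^R r (R²-r²)^(σ-1) dr = ∫_a^R r (r²-a²)^(σ-1) dr` -/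
theorem swap_int {a R : ℝ} (ha : 0 ≤ a) (hR : a < R) (p : ℝ) :
    ∫⁻ r in Ioo a R, ENNReal.ofReal (r * (R ^ 2 - r ^ 2) ^ p) =
      ∫⁻ r in Ioo a R, ENNReal.ofReal (r * (r ^ 2 - a ^ 2) ^ p) := by
  have h1 := sq_subst ha hR (fun s => ENNReal.ofReal ((R ^ 2 - s) ^ p / 2))
  have h2 := sq_subst ha hR (fun s => ENNReal.ofReal ((s - a ^ 2) ^ p / 2))
  have h3 := refl_subst (A := a ^ 2) (B := R ^ 2) (fun s => ENNReal.ofReal ((R ^ 2 - s) ^ p / 2))
  have e1 : ∫⁻ r in Ioo a R, ENNReal.ofReal (r * (R ^ 2 - r ^ 2) ^ p) =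
      ∫⁻ r in Ioo a R, ENNReal.ofReal (2 * r) * ENNReal.ofReal ((R ^ 2 - r ^ 2) ^ p / 2) := by
    apply setLIntegral_congr_fun measurableSet_Ioo
    intro r hr
    have h0 : 0 < r := lt_of_le_of_lt ha hr.1
    simp only
    rw [← ENNReal.ofReal_mul (by linarith)]
    congr 1
    ring
  have e2 : ∫⁻ r in Ioo a R, ENNReal.ofReal (r * (r ^ 2 - a ^ 2) ^ p) =
      ∫⁻ r in Ioo a R, ENNReal.ofReal (2 * r) * ENNReal.ofReal ((r ^ 2 - a ^ 2) ^ p / 2) := by
    apply setLIntegral_congr_fun measurableSet_Ioo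
    intro r hr
    have h0 : 0 < r := lt_of_le_of_lt ha hr.1
    simp only
    rw [← ENNReal.ofReal_mul (by linarith)]
    congr 1
    ring
  rw [e1, e2, ← h1, ← h2, h3]
  apply setLIntegral_congr_fun measurableSet_Ioo
  intro s _
  simp only
  congr 3
  ring

/-- the Abel constant -/
noncomputable def kap (σ : ℝ) : ℝ≥0∞ :=
  ∫⁻ u in Ioo (0:ℝ) 1, ENNReal.ofReal ((1 - u) ^ (σ - 1) * u ^ (-σ) / 2)

theorem abel {a R : ℝ} (ha : 0 ≤ a) (hR : a < R) (σ : ℝ) :
    ∫⁻ r in Ioo a R, ENNReal.ofReal (r * (R ^ 2 - r ^ 2) ^ (σ - 1)) *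
      ENNReal.ofReal ((r ^ 2 - a ^ 2) ^ (-σ)) = kap σ := by
  have hL : 0 < R ^ 2 - a ^ 2 := by nlinarith
  have h1 := sq_subst ha hR
    (fun s => ENNReal.ofReal ((R ^ 2 - s) ^ (σ - 1) * (s - a ^ 2) ^ (-σ) / 2))
  have e1 : ∫⁻ r in Ioo a R, ENNReal.ofReal (r * (R ^ 2 - r ^ 2) ^ (σ - 1)) *
      ENNReal.ofReal ((r ^ 2 - a ^ 2) ^ (-σ)) =
      ∫⁻ r in Ioo a R, ENNReal.ofReal (2 * r) *
        ENNReal.ofReal ((R ^ 2 - r ^ 2) ^ (σ - 1) * (r ^ 2 - a ^ 2) ^ (-σ) / 2) := by
    apply setLIntegral_congr_fun measurableSet_Ioo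
    intro r hr
    have h0 : 0 < r := lt_of_le_of_lt ha hr.1
    have h2 : 0 ≤ R ^ 2 - r ^ 2 := by nlinarith [hr.2]
    simp only
    rw [← ENNReal.ofReal_mul (mul_nonneg h0.le (Real.rpow_nonneg h2 _)),
      ← ENNReal.ofReal_mul (by linarith)]
    congr 1
    ring
  rw [e1, ← h1]
  have h2 := aff_subst (A := a ^ 2) hL
    (fun s => ENNReal.ofReal ((R ^ 2 - s) ^ (σ - 1) * (s - a ^ 2) ^ (-σ) / 2))
  rw [add_sub_cancel] at h2
  rw [h2]
  unfold kap
  apply setLIntegral_congr_fun measurableSet_Ioo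
  intro u hu
  have hu0 : 0 < u := hu.1
  have hu1 : 0 < 1 - u := by linarith [hu.2]
  simp only
  rw [← ENNReal.ofReal_mul hL.le]
  congr 1
  have e2 : R ^ 2 - (a ^ 2 + (R ^ 2 - a ^ 2) * u) = (R ^ 2 - a ^ 2) * (1 - u) := by ring
  have e3 : a ^ 2 + (R ^ 2 - a ^ 2) * u - a ^ 2 = (R ^ 2 - a ^ 2) * u := by ring
  rw [e2, e3, Real.mul_rpow hL.le hu1.le, Real.mul_rpow hL.le hu0.le]
  set L := R ^ 2 - a ^ 2
  have e4 : L * (L ^ (σ - 1) * L ^ (-σ)) = 1 := by
    rw [← Real.rpow_add hL]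
    nth_rw 1 [← Real.rpow_one L]
    rw [← Real.rpow_add hL]
    have : 1 + (σ - 1 + -σ) = 0 := by ring
    rw [this, Real.rpow_zero]
  calc L * (L ^ (σ - 1) * (1 - u) ^ (σ - 1) * (L ^ (-σ) * u ^ (-σ)) / 2)
      = (L * (L ^ (σ - 1) * L ^ (-σ))) * ((1 - u) ^ (σ - 1) * u ^ (-σ) / 2) := by ring
    _ = _ := by rw [e4, one_mul]

/-! ### polar coordinates for radial functions -/

/-- total mass of the sphere -/
noncomputable def Cn (n : ℕ) : ℝ≥0∞ := (volume : Measure (E n)).toSphere univ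

theorem polar_rad {n : ℕ} (hn : 1 ≤ n) {f : ℝ → ℝ≥0∞} (hf : Measurable f) :
    ∫⁻ x : E n, f ‖x‖ = Cn n * ∫⁻ r in Ioi (0:ℝ), ENNReal.ofReal (r ^ (n - 1)) * f r := by
  have hfr : Module.finrank ℝ (E n) = n := by simp
  have hnt : Nontrivial (E n) := by
    apply Module.nontrivial_of_finrank_pos (R := ℝ)
    rw [hfr]; exact hn
  have h0 : ∫⁻ x : E n, f ‖x‖ = ∫⁻ x in ({(0 : E n)}ᶜ : Set (E n)), f ‖x‖ := by
    rw [← lintegral_add_compl (fun x : E n => f ‖x‖) (measurableSet_singleton (0 : E n))]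
    have : ∫⁻ x in ({(0 : E n)} : Set (E n)), f ‖x‖ = 0 :=
      setLIntegral_measure_zero _ _ (measure_singleton _)
    rw [this, zero_add]
  have h1 : ∫⁻ x in ({(0 : E n)}ᶜ : Set (E n)), f ‖x‖ =
      ∫⁻ x : ({(0 : E n)}ᶜ : Set (E n)), f ‖(x : E n)‖ ∂((volume : Measure (E n)).comap (↑)) := by
    rw [← lintegral_subtype_comap (measurableSet_singleton (0 : E n)).compl]
  have h2 := (Measure.measurePreserving_homeomorphUnitSphereProd
    (volume : Measure (E n))).lintegral_comp (f := fun p => f (p.2 : ℝ))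
    (hf.comp (measurable_subtype_coe.comp measurable_snd))
  simp only [homeomorphUnitSphereProd_apply_snd_coe] at h2
  have h3 : ∫⁻ p, f (p.2 : ℝ) ∂((volume : Measure (E n)).toSphere.prod
      (Measure.volumeIoiPow (Module.finrank ℝ (E n) - 1))) = Cn n *
      ∫⁻ r : Ioi (0:ℝ), f r ∂(Measure.volumeIoiPow (Module.finrank ℝ (E n) - 1)) := by
    have hm : Measurable (fun p : Metric.sphere (0 : E n) 1 × Ioi (0:ℝ) => f (p.2 : ℝ)) :=
      hf.comp (measurable_subtype_coe.comp measurable_snd)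
    rw [lintegral_prod _ hm.aemeasurable]
    simp only [lintegral_const]
    rw [mul_comm]
    rfl
  rw [h0, h1, h2, h3]
  congr 1
  rw [Measure.volumeIoiPow, lintegral_withDensity_eq_lintegral_mul]
  · have h4 := lintegral_subtype_comap (μ := (volume : Measure ℝ)) (measurableSet_Ioi (a := (0:ℝ)))
      (fun r => ENNReal.ofReal (r ^ (n - 1)) * f r)
    rw [hfr, ← h4]
    rfl
  · fun_prop
  · exact hf.comp measurable_subtype_coe

theorem Cn_ne_top (n : ℕ) : Cn n ≠ ∞ := measure_ne_top _ _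

theorem Cn_ne_zero {n : ℕ} (hn : 1 ≤ n) : Cn n ≠ 0 := by
  have hfr : Module.finrank ℝ (E n) = n := by simp
  unfold Cn
  rw [Measure.toSphere_apply_univ, hfr]
  refine mul_ne_zero (by exact_mod_cast (by omega : n ≠ 0)) ?_
  exact (Metric.measure_ball_pos volume 0 one_pos).ne'

theorem polar_ball {n : ℕ} (hn : 1 ≤ n) {f : ℝ → ℝ≥0∞} (hf : Measurable f) (R : ℝ) :
    ∫⁻ x in Metric.ball (0 : E n) R, f ‖x‖ =
      Cn n * ∫⁻ r in Ioo (0:ℝ) R, ENNReal.ofReal (r ^ (n - 1)) * f r := by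
  have h1 := polar_rad hn (f := (Iio R).indicator f) (hf.indicator measurableSet_Iio)
  have h2 : ∫⁻ x in Metric.ball (0 : E n) R, f ‖x‖ = ∫⁻ x : E n, (Iio R).indicator f ‖x‖ := by
    rw [← lintegral_indicator measurableSet_ball]
    apply lintegral_congr
    intro x
    simp [indicator, Metric.mem_ball]
  have h3 : ∫⁻ r in Ioi (0:ℝ), ENNReal.ofReal (r ^ (n - 1)) * (Iio R).indicator f r =
      ∫⁻ r in Ioo (0:ℝ) R, ENNReal.ofReal (r ^ (n - 1)) * f r := by
    have : ∀ r : ℝ, ENNReal.ofReal (r ^ (n - 1)) * (Iio R).indicator f r =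
        (Iio R).indicator (fun r => ENNReal.ofReal (r ^ (n - 1)) * f r) r := by
      intro r
      by_cases h : r < R
      · simp [indicator, h]
      · simp [indicator, h]
    simp only [this]
    rw [lintegral_indicator measurableSet_Iio, Measure.restrict_restrict measurableSet_Iio]
    congr 2
    ext r
    simp [and_comm]
  rw [h2, h1, h3]

/-! ### the densities -/

/-- the density of radius `r` -/
noncomputable def dr (n : ℕ) (q r : ℝ) (w : E n) : ℝ≥0∞ :=
  if ‖w‖ < r then ENNReal.ofReal ((r ^ 2 - ‖w‖ ^ 2) ^ (-(((n : ℝ) - q) / 2))) else 0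

/-- the kernel -/
noncomputable def kk {n : ℕ} (q : ℝ) (z w : E n) : ℝ≥0∞ := (ENNReal.ofReal (dist z w)) ^ (-q)

theorem dr_one (n : ℕ) (q : ℝ) : dr n q 1 = dens n q := by
  funext w
  simp [dr, dens]

theorem dr_meas (n : ℕ) (q : ℝ) : Measurable (Function.uncurry (dr n q)) := by
  unfold dr Function.uncurry
  apply Measurable.ite
  · exact measurableSet_lt (measurable_snd.norm) measurable_fst
  · apply ENNReal.measurable_ofReal.comp
    apply Measurable.pow_const
    exact (measurable_fst.pow_const 2).sub (measurable_snd.norm.pow_const 2)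
  · exact measurable_const

theorem dr_meas' (n : ℕ) (q r : ℝ) : Measurable (dr n q r) :=
  (dr_meas n q).of_uncurry_left

theorem dr_meas'' (n : ℕ) (q : ℝ) (z : E n) : Measurable (fun r => dr n q r z) :=
  (dr_meas n q).of_uncurry_right

theorem dens_meas (n : ℕ) (q : ℝ) : Measurable (dens n q) := by
  rw [← dr_one]; exact dr_meas' n q 1

theorem kk_meas {n : ℕ} (q : ℝ) : Measurable (Function.uncurry (kk (n := n) q)) := by
  unfold kk Function.uncurry
  exact (ENNReal.measurable_ofReal.comp (measurable_fst.dist measurable_snd)).pow_const _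

theorem kk_meas' {n : ℕ} (q : ℝ) (z : E n) : Measurable (kk q z) := (kk_meas q).of_uncurry_left

theorem kk_comm {n : ℕ} (q : ℝ) (z w : E n) : kk q z w = kk q w z := by
  unfold kk; rw [dist_comm]

theorem scale_lint {n : ℕ} {r : ℝ} (hr : 0 < r) {f : E n → ℝ≥0∞} (hf : Measurable f) :
    ENNReal.ofReal (r ^ n) * ∫⁻ w, f (r • w) = ∫⁻ w, f w := by
  have h1 := Measure.map_addHaar_smul (volume : Measure (E n)) hr.ne'
  have h2 : ∫⁻ w, f (r • w) = ∫⁻ w, f w ∂(Measure.map (fun w : E n => r • w) volume) := by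
    rw [lintegral_map hf (measurable_const_smul r)]
  have hfr : Module.finrank ℝ (E n) = n := by simp
  rw [h2, h1, lintegral_smul_measure, hfr, abs_of_pos (by positivity), smul_eq_mul, ← mul_assoc,
    ← ENNReal.ofReal_mul (by positivity), mul_inv_cancel₀ (by positivity), ENNReal.ofReal_one,
    one_mul]

theorem dr_scale (n : ℕ) (q : ℝ) {r : ℝ} (hr : 0 < r) (w : E n) :
    dr n q r (r • w) = ENNReal.ofReal (r ^ (q - n)) * dens n q w := by
  unfold dr dens
  rw [norm_smul, Real.norm_of_nonneg hr.le]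
  by_cases h : ‖w‖ < 1
  · rw [if_pos (by nlinarith), if_pos h, ← ENNReal.ofReal_mul (by positivity)]
    congr 1
    have h1 : r ^ 2 - (r * ‖w‖) ^ 2 = r ^ 2 * (1 - ‖w‖ ^ 2) := by ring
    have h2 : 0 ≤ 1 - ‖w‖ ^ 2 := by nlinarith [norm_nonneg w]
    rw [h1, Real.mul_rpow (by positivity) h2]
    congr 1
    rw [← Real.rpow_natCast r 2, ← Real.rpow_mul hr.le]
    congr 1
    push_cast
    ring
  · rw [if_neg (by rw [not_lt] at h ⊢; nlinarith), if_neg h, mul_zero]

theorem kk_scale {n : ℕ} (q : ℝ) {r : ℝ} (hr : 0 < r) (z w : E n) :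
    kk q z (r • w) = ENNReal.ofReal (r ^ (-q)) * kk q (r⁻¹ • z) w := by
  unfold kk
  have h : dist z (r • w) = r * dist (r⁻¹ • z) w := by
    rw [dist_eq_norm, dist_eq_norm]
    have : z - r • w = r • (r⁻¹ • z - w) := by
      rw [smul_sub, smul_inv_smul₀ hr.ne']
    rw [this, norm_smul, Real.norm_of_nonneg hr.le]
  rw [h, ENNReal.ofReal_mul hr.le,
    ENNReal.mul_rpow_of_ne_top ENNReal.ofReal_ne_top ENNReal.ofReal_ne_top,
    ENNReal.ofReal_rpow_of_pos hr]

theorem claimB (n : ℕ) (q : ℝ) {r : ℝ} (hr : 0 < r) :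
    ∫⁻ w, dr n q r w = ENNReal.ofReal (r ^ q) * ∫⁻ w, dens n q w := by
  rw [← scale_lint hr (dr_meas' n q r)]
  simp only [dr_scale n q hr]
  rw [lintegral_const_mul _ (dens_meas n q), ← mul_assoc, ← ENNReal.ofReal_mul (by positivity)]
  congr 2
  rw [← Real.rpow_natCast, ← Real.rpow_add hr]
  congr 1
  ring

theorem claimA (n : ℕ) (q : ℝ) {k0 : ℝ≥0∞}
    (hin : ∀ x : E n, ‖x‖ < 1 → ∫⁻ w, dens n q w * kk q x w = k0) {r : ℝ} (hr : 0 < r)
    (z : E n) (hz : ‖z‖ < r) : ∫⁻ w, dr n q r w * kk q z w = k0 := by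
  have hm : Measurable (fun w => dr n q r w * kk q z w) :=
    (dr_meas' n q r).mul (kk_meas' q z)
  have hm2 : Measurable (fun w => dens n q w * kk q (r⁻¹ • z) w) :=
    (dens_meas n q).mul (kk_meas' q _)
  rw [← scale_lint hr hm]
  have h1 : ∀ w : E n, dr n q r (r • w) * kk q z (r • w) =
      ENNReal.ofReal (r ^ (q - n) * r ^ (-q)) * (dens n q w * kk q (r⁻¹ • z) w) := by
    intro w
    rw [dr_scale n q hr, kk_scale q hr, ENNReal.ofReal_mul (by positivity)]
    ring
  simp only [h1]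
  rw [lintegral_const_mul _ hm2, hin, ← mul_assoc, ← ENNReal.ofReal_mul (by positivity)]
  · have : r ^ n * (r ^ (q - n) * r ^ (-q)) = 1 := by
      rw [← Real.rpow_natCast, ← Real.rpow_add hr, ← Real.rpow_add hr]
      have : (n : ℝ) + (q - n + -q) = 0 := by ring
      rw [this, Real.rpow_zero]
    rw [this, ENNReal.ofReal_one, one_mul]
  · rw [norm_smul, norm_inv, Real.norm_of_nonneg hr.le, inv_mul_lt_iff₀ hr, mul_one]
    exact hz

theorem cut {a R : ℝ} (ha : 0 ≤ a) (g : ℝ → ℝ≥0∞) :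
    ∫⁻ r in Ioo 0 R, (if a < r then g r else 0) = ∫⁻ r in Ioo a R, g r := by
  have : (fun r => if a < r then g r else 0) = (Ioi a).indicator g := by
    funext r
    simp [indicator]
  rw [this, lintegral_indicator measurableSet_Ioi, Measure.restrict_restrict measurableSet_Ioi]
  congr 2
  ext r
  simp only [mem_inter_iff, mem_Ioi, mem_Ioo]
  constructor
  · rintro ⟨h1, h2, h3⟩
    exact ⟨h1, h3⟩
  · rintro ⟨h1, h2⟩
    exact ⟨h1, by linarith, h2⟩

theorem claimC (n : ℕ) (q : ℝ) (R : ℝ) (z : E n) :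
    ∫⁻ r in Ioo 0 R, ENNReal.ofReal (r * (R ^ 2 - r ^ 2) ^ (((n : ℝ) - q) / 2 - 1)) *
      dr n q r z = (Metric.ball (0 : E n) R).indicator (fun _ => kap (((n : ℝ) - q) / 2)) z := by
  have h1 : ∀ r : ℝ, ENNReal.ofReal (r * (R ^ 2 - r ^ 2) ^ (((n : ℝ) - q) / 2 - 1)) *
      dr n q r z = if ‖z‖ < r then ENNReal.ofReal (r * (R ^ 2 - r ^ 2) ^ (((n : ℝ) - q) / 2 - 1)) *
        ENNReal.ofReal ((r ^ 2 - ‖z‖ ^ 2) ^ (-(((n : ℝ) - q) / 2))) else 0 := by
    intro r
    unfold dr
    split_ifs <;> simp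
  simp only [h1]
  rw [cut (norm_nonneg z)]
  by_cases hz : ‖z‖ < R
  · rw [abel (norm_nonneg z) hz, indicator_of_mem (by simpa using hz)]
  · rw [indicator_of_notMem (by simpa using hz), Ioo_eq_empty (by simpa using hz)]
    simp

/-- the potential of the density -/
noncomputable def J (n : ℕ) (q : ℝ) (z : E n) : ℝ≥0∞ := ∫⁻ w, dens n q w * kk q z w

theorem J_meas (n : ℕ) (q : ℝ) : Measurable (J n q) := by
  unfold J
  apply Measurable.lintegral_prod_right (f := fun z w => dens n q w * kk q z w)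
  exact ((dens_meas n q).comp measurable_snd).mul (kk_meas q)

theorem J_eq (n : ℕ) (q : ℝ) (z : E n) : J n q z = ∫⁻ w, dens n q w * kk q z w := rfl

theorem kk_def {n : ℕ} (q : ℝ) (z w : E n) : kk q z w = (ENNReal.ofReal (dist z w)) ^ (-q) := rfl

attribute [local irreducible] dr kk J dens

theorem S_val (n : ℕ) (q : ℝ) {k0 : ℝ≥0∞}
    (hin : ∀ x : E n, ‖x‖ < 1 → ∫⁻ w, dens n q w * kk q x w = k0) {r : ℝ} (hr : 0 < r) :
    ∫⁻ z, J n q z * dr n q r z =
      k0 * (∫⁻ w, dens n q w) * ENNReal.ofReal (min 1 r ^ q) := by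
  rcases lt_or_ge r 1 with h | h
  · have h1 : ∀ z : E n, J n q z * dr n q r z = k0 * dr n q r z := by
      intro z
      by_cases hz : ‖z‖ < r
      · rw [J_eq, hin z (by linarith)]
      · simp [dr, hz]
    simp only [h1]
    rw [lintegral_const_mul _ (dr_meas' n q r), claimB n q hr, min_eq_right h.le]
    ring
  · have h1 : ∫⁻ z, J n q z * dr n q r z =
        ∫⁻ z, ∫⁻ w, dens n q w * kk q z w * dr n q r z := by
      apply lintegral_congr
      intro z
      rw [J_eq, lintegral_mul_const]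
      exact (dens_meas n q).mul (kk_meas' q z)
    have hm : Measurable (Function.uncurry fun z w : E n =>
        dens n q w * kk q z w * dr n q r z) :=
      (((dens_meas n q).comp measurable_snd).mul (kk_meas q)).mul
        ((dr_meas' n q r).comp measurable_fst)
    rw [h1, lintegral_lintegral_swap hm.aemeasurable]
    have h2 : ∀ w : E n, ∫⁻ z, dens n q w * kk q z w * dr n q r z = k0 * dens n q w := by
      intro w
      by_cases hw : ‖w‖ < 1
      · have h3 : ∀ z : E n, dens n q w * kk q z w * dr n q r z =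
            dens n q w * (dr n q r z * kk q w z) := by
          intro z
          rw [kk_comm q z w]
          ring
        simp only [h3]
        rw [lintegral_const_mul, claimA n q hin hr w (by linarith), mul_comm]
        exact (dr_meas' n q r).mul (kk_meas' q w)
      · have h3 : dens n q w = 0 := by simp [dens, hw]
        simp [h3]
    simp only [h2]
    rw [lintegral_const_mul _ (dens_meas n q), min_eq_left h, Real.one_rpow, ENNReal.ofReal_one,
      mul_one]

theorem three (n : ℕ) (q : ℝ) {k0 : ℝ≥0∞}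
    (hin : ∀ x : E n, ‖x‖ < 1 → ∫⁻ w, dens n q w * kk q x w = k0) (R : ℝ) :
    k0 * (∫⁻ w, dens n q w) * ∫⁻ r in Ioo 0 R,
      ENNReal.ofReal (r * (R ^ 2 - r ^ 2) ^ (((n : ℝ) - q) / 2 - 1)) *
        ENNReal.ofReal (min 1 r ^ q) =
    kap (((n : ℝ) - q) / 2) * ∫⁻ z in Metric.ball (0 : E n) R, J n q z := by
  have hA : Measurable (fun r : ℝ =>
      ENNReal.ofReal (r * (R ^ 2 - r ^ 2) ^ (((n : ℝ) - q) / 2 - 1))) := by
    apply ENNReal.measurable_ofReal.comp
    apply measurable_id.mul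
    exact (measurable_const.sub (measurable_id.pow_const 2)).pow_const _
  have h1 : k0 * (∫⁻ w, dens n q w) * ∫⁻ r in Ioo 0 R,
      ENNReal.ofReal (r * (R ^ 2 - r ^ 2) ^ (((n : ℝ) - q) / 2 - 1)) *
        ENNReal.ofReal (min 1 r ^ q) =
      ∫⁻ r in Ioo 0 R, ∫⁻ z, J n q z *
        (ENNReal.ofReal (r * (R ^ 2 - r ^ 2) ^ (((n : ℝ) - q) / 2 - 1)) * dr n q r z) := by
    rw [← lintegral_const_mul]
    · apply setLIntegral_congr_fun measurableSet_Ioo
      intro r hr
      simp only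
      have h2 : ∀ z : E n, J n q z *
          (ENNReal.ofReal (r * (R ^ 2 - r ^ 2) ^ (((n : ℝ) - q) / 2 - 1)) * dr n q r z) =
          ENNReal.ofReal (r * (R ^ 2 - r ^ 2) ^ (((n : ℝ) - q) / 2 - 1)) *
            (J n q z * dr n q r z) := by
        intro z; ring
      simp only [h2]
      have h5 : Measurable (fun z => J n q z * dr n q r z) := (J_meas n q).mul (dr_meas' n q r)
      rw [lintegral_const_mul _ h5, S_val n q hin hr.1]
      ring
    · exact hA.mul (ENNReal.measurable_ofReal.comp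
        ((measurable_const.min measurable_id).pow_const _))
  rw [h1, lintegral_lintegral_swap]
  · have h3 : ∀ z : E n, ∫⁻ r in Ioo 0 R, J n q z *
        (ENNReal.ofReal (r * (R ^ 2 - r ^ 2) ^ (((n : ℝ) - q) / 2 - 1)) * dr n q r z) =
        (Metric.ball (0 : E n) R).indicator (fun z => kap (((n : ℝ) - q) / 2) * J n q z) z := by
      intro z
      rw [lintegral_const_mul, claimC]
      · simp only [indicator]
        split_ifs
        · rw [mul_comm]
        · simp
      · exact hA.mul (dr_meas'' n q z)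
    simp only [h3]
    rw [lintegral_indicator measurableSet_ball, lintegral_const_mul _ (J_meas n q)]
  · apply Measurable.aemeasurable
    exact ((J_meas n q).comp measurable_snd).mul ((hA.comp measurable_fst).mul (dr_meas n q))

theorem cut2 {b r : ℝ} (g : ℝ → ℝ≥0∞) :
    ∫⁻ ρ in Ioo 0 b, (if ρ < r then g ρ else 0) = ∫⁻ ρ in Ioo 0 (min b r), g ρ := by
  have : (fun ρ => if ρ < r then g ρ else 0) = (Iio r).indicator g := by
    funext r
    simp [indicator]
  rw [this, lintegral_indicator measurableSet_Iio, Measure.restrict_restrict measurableSet_Iio]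
  congr 2
  ext r
  simp only [mem_inter_iff, mem_Iio, mem_Ioo, lt_min_iff]
  tauto

theorem pow_int {q x : ℝ} (hq : 0 < q) (hx : 0 ≤ x) :
    ∫⁻ ρ in Ioo 0 x, ENNReal.ofReal (q * ρ ^ (q - 1)) = ENNReal.ofReal (x ^ q) := by
  have h1 : IntervalIntegrable (fun ρ : ℝ => q * ρ ^ (q - 1)) volume 0 x :=
    (intervalIntegral.intervalIntegrable_rpow' (by linarith)).const_mul q
  have h2 : IntegrableOn (fun ρ : ℝ => q * ρ ^ (q - 1)) (Ioo 0 x) := by
    rw [intervalIntegrable_iff_integrableOn_Ioo_of_le hx] at h1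
    exact h1
  rw [← ofReal_integral_eq_lintegral_ofReal h2, ← integral_Ioc_eq_integral_Ioo,
    ← intervalIntegral.integral_of_le hx, intervalIntegral.integral_const_mul,
    integral_rpow (Or.inl (by linarith))]
  · congr 1
    rw [sub_add_cancel, Real.zero_rpow hq.ne', sub_zero]
    field_simp
  · rw [EventuallyLE, ae_restrict_iff' measurableSet_Ioo]
    refine Eventually.of_forall fun ρ hρ => ?_
    have := hρ.1
    simp only [Pi.zero_apply]
    positivity

theorem wt_int {n : ℕ} {q : ℝ} (hi : IntervalIntegrable (wt n q) volume 0 1) (hB : 0 < Bc n q)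
    {κ : ℝ} (h0 : 0 ≤ κ) :
    ∫⁻ u in Ioo 0 (min κ 1), ENNReal.ofReal (wt n q u) =
      ENNReal.ofReal (Bc n q) * ENNReal.ofReal (Ec n q κ) := by
  have h1 : (0:ℝ) ≤ min κ 1 := le_min h0 zero_le_one
  have h2 : IntegrableOn (wt n q) (Ioo 0 (min κ 1)) := by
    rw [intervalIntegrable_iff_integrableOn_Ioo_of_le zero_le_one] at hi
    exact hi.mono_set (Ioo_subset_Ioo_right (min_le_right _ _))
  rw [← ofReal_integral_eq_lintegral_ofReal h2, ← integral_Ioc_eq_integral_Ioo,
    ← intervalIntegral.integral_of_le h1, ← ENNReal.ofReal_mul hB.le]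
  · congr 1
    unfold Ec
    field_simp
  · rw [EventuallyLE, ae_restrict_iff' measurableSet_Ioo]
    refine Eventually.of_forall fun ρ hρ => ?_
    have h3 := hρ.1
    have h4 : ρ < 1 := hρ.2.trans_le (min_le_right _ _)
    simp only [Pi.zero_apply, wt]
    have h5 : 0 ≤ 1 - ρ ^ 2 := by nlinarith
    exact mul_nonneg (Real.rpow_nonneg h3.le _) (Real.rpow_nonneg h5 _)

theorem four {n : ℕ} {q : ℝ} (hn : 1 ≤ n) (hq : 0 < q)
    (hi : IntervalIntegrable (wt n q) volume 0 1) (hB : 0 < Bc n q) (R : ℝ) :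
    ∫⁻ r in Ioo 0 R, ENNReal.ofReal (r * (R ^ 2 - r ^ 2) ^ (((n : ℝ) - q) / 2 - 1)) *
        ENNReal.ofReal (min 1 r ^ q) =
    ENNReal.ofReal (q * Bc n q) *
      ∫⁻ t in Ioo 0 R, ENNReal.ofReal (t ^ (n - 1)) * ENNReal.ofReal (Ec n q t⁻¹) := by
  set p : ℝ := ((n : ℝ) - q) / 2 - 1 with hp
  have hA : Measurable (fun r : ℝ => ENNReal.ofReal (r * (R ^ 2 - r ^ 2) ^ p)) := by
    apply ENNReal.measurable_ofReal.comp
    apply measurable_id.mul
    exact (measurable_const.sub (measurable_id.pow_const 2)).pow_const _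
  have hP : Measurable (fun ρ : ℝ => ENNReal.ofReal (q * ρ ^ (q - 1))) := by
    apply ENNReal.measurable_ofReal.comp
    exact (measurable_id.pow_const _).const_mul _
  have e1 : ∫⁻ r in Ioo 0 R, ENNReal.ofReal (r * (R ^ 2 - r ^ 2) ^ p) *
        ENNReal.ofReal (min 1 r ^ q) =
      ∫⁻ r in Ioo 0 R, ∫⁻ ρ in Ioo (0:ℝ) 1, ENNReal.ofReal (r * (R ^ 2 - r ^ 2) ^ p) *
        (if ρ < r then ENNReal.ofReal (q * ρ ^ (q - 1)) else 0) := by
    apply setLIntegral_congr_fun measurableSet_Ioo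
    intro r hr
    simp only
    rw [lintegral_const_mul, cut2, pow_int hq (le_min zero_le_one hr.1.le)]
    exact Measurable.ite measurableSet_Iio hP measurable_const
  have hm1 : Measurable (Function.uncurry fun r ρ : ℝ =>
      ENNReal.ofReal (r * (R ^ 2 - r ^ 2) ^ p) *
        (if ρ < r then ENNReal.ofReal (q * ρ ^ (q - 1)) else 0)) := by
    apply Measurable.mul (hA.comp measurable_fst)
    exact Measurable.ite (measurableSet_lt measurable_snd measurable_fst)
      (hP.comp measurable_snd) measurable_const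
  have e2 : ∀ ρ ∈ Ioo (0:ℝ) 1, ∫⁻ r in Ioo 0 R, ENNReal.ofReal (r * (R ^ 2 - r ^ 2) ^ p) *
        (if ρ < r then ENNReal.ofReal (q * ρ ^ (q - 1)) else 0) =
      ∫⁻ t in Ioo 0 R, (if ρ < t then ENNReal.ofReal (q * ρ ^ (q - 1)) *
        ENNReal.ofReal (t * (t ^ 2 - ρ ^ 2) ^ p) else 0) := by
    intro ρ hρ
    have h1 : ∀ r : ℝ, ENNReal.ofReal (r * (R ^ 2 - r ^ 2) ^ p) *
        (if ρ < r then ENNReal.ofReal (q * ρ ^ (q - 1)) else 0) =
        if ρ < r then ENNReal.ofReal (q * ρ ^ (q - 1)) *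
          ENNReal.ofReal (r * (R ^ 2 - r ^ 2) ^ p) else 0 := by
      intro r
      split_ifs
      · rw [mul_comm]
      · simp
    simp only [h1]
    rw [cut hρ.1.le, cut hρ.1.le, lintegral_const_mul _ hA, lintegral_const_mul]
    · congr 1
      rcases lt_or_ge ρ R with h | h
      · exact swap_int hρ.1.le h p
      · rw [Ioo_eq_empty (by simpa using h)]
        simp
    · apply ENNReal.measurable_ofReal.comp
      apply measurable_id.mul
      exact ((measurable_id.pow_const 2).sub measurable_const).pow_const _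
  have hm2 : Measurable (Function.uncurry fun ρ t : ℝ =>
      (if ρ < t then ENNReal.ofReal (q * ρ ^ (q - 1)) *
        ENNReal.ofReal (t * (t ^ 2 - ρ ^ 2) ^ p) else 0)) := by
    apply Measurable.ite (measurableSet_lt measurable_fst measurable_snd) _ measurable_const
    apply Measurable.mul (hP.comp measurable_fst)
    apply ENNReal.measurable_ofReal.comp
    apply measurable_snd.mul
    exact ((measurable_snd.pow_const 2).sub (measurable_fst.pow_const 2)).pow_const _
  rw [e1, lintegral_lintegral_swap hm1.aemeasurable, setLIntegral_congr_fun measurableSet_Ioo e2,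
    lintegral_lintegral_swap hm2.aemeasurable, ← lintegral_const_mul']
  swap
  · exact ENNReal.ofReal_ne_top
  apply setLIntegral_congr_fun measurableSet_Ioo
  intro t ht
  have ht0 : 0 < t := ht.1
  simp only
  rw [cut2, scale_subst ht0]
  have h3 : min 1 t / t = min t⁻¹ 1 := by
    rcases le_total 1 t with h | h
    · rw [min_eq_left h, min_eq_left (inv_le_one_of_one_le₀ h), one_div]
    · rw [min_eq_right h, min_eq_right ((one_le_inv₀ ht0).2 h), div_self ht0.ne']
  rw [h3]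
  have h4 : ∀ u ∈ Ioo 0 (min t⁻¹ 1), ENNReal.ofReal t *
      (ENNReal.ofReal (q * (t * u) ^ (q - 1)) *
        ENNReal.ofReal (t * (t ^ 2 - (t * u) ^ 2) ^ p)) =
      ENNReal.ofReal (q * t ^ (n - 1)) * ENNReal.ofReal (wt n q u) := by
    intro u hu
    have hu0 : 0 < u := hu.1
    have hu1 : u < 1 := hu.2.trans_le (min_le_right _ _)
    have hu2 : 0 ≤ 1 - u ^ 2 := by nlinarith
    have h5 : t ^ 2 - (t * u) ^ 2 = t ^ 2 * (1 - u ^ 2) := by ring
    rw [h5, Real.mul_rpow (by positivity) hu2, Real.mul_rpow ht0.le hu0.le,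
      ← ENNReal.ofReal_mul (by positivity), ← ENNReal.ofReal_mul ht0.le,
      ← ENNReal.ofReal_mul (by positivity)]
    congr 1
    unfold wt
    rw [← hp, ← Real.rpow_natCast t (n - 1)]
    have h6 : (t ^ 2) ^ p = t ^ (2 * p) := by
      rw [← Real.rpow_natCast t 2, ← Real.rpow_mul ht0.le]
      norm_num
    rw [h6]
    have h7 : t * (t ^ (q - 1) * (t * t ^ (2 * p))) = t ^ (((n - 1 : ℕ) : ℝ)) := by
      have : ((n - 1 : ℕ) : ℝ) = 1 + (q - 1 + (1 + 2 * p)) := by
        rw [Nat.cast_sub hn, hp]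
        push_cast
        ring
      rw [this, Real.rpow_add ht0, Real.rpow_add ht0, Real.rpow_add ht0, Real.rpow_one]
    rw [← h7]
    ring
  rw [setLIntegral_congr_fun measurableSet_Ioo h4, lintegral_const_mul, wt_int hi hB (by positivity),
    ENNReal.ofReal_mul hq.le, ENNReal.ofReal_mul hq.le]
  · ring
  · apply ENNReal.measurable_ofReal.comp
    unfold wt
    exact (measurable_id.pow_const _).mul
      ((measurable_const.sub (measurable_id.pow_const 2)).pow_const _)

/-! ### radiality -/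

theorem J_rad (n : ℕ) (q : ℝ) {z z' : E n} (h : ‖z‖ = ‖z'‖) : J n q z = J n q z' := by
  obtain ⟨L, hL⟩ : ∃ L : E n ≃ₗᵢ[ℝ] E n, L z = z' :=
    ⟨(ℝ ∙ (z - z'))ᗮ.reflection, Submodule.reflection_sub h⟩
  rw [← hL, J_eq, J_eq]
  have h1 := (L.measurePreserving).lintegral_comp (f := fun w => dens n q w * kk q (L z) w)
    ((dens_meas n q).mul (kk_meas' q _))
  rw [← h1]
  apply lintegral_congr
  intro w
  have h2 : dens n q (L w) = dens n q w := by
    unfold dens
    rw [L.norm_map]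
  have h3 : kk q (L z) (L w) = kk q z w := by
    unfold kk
    rw [L.dist_map]
  rw [h2, h3]

/-! ### uniqueness of continuous densities -/

theorem uniq_aux {F G : ℝ → ℝ≥0∞} 
    (hfin : ∀ R : ℝ, ∫⁻ t in Ioo 0 R, G t ≠ ∞)
    (heq : ∀ R : ℝ, ∫⁻ t in Ioo 0 R, F t = ∫⁻ t in Ioo 0 R, G t) {t0 : ℝ} (ht0 : 0 < t0)
    (hFc : ContinuousAt F t0) (hGc : ContinuousAt G t0) (hlt : F t0 < G t0) : False := by
  obtain ⟨c, hc1, hc2⟩ := exists_between hlt
  obtain ⟨c', hc3, hc4⟩ := exists_between hc2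
  have h1 : ∀ᶠ t in 𝓝 t0, F t < c ∧ c' < G t :=
    (hFc.eventually (gt_mem_nhds hc1)).and (hGc.eventually (lt_mem_nhds hc4))
  obtain ⟨ε, hε, hball⟩ := Metric.eventually_nhds_iff.1 h1
  set a := max (t0 / 2) (t0 - ε / 2) with ha
  set b := t0 + ε / 2 with hb
  have ha0 : 0 < a := lt_of_lt_of_le (by linarith) (le_max_left _ _)
  have hat : a < t0 := max_lt (by linarith) (by linarith)
  have hab : a < b := by linarith
  have hin : ∀ t ∈ Ico a b, F t < c ∧ c' < G t := by
    intro t ht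
    apply hball
    rw [Real.dist_eq, abs_lt]
    have := le_max_right (t0 / 2) (t0 - ε / 2)
    constructor
    · linarith [ht.1]
    · linarith [ht.2]
  have hsplit : ∀ H : ℝ → ℝ≥0∞, ∫⁻ t in Ioo 0 b, H t =
      (∫⁻ t in Ioo 0 a, H t) + ∫⁻ t in Ico a b, H t := by
    intro H
    rw [← lintegral_union measurableSet_Ico]
    · rw [Ioo_union_Ico_eq_Ioo ha0 hab.le]
    · rw [Set.disjoint_left]
      intro t h1 h2
      exact absurd h1.2 (not_lt.2 h2.1)
  have h2 := heq b
  rw [hsplit F, hsplit G, heq a, ENNReal.add_right_inj (hfin a)] at h2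
  have hvol : (volume (Ico a b) : ℝ≥0∞) = ENNReal.ofReal (b - a) := Real.volume_Ico
  have h3 : ∫⁻ t in Ico a b, F t ≤ c * ENNReal.ofReal (b - a) := by
    rw [← hvol, ← setLIntegral_const]
    exact setLIntegral_mono measurable_const (fun t ht => (hin t ht).1.le)
  have h4 : c' * ENNReal.ofReal (b - a) ≤ ∫⁻ t in Ico a b, G t := by
    rw [← hvol, ← setLIntegral_const]
    exact setLIntegral_mono' measurableSet_Ico (fun t ht => (hin t ht).2.le)
  have h5 : c * ENNReal.ofReal (b - a) < c' * ENNReal.ofReal (b - a) := by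
    rw [mul_comm c, mul_comm c']
    apply ENNReal.mul_lt_mul_right _ ENNReal.ofReal_ne_top hc3
    simpa using hab
  exact absurd (h4.trans (h2 ▸ h3)) (not_le.2 h5)

theorem uniq {F G : ℝ → ℝ≥0∞}
    (hfin : ∀ R : ℝ, ∫⁻ t in Ioo 0 R, G t ≠ ∞)
    (heq : ∀ R : ℝ, ∫⁻ t in Ioo 0 R, F t = ∫⁻ t in Ioo 0 R, G t) {t0 : ℝ} (ht0 : 0 < t0)
    (hFc : ContinuousAt F t0) (hGc : ContinuousAt G t0) : F t0 = G t0 := by
  rcases lt_trichotomy (F t0) (G t0) with h | h | h
  · exact (uniq_aux hfin heq ht0 hFc hGc h).elim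
  · exact h
  · exact (uniq_aux (fun R => by rw [heq R]; exact hfin R) (fun R => (heq R).symm)
      ht0 hGc hFc h).elim

/-! ### the theorem -/

theorem flat (hcalc : PCalc) (hins : PInside) : PFlat := by
  intro n q hn hq hq2 hqn
  obtain ⟨hB, hi, hE0, hE1, hEc, hEm, hE01, -, -, -, hElim⟩ := hcalc n q hq hqn
  obtain ⟨hk0, hk1, hk⟩ := hins n q hn hq hq2 hqn
  set k0 : ℝ≥0∞ := ∫⁻ w, dens n q w * (ENNReal.ofReal (dist (0 : E n) w)) ^ (-q) with hk0d
  set M : ℝ≥0∞ := ∫⁻ w, dens n q w with hM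
  have hin : ∀ x : E n, ‖x‖ < 1 → ∫⁻ w, dens n q w * kk q x w = k0 := by
    intro x hx
    rw [← hk x hx]
    apply lintegral_congr
    intro w
    rw [kk_def]
  have hfr : Module.finrank ℝ (E n) = n := by simp
  have hnt : Nontrivial (E n) := by
    apply Module.nontrivial_of_finrank_pos (R := ℝ)
    rw [hfr]; exact hn
  -- mass
  have hMle : M ≤ k0 := by
    apply lintegral_mono
    intro w
    by_cases hw : ‖w‖ < 1
    · simp only
      refine le_mul_of_one_le_right zero_le ?_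
      rw [dist_zero_left, ENNReal.rpow_neg, ENNReal.one_le_inv]
      apply ENNReal.rpow_le_one _ hq.le
      rw [← ENNReal.ofReal_one]
      exact ENNReal.ofReal_le_ofReal hw.le
    · have : dens n q w = 0 := by simp [dens, hw]
      simp [this]
  have hM1 : M ≠ ∞ := ne_top_of_le_ne_top hk1 hMle
  have hM0 : M ≠ 0 := by
    intro h0
    rw [hM, lintegral_eq_zero_iff (dens_meas n q)] at h0
    have h1 : Metric.ball (0 : E n) 1 ⊆ {w | ¬ dens n q w = (0 : E n → ℝ≥0∞) w} := by
      intro w hw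
      have hw' : ‖w‖ < 1 := by simpa using hw
      have : dens n q w ≠ 0 := by
        simp only [dens, hw', if_true]
        rw [Ne, ENNReal.ofReal_eq_zero, not_le]
        apply Real.rpow_pos_of_pos
        nlinarith [norm_nonneg w]
      simpa using this
    have h2 := measure_mono_null h1 h0
    exact (Metric.measure_ball_pos volume (0 : E n) one_pos).ne' h2
  -- the measure
  let ω : Measure (E n) := k0⁻¹ • (volume.withDensity (dens n q))
  have hω : ∀ f : E n → ℝ≥0∞, Measurable f → ∫⁻ w, f w ∂ω = k0⁻¹ * ∫⁻ w, dens n q w * f w := by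
    intro f hf
    rw [lintegral_smul_measure, lintegral_withDensity_eq_lintegral_mul _ (dens_meas n q) hf]
    rfl
  have hωu : ω univ = k0⁻¹ * M := by
    have := hω (fun _ => 1) measurable_const
    simpa using this
  have hPE : ∀ z : E n, PE q ω z = k0⁻¹ * J n q z := by
    intro z
    rw [J_eq, ← hω (kk q z) (kk_meas' q z)]
    unfold PE
    apply lintegral_congr
    intro w
    rw [kk_def]
  have hfinω : IsFiniteMeasure ω := by
    constructor
    rw [hωu]
    exact ENNReal.mul_lt_top (ENNReal.inv_lt_top.2 (pos_iff_ne_zero.2 hk0)) hM1.lt_top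
  have hsupp : ω (Metric.closedBall 0 1)ᶜ = 0 := by
    have h1 : (volume.withDensity (dens n q)) (Metric.closedBall (0 : E n) 1)ᶜ = 0 := by
      rw [withDensity_apply _ Metric.isClosed_closedBall.measurableSet.compl]
      rw [setLIntegral_eq_zero_iff Metric.isClosed_closedBall.measurableSet.compl
        (dens_meas n q)]
      refine Eventually.of_forall fun w hw => ?_
      have hw' : ¬ ‖w‖ < 1 := by
        intro h
        exact hw (by simpa using h.le)
      simp [dens, hw']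
    show (k0⁻¹ • (volume.withDensity (dens n q))) _ = 0
    rw [Measure.smul_apply, h1, smul_zero]
  have hinside : ∀ z : E n, ‖z‖ < 1 → PE q ω z = 1 := by
    intro z hz
    rw [hPE, J_eq, hin z hz, ENNReal.inv_mul_cancel hk0 hk1]
  -- radial functions
  obtain ⟨e, he⟩ : ∃ e : E n, ‖e‖ = 1 := exists_norm_eq (E n) zero_le_one
  let Jr : ℝ → ℝ≥0∞ := fun t => J n q (t • e)
  have hJrm : Measurable Jr := by
    apply (J_meas n q).comp
    exact (measurable_id.smul_const e)
  have hJr : ∀ z : E n, J n q z = Jr ‖z‖ := by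
    intro z
    apply J_rad
    rw [norm_smul, he, mul_one, norm_norm]
  -- the integrated identity
  have hkey : ∀ R : ℝ, k0 * M * (ENNReal.ofReal (q * Bc n q) *
      ∫⁻ t in Ioo 0 R, ENNReal.ofReal (t ^ (n - 1)) * ENNReal.ofReal (Ec n q t⁻¹)) =
      kap (((n : ℝ) - q) / 2) * (Cn n * ∫⁻ t in Ioo (0:ℝ) R, ENNReal.ofReal (t ^ (n - 1)) * Jr t) := by
    intro R
    rw [← four hn hq hi hB R, ← polar_ball hn hJrm R, three n q hin R]
    congr 1
    apply lintegral_congr
    intro z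
    exact hJr z
  set D : ℝ≥0∞ := ∫⁻ t in Ioo (0:ℝ) 1, ENNReal.ofReal (t ^ (n - 1)) with hD
  have hfinR : ∀ R : ℝ, ∫⁻ t in Ioo (0:ℝ) R, ENNReal.ofReal (t ^ (n - 1)) ≠ ∞ := by
    intro R
    have h1 : ∫⁻ t in Ioo (0:ℝ) R, ENNReal.ofReal (t ^ (n - 1)) ≤
        ∫⁻ t in Ioo (0:ℝ) R, ENNReal.ofReal (R ^ (n - 1)) := by
      apply setLIntegral_mono measurable_const
      intro t ht
      apply ENNReal.ofReal_le_ofReal
      exact pow_le_pow_left₀ ht.1.le ht.2.le _
    refine ne_top_of_le_ne_top ?_ h1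
    rw [setLIntegral_const, Real.volume_Ioo]
    exact ENNReal.mul_ne_top ENNReal.ofReal_ne_top ENNReal.ofReal_ne_top
  have hD1 : D ≠ ∞ := hfinR 1
  have hD0 : D ≠ 0 := by
    have h1 : ENNReal.ofReal ((1 / 2 : ℝ) ^ (n - 1)) * volume (Ioo (1 / 2 : ℝ) 1) ≤ D := by
      rw [← setLIntegral_const]
      refine (setLIntegral_mono' measurableSet_Ioo ?_).trans
        (lintegral_mono_set (Ioo_subset_Ioo_left (by norm_num)))
      intro t ht
      apply ENNReal.ofReal_le_ofReal
      exact pow_le_pow_left₀ (by norm_num) ht.1.le _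
    intro h0
    rw [h0, Real.volume_Ioo, nonpos_iff_eq_zero, mul_eq_zero] at h1
    rcases h1 with h1 | h1
    · rw [ENNReal.ofReal_eq_zero] at h1
      have : (0:ℝ) < (1 / 2) ^ (n - 1) := by positivity
      linarith
    · norm_num at h1
  have hqB : ENNReal.ofReal (q * Bc n q) ≠ 0 := by
    rw [Ne, ENNReal.ofReal_eq_zero, not_le]; positivity
  have hΛ : M * ENNReal.ofReal (q * Bc n q) = kap (((n : ℝ) - q) / 2) * Cn n := by
    have h1 := hkey 1
    have h2 : ∫⁻ t in Ioo (0:ℝ) 1, ENNReal.ofReal (t ^ (n - 1)) * ENNReal.ofReal (Ec n q t⁻¹) = D := by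
      apply setLIntegral_congr_fun measurableSet_Ioo
      intro t ht
      simp only
      rw [hE1 t⁻¹ ((one_le_inv₀ ht.1).2 ht.2.le), ENNReal.ofReal_one, mul_one]
    have h3 : ∫⁻ t in Ioo (0:ℝ) 1, ENNReal.ofReal (t ^ (n - 1)) * Jr t = D * k0 := by
      rw [hD, ← lintegral_mul_const' _ _ hk1]
      apply setLIntegral_congr_fun measurableSet_Ioo
      intro t ht
      simp only
      congr 1
      show J n q (t • e) = k0
      rw [J_eq, hin]
      rw [norm_smul, he, mul_one, Real.norm_of_nonneg ht.1.le]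
      exact ht.2
    rw [h2, h3] at h1
    have hDk0 : D * k0 ≠ 0 := mul_ne_zero hD0 hk0
    have hDk1 : D * k0 ≠ ∞ := ENNReal.mul_ne_top hD1 hk1
    have h4 : (M * ENNReal.ofReal (q * Bc n q)) * (D * k0) =
        (kap (((n : ℝ) - q) / 2) * Cn n) * (D * k0) := by
      calc (M * ENNReal.ofReal (q * Bc n q)) * (D * k0)
          = k0 * M * (ENNReal.ofReal (q * Bc n q) * D) := by ring
        _ = _ := h1
        _ = _ := by ring
    exact (ENNReal.mul_left_inj hDk0 hDk1).1 h4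
  have hΛ0 : M * ENNReal.ofReal (q * Bc n q) ≠ 0 := mul_ne_zero hM0 hqB
  have hΛ1 : M * ENNReal.ofReal (q * Bc n q) ≠ ∞ := ENNReal.mul_ne_top hM1 ENNReal.ofReal_ne_top
  have hkey2 : ∀ R : ℝ, ∫⁻ t in Ioo (0:ℝ) R, ENNReal.ofReal (t ^ (n - 1)) * (k0⁻¹ * Jr t) =
      ∫⁻ t in Ioo 0 R, ENNReal.ofReal (t ^ (n - 1)) * ENNReal.ofReal (Ec n q t⁻¹) := by
    intro R
    have h1 := hkey R
    rw [← mul_assoc (kap _), ← hΛ] at h1
    have h2 : (M * ENNReal.ofReal (q * Bc n q)) * (k0 *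
        ∫⁻ t in Ioo 0 R, ENNReal.ofReal (t ^ (n - 1)) * ENNReal.ofReal (Ec n q t⁻¹)) =
        (M * ENNReal.ofReal (q * Bc n q)) *
          ∫⁻ t in Ioo (0:ℝ) R, ENNReal.ofReal (t ^ (n - 1)) * Jr t := by
      rw [← h1]; ring
    have h3 := (ENNReal.mul_right_inj hΛ0 hΛ1).1 h2
    have h4 : ∫⁻ t in Ioo (0:ℝ) R, ENNReal.ofReal (t ^ (n - 1)) * (k0⁻¹ * Jr t) =
        k0⁻¹ * ∫⁻ t in Ioo (0:ℝ) R, ENNReal.ofReal (t ^ (n - 1)) * Jr t := by
      rw [← lintegral_const_mul' _ _ (ENNReal.inv_ne_top.2 hk0)]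
      apply lintegral_congr
      intro t
      ring
    rw [h4, ← h3, ← mul_assoc, ENNReal.inv_mul_cancel hk0 hk1, one_mul]
  -- pointwise
  have hVr : ∀ t : ℝ, 1 < t → PE q ω (t • e) = ENNReal.ofReal (Ec n q t⁻¹) := by
    intro t ht
    have ht0 : 0 < t := by linarith
    have hpow : ContinuousAt (fun t : ℝ => ENNReal.ofReal (t ^ (n - 1))) t :=
      (ENNReal.continuous_ofReal.comp (continuous_pow _)).continuousAt
    have hpne : ENNReal.ofReal (t ^ (n - 1)) ≠ 0 := by
      rw [Ne, ENNReal.ofReal_eq_zero, not_le]; positivity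
    have hVc : ContinuousAt (fun t : ℝ => k0⁻¹ * Jr t) t := by
      have h1 := PX_cont_off hq (T := Metric.closedBall (0 : E n) 1) Metric.isClosed_closedBall
        (μ := ω) hsupp (t • e) 0 (Or.inl (by
          simp only [Metric.mem_closedBall, dist_zero_right, not_le]
          rw [norm_smul, he, mul_one, Real.norm_of_nonneg ht0.le]
          exact ht))
      have h2 : ContinuousAt (fun t : ℝ => (t • e, (0:ℝ))) t := by fun_prop
      have h3 : ContinuousAt ((fun p : E n × ℝ => PX q ω p.1 p.2) ∘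
          (fun t : ℝ => (t • e, (0:ℝ)))) t := ContinuousAt.comp h1 h2
      have h4 : (fun t : ℝ => k0⁻¹ * Jr t) = ((fun p : E n × ℝ => PX q ω p.1 p.2) ∘
          (fun t : ℝ => (t • e, (0:ℝ)))) := by
        funext t
        show k0⁻¹ * J n q (t • e) = PX q ω (t • e) 0
        rw [← hPE]
        unfold PE PX
        apply lintegral_congr
        intro w
        rw [zero_pow two_ne_zero, add_zero, Real.sqrt_sq (norm_nonneg _), dist_eq_norm]
      rw [h4]
      exact h3
    have hWc : ContinuousAt (fun t : ℝ => ENNReal.ofReal (Ec n q t⁻¹)) t := by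
      apply ENNReal.continuous_ofReal.continuousAt.comp
      have h1 : ContinuousAt (Ec n q) t⁻¹ := by
        apply hEc.continuousAt
        exact Ici_mem_nhds (by positivity)
      exact ContinuousAt.comp h1 (continuousAt_inv₀ ht0.ne')
    have hfin : ∀ R : ℝ, ∫⁻ t in Ioo 0 R,
        ENNReal.ofReal (t ^ (n - 1)) * ENNReal.ofReal (Ec n q t⁻¹) ≠ ∞ := by
      intro R
      refine ne_top_of_le_ne_top (hfinR R) ?_
      apply setLIntegral_mono' measurableSet_Ioo
      intro s hs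
      have hs0 : 0 < s := hs.1
      have h1 : Ec n q s⁻¹ ≤ 1 := (hE01 s⁻¹ (by positivity)).2
      calc ENNReal.ofReal (s ^ (n - 1)) * ENNReal.ofReal (Ec n q s⁻¹)
          ≤ ENNReal.ofReal (s ^ (n - 1)) * 1 := by
            gcongr
            rw [← ENNReal.ofReal_one]
            exact ENNReal.ofReal_le_ofReal h1
        _ = _ := mul_one _
    have h5 := uniq hfin hkey2 ht0 (ENNReal.Tendsto.mul hpow (Or.inl hpne) hVc (Or.inr ENNReal.ofReal_ne_top))
      (ENNReal.Tendsto.mul hpow (Or.inl hpne) hWc (Or.inr ENNReal.ofReal_ne_top))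
    have h6 := (ENNReal.mul_right_inj hpne ENNReal.ofReal_ne_top).1 h5
    rw [hPE]
    exact h6
  have hout : ∀ z : E n, 1 < ‖z‖ → PE q ω z = ENNReal.ofReal (Ec n q ‖z‖⁻¹) := by
    intro z hz
    rw [← hVr ‖z‖ hz, hPE, hPE, hJr z]
  refine ⟨ω, hfinω, hsupp, hinside, hout, ?_⟩
  have h1 := PX_asymp hq (isCompact_closedBall (0 : E n) 1) (μ := ω) hsupp e he
  have h2 : Tendsto (fun r : ℝ => Ec n q r⁻¹ / (r⁻¹) ^ q) atTop (𝓝 (mc n q)) :=
    hElim.comp tendsto_inv_atTop_nhdsGT_zero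
  have h3 : (fun r : ℝ => r ^ q * (PX q ω (r • e) 0).toReal) =ᶠ[atTop]
      (fun r : ℝ => Ec n q r⁻¹ / (r⁻¹) ^ q) := by
    filter_upwards [eventually_gt_atTop 1] with r hr
    have hr0 : 0 < r := by linarith
    have h4 : PX q ω (r • e) 0 = PE q ω (r • e) := by
      unfold PE PX
      apply lintegral_congr
      intro w
      rw [zero_pow two_ne_zero, add_zero, Real.sqrt_sq (norm_nonneg _), dist_eq_norm]
    rw [h4, hVr r hr, ENNReal.toReal_ofReal (hE01 _ (by positivity)).1, Real.inv_rpow hr0.le]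
    field_simp
  have h5 := tendsto_nhds_unique (h1.congr' h3) h2
  rw [← h5, ENNReal.ofReal_toReal (measure_ne_top ω _)]

end Pool.W335.RRFlat
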