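import Pool.Agent.W792.LL.Stm

/-!
The Cayley transform of a Cauchy variable.
-/

set_option autoImplicit false

namespace Pool.Agent.W335.LLCay

open MeasureTheory Filter Topology Pool.Agent.W792.LL

theorem sub_ne (v : ℝ) : (v : ℂ) - Complex.I ≠ 0 := by
  intro h
  have := congrArg Complex.im h
  simp at this

theorem add_ne (v : ℝ) : (v : ℂ) + Complex.I ≠ 0 := by
  intro h
  have := congrArg Complex.im h
  simp at this

theorem one_add_ne (v : ℝ) : (1 : ℝ) + v ^ 2 ≠ 0 := by positivity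

theorem prod_eq (v : ℝ) : ((v : ℂ) - Complex.I) * ((v : ℂ) + Complex.I) = 1 + (v : ℂ) ^ 2 := by
  linear_combination -Complex.I_sq

theorem norm_sub (v : ℝ) : ‖(v : ℂ) - Complex.I‖ ^ 2 = 1 + v ^ 2 := by
  rw [← Complex.normSq_eq_norm_sq, Complex.normSq_apply]
  simp
  ring

theorem norm_add (v : ℝ) : ‖(v : ℂ) + Complex.I‖ ^ 2 = 1 + v ^ 2 := by
  rw [← Complex.normSq_eq_norm_sq, Complex.normSq_apply]
  simp
  ring

theorem norm_cay (v : ℝ) : ‖cay v‖ = 1 := by
  have h : ‖cay v‖ ^ 2 = 1 := by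
    unfold cay
    rw [norm_div, div_pow, norm_sub, norm_add, div_self (one_add_ne v)]
  exact (pow_eq_one_iff_of_nonneg (norm_nonneg _) two_ne_zero).mp h

theorem cont_cay : Continuous cay := by
  unfold cay
  exact (Complex.continuous_ofReal.add continuous_const).div
    (Complex.continuous_ofReal.sub continuous_const) sub_ne

theorem one_sub_cay (v : ℝ) : 1 - cay v = -(2 * Complex.I) / ((v : ℂ) - Complex.I) := by
  unfold cay
  have := sub_ne v
  field_simp
  ring

theorem norm_one_sub (v : ℝ) : ‖1 - cay v‖ ^ 2 = 4 / (1 + v ^ 2) := by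
  rw [one_sub_cay, norm_div, div_pow, norm_sub]
  congr 1
  rw [norm_neg, norm_mul, Complex.norm_I]
  norm_num

theorem cay_re (v : ℝ) : (cay v).re = (v ^ 2 - 1) / (1 + v ^ 2) := by
  have h : cay v = (((v ^ 2 - 1) / (1 + v ^ 2) : ℝ) : ℂ) +
      ((2 * v / (1 + v ^ 2) : ℝ) : ℂ) * Complex.I := by
    unfold cay
    have h1 := sub_ne v
    have h2 : (1 : ℂ) + (v : ℂ) ^ 2 ≠ 0 := by exact_mod_cast one_add_ne v
    rw [div_eq_iff h1]
    push_cast
    field_simp
    linear_combination (2 * (v : ℂ)) * Complex.I_sq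
  rw [h, Complex.add_re, Complex.ofReal_re, Complex.re_ofReal_mul, Complex.I_re, mul_zero,
    add_zero]

theorem hasDeriv (v : ℝ) (k : ℕ) (hk : 0 < k) :
    HasDerivAt (fun v : ℝ => cay v ^ k / (-(2 * Complex.I * k)))
      (cay v ^ k * (((1 : ℂ) + (v : ℂ) ^ 2)⁻¹)) v := by
  have h0 : HasDerivAt (fun v : ℝ => (v : ℂ)) 1 v := Complex.ofRealCLM.hasDerivAt
  have h1 : HasDerivAt cay ((1 * ((v : ℂ) - Complex.I) - ((v : ℂ) + Complex.I) * 1) /
      ((v : ℂ) - Complex.I) ^ 2) v :=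
    (h0.add_const Complex.I).div (h0.sub_const Complex.I) (sub_ne v)
  have h2 := (h1.pow k).div_const (-(2 * Complex.I * k))
  have hk' : (k : ℂ) ≠ 0 := by exact_mod_cast hk.ne'
  have hs := sub_ne v
  have ha := add_ne v
  have e : ((k : ℂ) * cay v ^ (k - 1) * ((1 * ((v : ℂ) - Complex.I) - ((v : ℂ) + Complex.I) * 1) /
      ((v : ℂ) - Complex.I) ^ 2)) / (-(2 * Complex.I * k)) =
      cay v ^ k * (((1 : ℂ) + (v : ℂ) ^ 2)⁻¹) := by
    obtain ⟨j, rfl⟩ : ∃ j, k = j + 1 := ⟨k - 1, by omega⟩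
    rw [Nat.add_sub_cancel, pow_succ (cay v) j, ← prod_eq]
    have hc : cay v = ((v : ℂ) + Complex.I) / ((v : ℂ) - Complex.I) := rfl
    generalize hG : cay v ^ j = G
    rw [hc]
    have hI := Complex.I_ne_zero
    field_simp
    ring
  rw [e] at h2
  exact h2

theorem sq_tendsto : Tendsto (fun v : ℝ => 1 + v ^ 2) (cocompact ℝ) atTop := by
  have h1 : Tendsto (fun v : ℝ => ‖v‖ ^ 2) (cocompact ℝ) atTop :=
    (tendsto_pow_atTop two_ne_zero).comp (tendsto_norm_cocompact_atTop (E := ℝ))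
  refine tendsto_atTop_add_const_left _ 1 (h1.congr fun v => ?_)
  rw [Real.norm_eq_abs, sq_abs]

theorem cay_tendsto : Tendsto cay (cocompact ℝ) (𝓝 1) := by
  rw [tendsto_iff_norm_sub_tendsto_zero]
  have h1 : Tendsto (fun v : ℝ => 4 / (1 + v ^ 2)) (cocompact ℝ) (𝓝 0) :=
    tendsto_const_nhds.div_atTop sq_tendsto
  have h2 := (Real.continuous_sqrt.tendsto 0).comp h1
  rw [Real.sqrt_zero] at h2
  refine h2.congr fun v => ?_
  simp only [Function.comp_apply]
  rw [← norm_one_sub, Real.sqrt_sq (norm_nonneg _), norm_sub_rev]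

theorem moment (k : ℕ) (hk : 0 < k) :
    ∫ v, cay v ^ k ∂(ProbabilityTheory.cauchyMeasure 0 1) = 0 := by
  rw [ProbabilityTheory.cauchyMeasure_of_scale_ne_zero 0 one_ne_zero,
    integral_withDensity_eq_integral_toReal_smul (by fun_prop)
      (ae_of_all _ fun v => by
        rw [ProbabilityTheory.cauchyPDF_def]
        exact ENNReal.ofReal_lt_top)]
  have e : ∀ v : ℝ, (ProbabilityTheory.cauchyPDF 0 1 v).toReal • cay v ^ k =
      (Real.pi⁻¹ : ℂ) * (cay v ^ k * (((1 : ℂ) + (v : ℂ) ^ 2)⁻¹)) := by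
    intro v
    rw [ProbabilityTheory.cauchyPDF_def, ENNReal.toReal_ofReal
      (ProbabilityTheory.cauchyPDF_pos 0 one_ne_zero v).le,
      ProbabilityTheory.cauchyPDFReal_def, Complex.real_smul]
    push_cast
    rw [sub_zero, mul_one, one_pow, add_comm ((v : ℂ) ^ 2) 1]
    ring
  simp only [e]
  rw [integral_const_mul]
  have hint : Integrable fun v : ℝ => cay v ^ k * (((1 : ℂ) + (v : ℂ) ^ 2)⁻¹) := by
    refine (integrable_inv_one_add_sq).mono' ?_ (ae_of_all _ fun v => ?_)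
    · have hc : Continuous fun v : ℝ => cay v ^ k * (((1 : ℂ) + (v : ℂ) ^ 2)⁻¹) := by
        refine (cont_cay.pow k).mul (Continuous.inv₀ ?_ fun v => ?_)
        · exact continuous_const.add (Complex.continuous_ofReal.pow 2)
        · exact_mod_cast one_add_ne v
      exact hc.aestronglyMeasurable
    · rw [norm_mul, norm_pow, norm_cay, one_pow, one_mul, norm_inv]
      have h1 : ((1 : ℂ) + (v : ℂ) ^ 2) = ((1 + v ^ 2 : ℝ) : ℂ) := by push_cast; rfl
      rw [h1, Complex.norm_real, Real.norm_of_nonneg (by positivity)]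
  have hlim : Tendsto (fun v : ℝ => cay v ^ k / (-(2 * Complex.I * k))) (cocompact ℝ)
      (𝓝 (1 ^ k / (-(2 * Complex.I * k)))) := (cay_tendsto.pow k).div_const _
  rw [integral_of_hasDerivAt_of_tendsto (fun v => hasDeriv v k hk) hint
    (hlim.mono_left atBot_le_cocompact) (hlim.mono_left atTop_le_cocompact), sub_self, mul_zero]

theorem main : S_CAY := by
  refine ⟨norm_cay, cont_cay, fun v => ⟨norm_one_sub v, ?_⟩, fun k hk => moment k hk⟩
  rw [norm_one_sub, cay_re]
  have := one_add_ne v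
  field_simp
  ring

end Pool.Agent.W335.LLCay
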