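import Pool.Agent.W749.JI.Stm
import Pool.Agent.W368.SL.L1

/-! JI-KR: Krull step for infinitely many equations. -/

set_option autoImplicit false

namespace Pool.W335.JIKR

open MvPolynomial

theorem main : Pool.Agent.W749.JI.S_KR := by
  intro n L S B A p h
  set v : S → MvPolynomial (Fin n) ℂ × (Fin L → MvPolynomial (Fin n) ℂ) :=
    fun s => (B s, fun l => A l s) with hv
  have hfg : (Submodule.span (MvPolynomial (Fin n) ℂ) (Set.range v)).FG := IsNoetherian.noetherian _
  obtain ⟨s', hs', hspan⟩ := Submodule.fg_span_iff_fg_span_finset_subset _ |>.1 hfg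
  have hex : ∀ x : s', ∃ s : S, v s = x := fun x => hs' x.2
  choose g hg using hex
  set e := s'.equivFin with he
  obtain ⟨r, c, hr, hc⟩ := Pool.Agent.W368.SL.krull (N := n) (T := s'.card) (n := L)
    (fun j => B (g (e.symm j))) (fun k j => A k (g (e.symm j))) p (fun j => h _)
  refine ⟨1 - r, c, ?_, ?_⟩
  · rw [map_sub, map_one, hr, sub_zero]
  set φ : (MvPolynomial (Fin n) ℂ × (Fin L → MvPolynomial (Fin n) ℂ)) →ₗ[MvPolynomial (Fin n) ℂ]
      MvPolynomial (Fin n) ℂ :=
    (1 - r) • LinearMap.fst _ _ _ - (∑ l, c l • LinearMap.proj l) ∘ₗ LinearMap.snd _ _ _ with hφ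
  have hφa : ∀ x, φ x = (1 - r) * x.1 - ∑ l, c l * x.2 l := by
    intro x
    simp [hφ]
  have hle : Submodule.span (MvPolynomial (Fin n) ℂ) (Set.range v) ≤ LinearMap.ker φ := by
    rw [hspan, Submodule.span_le]
    intro x hx
    rw [SetLike.mem_coe, LinearMap.mem_ker, hφa]
    have h1 := hc (e ⟨x, hx⟩)
    simp only [Equiv.symm_apply_apply] at h1
    have h2 := hg ⟨x, hx⟩
    have h3 : B (g ⟨x, hx⟩) = x.1 := congrArg Prod.fst h2
    have h4 : ∀ l, A l (g ⟨x, hx⟩) = x.2 l := fun l => congrFun (congrArg Prod.snd h2) l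
    rw [h3] at h1
    simp only [h4] at h1
    rw [h1, sub_self]
  intro s
  have h5 := hle (Submodule.subset_span (Set.mem_range_self s))
  rw [LinearMap.mem_ker, hφa, sub_eq_zero] at h5
  exact h5

end Pool.W335.JIKR
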