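import Pool.Agent.W508.NS.Plan
import Pool.Agent.Helper472.Lat_Chars

/-!
# NS-UE for MP_913761_an : without nontrivial invariant eigenfunctions, unique ergodicity lifts
-/

set_option linter.unusedSectionVars false
set_option linter.style.haveILetI false

open MeasureTheory Topology Set

namespace Pool.W335.NSue

open Pool.W508.NS

universe u

/-! ### Characters (as in `Pool.Agent.Helper69.CC`, universe polymorphic) -/

section Chars

variable {Γ : Type u} [CommGroup Γ] [TopologicalSpace Γ] [IsTopologicalGroup Γ]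

/-- complex function of a continuous character -/
noncomputable def cf (χ : Γ →ₜ* Circle) : C(Γ, ℂ) :=
  ⟨fun x => (χ x : ℂ), continuous_subtype_val.comp χ.continuous_toFun⟩

theorem cf_apply (χ : Γ →ₜ* Circle) (x : Γ) : cf χ x = (χ x : ℂ) := rfl

theorem cf_mul (χ ψ : Γ →ₜ* Circle) : cf (χ * ψ) = cf χ * cf ψ := by
  ext x; simp [cf_apply]

theorem cf_one : cf (1 : Γ →ₜ* Circle) = 1 := by
  ext x; simp [cf_apply]

theorem star_cf (χ : Γ →ₜ* Circle) : star (cf χ) = cf χ⁻¹ := by
  ext x
  have h : (χ⁻¹ : Γ →ₜ* Circle) x = (χ x)⁻¹ := rfl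
  rw [cf_apply, h, Circle.coe_inv_eq_conj]
  simp [cf_apply]

variable [CompactSpace Γ] [T2Space Γ]

/-- star subalgebra generated by characters -/
noncomputable def alg (Γ : Type u) [CommGroup Γ] [TopologicalSpace Γ] [IsTopologicalGroup Γ]
    [CompactSpace Γ] [T2Space Γ] : StarSubalgebra ℂ C(Γ, ℂ) where
  toSubalgebra := Algebra.adjoin ℂ (Set.range (cf (Γ := Γ)))
  star_mem' := by
    change Algebra.adjoin ℂ (Set.range (cf (Γ := Γ))) ≤
      star (Algebra.adjoin ℂ (Set.range (cf (Γ := Γ))))
    refine Algebra.adjoin_le ?_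
    rintro - ⟨χ, rfl⟩
    exact Algebra.subset_adjoin ⟨χ⁻¹, (star_cf χ).symm⟩

theorem alg_coe : Subalgebra.toSubmodule (alg Γ).toSubalgebra =
      Submodule.span ℂ (Set.range (cf (Γ := Γ))) := by
  apply Algebra.adjoin_eq_span_of_subset
  refine Set.Subset.trans ?_ Submodule.subset_span
  intro x hx
  refine Submonoid.closure_induction (fun _ => id) ⟨1, cf_one⟩ ?_ hx
  rintro - - - - ⟨m, rfl⟩ ⟨n, rfl⟩
  exact ⟨m * n, cf_mul _ _⟩

theorem functional_zero (L : C(Γ, ℂ) →L[ℂ] ℂ)
    (hL : ∀ χ : Γ →ₜ* Circle, L (cf χ) = 0) : L = 0 := by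
  have hdense : (alg Γ).topologicalClosure = ⊤ := by
    apply ContinuousMap.starSubalgebra_topologicalClosure_eq_top_of_separatesPoints
    intro x y hxy
    obtain ⟨χ, hne⟩ := Pool.LatH472.chars (x * y⁻¹) (by rwa [Ne, mul_inv_eq_one])
    refine ⟨_, ⟨cf χ, Algebra.subset_adjoin ⟨χ, rfl⟩, rfl⟩, ?_⟩
    intro h
    apply hne
    have h2 : χ x = χ y := Subtype.coe_injective (by simpa [cf_apply] using h)
    rw [map_mul, map_inv, h2, mul_inv_cancel]
  have hz : ∀ f ∈ Submodule.span ℂ (Set.range (cf (Γ := Γ))), L f = 0 := by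
    intro f hf
    induction hf using Submodule.span_induction with
    | mem x hx => obtain ⟨χ, rfl⟩ := hx; exact hL χ
    | zero => simp
    | add x y _ _ hx hy => rw [map_add, hx, hy, add_zero]
    | smul a x _ hx => rw [map_smul, hx, smul_zero]
  have hcl : IsClosed {f : C(Γ, ℂ) | L f = 0} := isClosed_eq L.continuous continuous_const
  have hall : ∀ f, L f = 0 := by
    intro f
    have hf : f ∈ ((alg Γ).topologicalClosure : Set C(Γ, ℂ)) := by rw [hdense]; trivial
    rw [StarSubalgebra.topologicalClosure_coe] at hf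
    refine closure_minimal ?_ hcl hf
    intro g hg
    apply hz
    rw [← alg_coe]
    exact hg
  ext f
  exact hall f

variable [MeasurableSpace Γ] [BorelSpace Γ] (μ : Measure Γ) [μ.IsHaarMeasure]

theorem integral_char (χ : Γ →ₜ* Circle) (hχ : χ ≠ 1) : ∫ x, (χ x : ℂ) ∂μ = 0 := by
  obtain ⟨g, hg⟩ : ∃ g, χ g ≠ 1 := by
    by_contra h
    push Not at h
    exact hχ (by ext x; rw [h x]; rfl)
  have h1 : ∫ x, (χ (g * x) : ℂ) ∂μ = ∫ x, (χ x : ℂ) ∂μ :=
    integral_mul_left_eq_self (fun x => (χ x : ℂ)) g
  have h2 : ∫ x, (χ (g * x) : ℂ) ∂μ = (χ g : ℂ) * ∫ x, (χ x : ℂ) ∂μ := by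
    rw [← integral_const_mul]
    congr 1
    ext x
    rw [map_mul, Circle.coe_mul]
  rw [h1] at h2
  have h3 : (1 - (χ g : ℂ)) * ∫ x, (χ x : ℂ) ∂μ = 0 := by
    rw [sub_mul, one_mul, ← h2, sub_self]
  rcases mul_eq_zero.1 h3 with h | h
  · exfalso
    apply hg
    apply Subtype.coe_injective
    change (χ g : ℂ) = ((1 : Circle) : ℂ)
    rw [Circle.coe_one]
    linear_combination -h
  · exact h

theorem cint (f : C(Γ, ℂ)) : Integrable f μ :=
  f.continuous.integrable_of_hasCompactSupport (HasCompactSupport.of_compactSpace f)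

/-- integration against a continuous function as a functional -/
noncomputable def intL (g : C(Γ, ℂ)) : C(Γ, ℂ) →L[ℂ] ℂ :=
  LinearMap.mkContinuous
    { toFun := fun f => ∫ x, f x * g x ∂μ
      map_add' := by
        intro f f'
        simp only [ContinuousMap.add_apply, add_mul]
        exact integral_add (cint μ (f * g)) (cint μ (f' * g))
      map_smul' := by
        intro c f
        simp only [ContinuousMap.smul_apply, smul_eq_mul, mul_assoc, RingHom.id_apply]
        exact integral_const_mul _ _ }
    ((μ Set.univ).toReal * ‖g‖) (by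
      intro f
      change ‖∫ x, f x * g x ∂μ‖ ≤ _
      have h1 : ∀ᵐ x ∂μ, ‖f x * g x‖ ≤ ‖f‖ * ‖g‖ := by
        refine Filter.Eventually.of_forall fun x => ?_
        rw [norm_mul]
        exact mul_le_mul (f.norm_coe_le_norm x) (g.norm_coe_le_norm x) (norm_nonneg _)
          (norm_nonneg _)
      have h2 := norm_integral_le_of_norm_le_const h1
      refine h2.trans (le_of_eq ?_)
      rw [Measure.real]
      ring)

theorem intL_apply (g f : C(Γ, ℂ)) : intL μ g f = ∫ x, f x * g x ∂μ := rfl

/-- a continuous function orthogonal to all characters is zero -/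
theorem cont_zero (g : C(Γ, ℂ)) (h : ∀ χ : Γ →ₜ* Circle, ∫ x, (χ x : ℂ) * g x ∂μ = 0) :
    g = 0 := by
  have h0 : intL μ g = 0 := functional_zero _ (fun χ => h χ)
  have h1 : intL μ g (star g) = 0 := by rw [h0]; rfl
  rw [intL_apply] at h1
  have h2 : ∀ x, (star g) x * g x = (((‖g x‖ ^ 2 : ℝ)) : ℂ) := by
    intro x
    rw [ContinuousMap.star_apply, Complex.star_def, Complex.conj_mul']
    push_cast
    rfl
  simp only [h2] at h1
  have h4 : ∫ x, ((‖g x‖ ^ 2 : ℝ) : ℂ) ∂μ = ((∫ x, ‖g x‖ ^ 2 ∂μ : ℝ) : ℂ) :=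
    integral_ofReal (𝕜 := ℂ) (f := fun x => ‖g x‖ ^ 2)
  rw [h4, Complex.ofReal_eq_zero] at h1
  by_contra hne
  obtain ⟨x, hx⟩ : ∃ x, g x ≠ 0 := by
    by_contra hx
    push Not at hx
    exact hne (by ext x; exact hx x)
  have h5 : 0 < ∫ x, ‖g x‖ ^ 2 ∂μ := by
    refine Continuous.integral_pos_of_hasCompactSupport_nonneg_nonzero (by fun_prop)
      (HasCompactSupport.of_compactSpace _) (fun x => by positivity) (x := x) ?_
    positivity
  exact h5.ne' h1

end Chars


/-! ### The components of a function -/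

section Comp

variable {G K N : Type u} [Group G] [CommGroup K] [TopologicalSpace K]
    [IsTopologicalGroup K] [CompactSpace K] [T2Space K]
    [TopologicalSpace N] [CompactSpace N] [T2Space N] [SecondCountableTopology N]
    [MeasurableSpace N] [BorelSpace N]
    [MulAction G N] [ContinuousConstSMul G N] [MulAction K N] [ContinuousSMul K N]
    [MeasurableSpace K] [BorelSpace K]

/-- normalised Haar measure -/
noncomputable def eta (K : Type u) [CommGroup K] [TopologicalSpace K]
    [IsTopologicalGroup K] [CompactSpace K] [T2Space K] [MeasurableSpace K] [BorelSpace K] :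
    Measure K := Measure.haarMeasure ⊤

instance : (eta K).IsHaarMeasure := by unfold eta; infer_instance

instance : IsProbabilityMeasure (eta K) := by
  refine ⟨?_⟩
  have h := Measure.haarMeasure_self (K₀ := (⊤ : TopologicalSpace.PositiveCompacts K))
  rw [TopologicalSpace.PositiveCompacts.coe_top] at h
  exact h

theorem meas_smul : Measurable (fun p : K × N => p.1 • p.2) := continuous_smul.measurable

/-- the `χ`-component -/
noncomputable def comp (χ : K →ₜ* Circle) (f : N → ℂ) (x : N) : ℂ :=
  ∫ k : K, ((χ⁻¹ k : Circle) : ℂ) * f (k • x) ∂(eta K)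

theorem cont_char (χ : K →ₜ* Circle) : Continuous (fun k => ((χ k : Circle) : ℂ)) :=
  continuous_subtype_val.comp χ.continuous_toFun

theorem inv_char (χ : K →ₜ* Circle) (k : K) : χ⁻¹ k = (χ k)⁻¹ := rfl

theorem comp_meas (χ : K →ₜ* Circle) {f : N → ℂ} (hf : Measurable f) :
    Measurable (comp χ f) := by
  have h : StronglyMeasurable (Function.uncurry fun (x : N) (k : K) =>
      ((χ⁻¹ k : Circle) : ℂ) * f (k • x)) := by
    apply Measurable.stronglyMeasurable
    apply Measurable.mul
    · exact (cont_char χ⁻¹).measurable.comp measurable_snd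
    · exact hf.comp (meas_smul.comp measurable_swap)
  exact h.integral_prod_right.measurable

theorem comp_bound (χ : K →ₜ* Circle) {f : N → ℂ} {B : ℝ} (hB : ∀ x, ‖f x‖ ≤ B) (x : N) :
    ‖comp χ f x‖ ≤ B := by
  have h := norm_integral_le_of_norm_le_const (μ := eta K)
    (f := fun k : K => ((χ⁻¹ k : Circle) : ℂ) * f (k • x)) (C := B)
    (Filter.Eventually.of_forall fun k => by rw [norm_mul, Circle.norm_coe, one_mul]; exact hB _)
  simpa [comp] using h

theorem comp_smulK (χ : K →ₜ* Circle) (f : N → ℂ) (k' : K) (x : N) :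
    comp χ f (k' • x) = (χ k' : ℂ) * comp χ f x := by
  unfold comp
  rw [← integral_mul_left_eq_self (fun k => ((χ⁻¹ k : Circle) : ℂ) * f (k • x)) k',
    ← integral_const_mul]
  congr 1
  funext k
  rw [inv_char, inv_char, map_mul, mul_inv, Circle.coe_mul, ← mul_assoc, ← mul_assoc,
    ← Circle.coe_mul, mul_inv_cancel, Circle.coe_one, one_mul, smul_smul, mul_comm k k']

theorem comp_smulG (m : Measure N) [SFinite m] (χ : K →ₜ* Circle) {f : N → ℂ}
    (hf : Measurable f) (g : G)
    (hcomm : ∀ (g : G) (k : K) (x : N), g • k • x = k • g • x)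
    (hK : ∀ k : K, m.map (fun x => k • x) = m) (hfG : ∀ᵐ x ∂m, f (g • x) = f x) :
    ∀ᵐ x ∂m, comp χ f (g • x) = comp χ f x := by
  have h1 : ∀ k : K, ∀ᵐ x ∂m, f (g • k • x) = f (k • x) := by
    intro k
    have h2 : MeasurePreserving (fun x => k • x) m m :=
      ⟨(continuous_const_smul k).measurable, hK k⟩
    exact h2.quasiMeasurePreserving.ae hfG
  have h3 : ∀ᵐ x ∂m, ∀ᵐ k ∂(eta K), f (g • k • x) = f (k • x) := by
    rw [Measure.ae_ae_comm]
    · exact Filter.Eventually.of_forall h1
    · apply measurableSet_eq_fun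
      · exact hf.comp ((continuous_const_smul g).measurable.comp (meas_smul.comp measurable_swap))
      · exact hf.comp (meas_smul.comp measurable_swap)
  filter_upwards [h3] with x hx
  unfold comp
  apply integral_congr_ae
  filter_upwards [hx] with k hk
  rw [← hcomm g k x, hk]

/-- integration against a bounded function as a functional on continuous functions -/
noncomputable def intF (m : Measure N) [IsFiniteMeasure m] (f : N → ℂ) (hf : Measurable f) (B : ℝ)
    (hB : ∀ x, ‖f x‖ ≤ B) : C(N, ℂ) →L[ℂ] ℂ :=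
  LinearMap.mkContinuous
    { toFun := fun h => ∫ x, h x * f x ∂m
      map_add' := by
        intro h h'
        simp only [ContinuousMap.add_apply, add_mul]
        have hi : ∀ h : C(N, ℂ), Integrable (fun x => h x * f x) m := fun h =>
          Integrable.of_bound (h.continuous.measurable.mul hf).aestronglyMeasurable (‖h‖ * B)
            (Filter.Eventually.of_forall fun x => by
              rw [norm_mul]
              exact mul_le_mul (h.norm_coe_le_norm x) (hB x) (norm_nonneg _) (norm_nonneg _))
        exact integral_add (hi h) (hi h')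
      map_smul' := by
        intro c f
        simp only [ContinuousMap.smul_apply, smul_eq_mul, mul_assoc, RingHom.id_apply]
        exact integral_const_mul _ _ }
    ((m Set.univ).toReal * B) (by
      intro h
      change ‖∫ x, h x * f x ∂m‖ ≤ _
      have h1 : ∀ᵐ x ∂m, ‖h x * f x‖ ≤ ‖h‖ * B := by
        refine Filter.Eventually.of_forall fun x => ?_
        rw [norm_mul]
        exact mul_le_mul (h.norm_coe_le_norm x) (hB x) (norm_nonneg _)
          (norm_nonneg _)
      have h2 := norm_integral_le_of_norm_le_const h1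
      refine h2.trans (le_of_eq ?_)
      rw [Measure.real]
      ring)

theorem intF_apply (m : Measure N) [IsFiniteMeasure m] (f : N → ℂ) (hf : Measurable f) (B : ℝ)
    (hB : ∀ x, ‖f x‖ ≤ B) (h : C(N, ℂ)) : intF m f hf B hB h = ∫ x, h x * f x ∂m := rfl

/-- the correlation function -/
theorem cont_corr (m : Measure N) [IsFiniteMeasure m] (f : N → ℂ) (hf : Measurable f) (B : ℝ)
    (hB : ∀ x, ‖f x‖ ≤ B) (h : C(N, ℂ)) :
    Continuous (fun k : K => ∫ x, h (k⁻¹ • x) * f x ∂m) := by
  let H : C(K × N, ℂ) := ⟨fun p => h (p.1⁻¹ • p.2), by fun_prop⟩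
  have h1 : Continuous (fun k : K => intF m f hf B hB (H.curry k)) :=
    (intF m f hf B hB).continuous.comp H.curry.continuous
  exact h1

/-- a bounded measurable function is determined by its integrals against continuous functions -/
theorem ae_const_of_corr (m : Measure N) [IsFiniteMeasure m] (f : N → ℂ) (hf : Measurable f)
    (B : ℝ) (hB : ∀ x, ‖f x‖ ≤ B) (c : ℂ)
    (h : ∀ φ : C(N, ℂ), ∫ x, φ x * f x ∂m = c * ∫ x, φ x ∂m) : ∀ᵐ x ∂m, f x = c := by
  letI : MetricSpace N := TopologicalSpace.metrizableSpaceMetric N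
  have hmem : MemLp (fun x => f x - c) 2 m :=
    MemLp.of_bound (hf.sub_const c).aestronglyMeasurable (B + ‖c‖)
      (Filter.Eventually.of_forall fun x => (norm_sub_le _ _).trans (by
        have := hB x; linarith))
  have h0 : hmem.toLp _ = 0 := by
    refine DenseRange.eq_zero_of_inner_right ℂ
      (ContinuousMap.toLp_denseRange (E := ℂ) m ℂ (p := 2) (by norm_num)) ?_
    intro φ
    rw [L2.inner_def]
    have h1 : ∫ x, inner ℂ ((ContinuousMap.toLp 2 m ℂ φ : Lp ℂ 2 m) x) (hmem.toLp _ x) ∂m =
        ∫ x, (star φ) x * f x - c * (star φ) x ∂m := by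
      apply integral_congr_ae
      filter_upwards [ContinuousMap.coeFn_toLp (p := 2) (𝕜 := ℂ) m φ, hmem.coeFn_toLp] with x h1 h2
      rw [h1, h2]
      simp only [RCLike.inner_apply, ContinuousMap.star_apply, Complex.star_def]
      ring
    have hi : Integrable (fun x => (star φ) x * f x) m :=
      Integrable.of_bound ((star φ).continuous.measurable.mul hf).aestronglyMeasurable
        (‖star φ‖ * B) (Filter.Eventually.of_forall fun x => by
          rw [norm_mul]
          exact mul_le_mul ((star φ).norm_coe_le_norm x) (hB x) (norm_nonneg _) (norm_nonneg _))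
    have hi2 : Integrable (fun x => c * (star φ) x) m :=
      ((star φ).continuous.integrable_of_hasCompactSupport
        (HasCompactSupport.of_compactSpace _)).const_mul c
    rw [h1, integral_sub hi hi2, h (star φ), integral_const_mul, sub_self]
  have h1 := (hmem.coeFn_toLp).symm
  rw [h0] at h1
  filter_upwards [h1, Lp.coeFn_zero ℂ 2 m] with x hx hx2
  rw [hx2] at hx
  simpa [sub_eq_zero] using hx

end Comp


/-! ### Ergodicity -/

section Erg

variable {G K N : Type u} [Group G] [CommGroup K] [TopologicalSpace K]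
    [IsTopologicalGroup K] [CompactSpace K] [T2Space K]
    [TopologicalSpace N] [CompactSpace N] [T2Space N] [SecondCountableTopology N]
    [MeasurableSpace N] [BorelSpace N]
    [MulAction G N] [ContinuousConstSMul G N] [MulAction K N] [ContinuousSMul K N]

theorem erg (hconst : S_const.{u}) (X : Set N) (m : Measure N)
    (hcomm : ∀ (g : G) (k : K) (x : N), g • k • x = k • g • x)
    (hm : IsInvOn (acts G N ∪ acts K N) X m) (hone : AtMostOne (acts G N ∪ acts K N) X)
    (hev : ∀ (χ : ContinuousMonoidHom K Circle) (f : N → ℂ), Measurable f → (∀ x, ‖f x‖ ≤ 1) →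
      (∀ᵐ x ∂m, ‖f x‖ = 1) → (∀ g : G, ∀ᵐ x ∂m, f (g • x) = f x) →
      (∀ (k : K) (x : N), f (k • x) = (χ k : ℂ) * f x) → ∀ k, χ k = 1)
    (f : N → ℂ) (hf : Measurable f) (B : ℝ) (hB : ∀ x, ‖f x‖ ≤ B)
    (hfG : ∀ g : G, ∀ᵐ x ∂m, f (g • x) = f x) : ∃ c : ℂ, ∀ᵐ x ∂m, f x = c := by
  letI : MeasurableSpace K := borel K
  haveI : BorelSpace K := ⟨rfl⟩
  haveI : IsProbabilityMeasure m := hm.prob
  have hK : ∀ k : K, m.map (fun x => k • x) = m := fun k => hm.inv _ (Or.inr ⟨k, rfl⟩)
  have hcst : ∀ F : N → ℂ, Measurable F → (∀ x, ‖F x‖ ≤ B) →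
      (∀ g : G, ∀ᵐ x ∂m, F (g • x) = F x) → (∀ k : K, ∀ᵐ x ∂m, F (k • x) = F x) →
      ∃ c, ∀ᵐ x ∂m, F x = c := by
    intro F hF hFB hFG hFK
    refine hconst N (acts G N ∪ acts K N) X m ?_ hm hone F hF ⟨B, hFB⟩ ?_
    · rintro t (⟨g, rfl⟩ | ⟨k, rfl⟩)
      · exact (continuous_const_smul g).measurable
      · exact (continuous_const_smul k).measurable
    · rintro t (⟨g, rfl⟩ | ⟨k, rfl⟩)
      · exact hFG g
      · exact hFK k
  have hzero : ∀ χ : K →ₜ* Circle, χ ≠ 1 → ∀ᵐ x ∂m, comp χ f x = 0 := by
    intro χ hχ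
    obtain ⟨c, hc⟩ := hcst (fun x => ((‖comp χ f x‖ : ℝ) : ℂ))
      (Complex.measurable_ofReal.comp (comp_meas χ hf).norm)
      (fun x => by
        rw [Complex.norm_real, norm_norm]
        exact comp_bound χ hB x)
      (fun g => by
        filter_upwards [comp_smulG m χ hf g hcomm hK (hfG g)] with x hx
        rw [hx])
      (fun k => Filter.Eventually.of_forall fun x => by
        rw [comp_smulK, norm_mul, Circle.norm_coe, one_mul])
    by_cases hc0 : c = 0
    · filter_upwards [hc] with x hx
      rw [hc0] at hx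
      simpa using hx
    · exfalso
      apply hχ
      have hne : ∀ᵐ x ∂m, comp χ f x ≠ 0 := by
        filter_upwards [hc] with x hx h0
        rw [h0] at hx
        apply hc0
        rw [← hx]
        simp
      have h1 := hev χ (fun x => comp χ f x / ((‖comp χ f x‖ : ℝ) : ℂ))
        ((comp_meas χ hf).div (Complex.measurable_ofReal.comp (comp_meas χ hf).norm))
        (fun x => by
          rw [norm_div, Complex.norm_real, norm_norm]
          exact div_self_le_one _)
        (by
          filter_upwards [hne] with x hx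
          rw [norm_div, Complex.norm_real, norm_norm]
          exact div_self (norm_ne_zero_iff.2 hx))
        (fun g => by
          filter_upwards [comp_smulG m χ hf g hcomm hK (hfG g)] with x hx
          rw [hx])
        (fun k x => by
          rw [comp_smulK, norm_mul, Circle.norm_coe, one_mul, mul_div_assoc])
      ext k
      rw [h1 k]
      rfl
  obtain ⟨c, hc⟩ := hcst (comp (1 : K →ₜ* Circle) f) (comp_meas _ hf) (comp_bound _ hB)
    (fun g => comp_smulG m _ hf g hcomm hK (hfG g))
    (fun k => Filter.Eventually.of_forall fun x => by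
      rw [comp_smulK]
      have : (1 : K →ₜ* Circle) k = 1 := rfl
      rw [this, Circle.coe_one, one_mul])
  refine ⟨c, ae_const_of_corr m f hf B hB c ?_⟩
  intro φ
  let Φ : C(K, ℂ) := ⟨fun k => ∫ x, φ (k⁻¹ • x) * f x ∂m - c * ∫ x, φ x ∂m,
    (cont_corr m f hf B hB φ).sub continuous_const⟩
  have hΦ : Φ = 0 := by
    apply cont_zero (eta K)
    intro χ
    have h1 : ∀ k : K, ∫ x, φ (k⁻¹ • x) * f x ∂m = ∫ x, φ x * f (k • x) ∂m := by
      intro k
      have h2 : MeasurePreserving (fun x => k • x) m m :=
        ⟨(continuous_const_smul k).measurable, hK k⟩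
      conv_lhs => rw [← hK k]
      rw [integral_map (continuous_const_smul k).measurable.aemeasurable]
      · simp only [inv_smul_smul]
      · exact ((φ.continuous.measurable.comp (continuous_const_smul k⁻¹).measurable).mul
          hf).aestronglyMeasurable
    have h2 : ∫ k, (χ k : ℂ) * Φ k ∂(eta K) =
        ∫ k, ∫ x, (χ k : ℂ) * (φ x * f (k • x)) ∂m ∂(eta K) -
          ∫ k, (χ k : ℂ) * (c * ∫ x, φ x ∂m) ∂(eta K) := by
      rw [← integral_sub]
      · congr 1
        funext k
        rw [integral_const_mul, ← h1, ← mul_sub]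
        rfl
      · have hcc : Continuous (fun k : K => (χ k : ℂ) * ∫ x, φ (k⁻¹ • x) * f x ∂m) :=
          (cont_char χ).mul (cont_corr m f hf B hB φ)
        have := cint (eta K) ⟨_, hcc⟩
        refine this.congr (Filter.Eventually.of_forall fun k => ?_)
        have h6 : ∫ x, (χ k : ℂ) * (φ x * f (k • x)) ∂m =
            (χ k : ℂ) * ∫ x, φ (k⁻¹ • x) * f x ∂m := by
          rw [integral_const_mul, h1]
        exact h6.symm
      · exact (cint (eta K) (cf χ)).mul_const _
    have h3 : ∫ k, ∫ x, (χ k : ℂ) * (φ x * f (k • x)) ∂m ∂(eta K) =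
        ∫ x, φ x * comp χ⁻¹ f x ∂m := by
      rw [integral_integral_swap]
      · congr 1
        funext x
        unfold comp
        rw [← integral_const_mul]
        congr 1
        funext k
        rw [inv_inv]
        ring
      · apply Integrable.of_bound (C := ‖φ‖ * B)
        · apply Measurable.aestronglyMeasurable
          exact ((cont_char χ).measurable.comp measurable_fst).mul
            ((φ.continuous.measurable.comp measurable_snd).mul (hf.comp meas_smul))
        · refine Filter.Eventually.of_forall fun p => ?_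
          simp only [Function.uncurry]
          rw [norm_mul, norm_mul, Circle.norm_coe, one_mul]
          exact mul_le_mul (φ.norm_coe_le_norm _) (hB _) (norm_nonneg _) (norm_nonneg _)
    rw [h2, h3, integral_mul_const]
    by_cases hχ : χ = 1
    · subst hχ
      have h4 : ∫ x, φ x * comp (1 : K →ₜ* Circle)⁻¹ f x ∂m = ∫ x, φ x * c ∂m := by
        apply integral_congr_ae
        filter_upwards [hc] with x hx
        rw [inv_one, hx]
      have h5 : ∫ k, ((1 : K →ₜ* Circle) k : ℂ) ∂(eta K) = 1 := by
        simp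
      rw [h4, h5, integral_mul_const, one_mul, mul_comm c, sub_self]
    · have h4 : ∫ x, φ x * comp χ⁻¹ f x ∂m = 0 := by
        rw [← integral_zero N ℂ (μ := m)]
        apply integral_congr_ae
        filter_upwards [hzero χ⁻¹ (by rwa [Ne, inv_eq_one])] with x hx
        rw [hx, mul_zero]
      rw [h4, integral_char (eta K) χ hχ, zero_mul, sub_zero]
  have h1 : Φ 1 = 0 := by rw [hΦ]; rfl
  have h2 : Φ 1 = ∫ x, φ ((1 : K)⁻¹ • x) * f x ∂m - c * ∫ x, φ x ∂m := rfl
  rw [h2, sub_eq_zero] at h1
  rw [← h1]
  simp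

end Erg

/-! ### Uniqueness -/

section Uniq

variable {G K N : Type u} [Group G] [CommGroup K] [TopologicalSpace K]
    [IsTopologicalGroup K] [CompactSpace K] [T2Space K]
    [TopologicalSpace N] [CompactSpace N] [T2Space N] [SecondCountableTopology N]
    [MeasurableSpace N] [BorelSpace N]
    [MulAction G N] [ContinuousConstSMul G N] [MulAction K N] [ContinuousSMul K N]

/-- an absolutely continuous invariant measure is a multiple -/
theorem smul_of_ac (m : Measure N) [IsFiniteMeasure m] (hmG : ∀ g : G, m.map (fun x => g • x) = m)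
    (herg : ∀ f : N → ℂ, Measurable f → (∀ x, ‖f x‖ ≤ 1) →
      (∀ g : G, ∀ᵐ x ∂m, f (g • x) = f x) → ∃ c : ℂ, ∀ᵐ x ∂m, f x = c)
    (θ : Measure N) [IsFiniteMeasure θ] (hθ : θ ≪ m)
    (hθG : ∀ g : G, θ.map (fun x => g • x) = θ) : ∃ r : ENNReal, θ = r • m := by
  let ρ := θ.rnDeriv m
  obtain ⟨c, hc⟩ := herg (fun x => (((1 + (ρ x).toReal)⁻¹ : ℝ) : ℂ))
    (Complex.measurable_ofReal.comp
      ((measurable_const.add (Measure.measurable_rnDeriv θ m).ennreal_toReal).inv))
    (fun x => by
      rw [Complex.norm_real, norm_inv]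
      apply inv_le_one_of_one_le₀
      have : (0:ℝ) ≤ (ρ x).toReal := ENNReal.toReal_nonneg
      rw [Real.norm_of_nonneg (by linarith)]
      linarith)
    (fun g => by
      have h1 : MeasurePreserving (fun x => g • x) θ θ :=
        ⟨(continuous_const_smul g).measurable, hθG g⟩
      have h2 : MeasurePreserving (fun x => g • x) m m :=
        ⟨(continuous_const_smul g).measurable, hmG g⟩
      filter_upwards [h1.rnDeriv_comp_aeEq h2] with x hx
      have hx' : ρ (g • x) = ρ x := hx
      rw [hx'])
  refine ⟨ENNReal.ofReal (c.re⁻¹ - 1), ?_⟩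
  have h1 : ∀ᵐ x ∂m, ρ x = ENNReal.ofReal (c.re⁻¹ - 1) := by
    filter_upwards [hc, Measure.rnDeriv_lt_top θ m] with x hx hx2
    rw [← hx, Complex.ofReal_re, inv_inv, add_sub_cancel_left, ENNReal.ofReal_toReal hx2.ne]
  rw [← withDensity_const, ← withDensity_congr_ae h1, Measure.withDensity_rnDeriv_eq θ m hθ]

variable [MeasurableSpace K] [BorelSpace K]

/-- convolution -/
noncomputable def conv (θ : Measure K) (ν : Measure N) : Measure N :=
  (θ.prod ν).map (fun p => p.1 • p.2)

instance (θ : Measure K) (ν : Measure N) [IsFiniteMeasure θ] [IsFiniteMeasure ν] :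
    IsFiniteMeasure (conv θ ν) := by unfold conv; infer_instance

theorem conv_G (θ : Measure K) (ν : Measure N) [IsFiniteMeasure θ] [IsFiniteMeasure ν] (g : G)
    (hcomm : ∀ (g : G) (k : K) (x : N), g • k • x = k • g • x)
    (hν : ν.map (fun x => g • x) = ν) : (conv θ ν).map (fun x => g • x) = conv θ ν := by
  have hg : Measurable (fun x : N => g • x) := (continuous_const_smul g).measurable
  unfold conv
  rw [Measure.map_map hg meas_smul]
  have h1 : (fun x : N => g • x) ∘ (fun p : K × N => p.1 • p.2) =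
      (fun p : K × N => p.1 • p.2) ∘ (Prod.map id (fun x : N => g • x)) := by
    funext p
    exact hcomm g p.1 p.2
  rw [h1, ← Measure.map_map meas_smul (measurable_id.prodMap hg)]
  rw [← Measure.map_prod_map θ ν measurable_id hg, Measure.map_id, hν]

theorem conv_K (θ : Measure K) (ν : Measure N) [IsFiniteMeasure θ] [IsFiniteMeasure ν] (k : K)
    (hθ : θ.map (fun x => k * x) = θ) : (conv θ ν).map (fun x => k • x) = conv θ ν := by
  have hg : Measurable (fun x : N => k • x) := (continuous_const_smul k).measurable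
  have hk : Measurable (fun x : K => k * x) := (continuous_const_mul k).measurable
  unfold conv
  rw [Measure.map_map hg meas_smul]
  have h1 : (fun x : N => k • x) ∘ (fun p : K × N => p.1 • p.2) =
      (fun p : K × N => p.1 • p.2) ∘ (Prod.map (fun x => k * x) id) := by
    funext p
    exact smul_smul k p.1 p.2
  rw [h1, ← Measure.map_map meas_smul (hk.prodMap measurable_id)]
  rw [← Measure.map_prod_map θ ν hk measurable_id, Measure.map_id, hθ]

theorem conv_univ (θ : Measure K) (ν : Measure N) [IsFiniteMeasure θ] [IsFiniteMeasure ν] :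
    conv θ ν univ = θ univ * ν univ := by
  unfold conv
  rw [Measure.map_apply meas_smul MeasurableSet.univ, preimage_univ, ← univ_prod_univ,
    Measure.prod_prod]

theorem conv_supp (θ : Measure K) (ν : Measure N) [IsFiniteMeasure θ] [IsFiniteMeasure ν]
    (X : Set N) (hX : IsClosed X) (hXK : ∀ x ∈ X, ∀ k : K, k • x ∈ X) (hν : ν Xᶜ = 0) :
    conv θ ν Xᶜ = 0 := by
  unfold conv
  rw [Measure.map_apply meas_smul hX.measurableSet.compl]
  apply measure_mono_null (t := univ ×ˢ Xᶜ)
  · rintro ⟨k, x⟩ hx
    exact ⟨trivial, fun h => hx (hXK x h k)⟩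
  · rw [Measure.prod_prod, hν, mul_zero]

theorem conv_ac (θ θ' : Measure K) (ν : Measure N) [IsFiniteMeasure θ] [IsFiniteMeasure θ']
    [IsFiniteMeasure ν] (h : θ ≪ θ') : conv θ ν ≪ conv θ' ν :=
  (h.prod Measure.AbsolutelyContinuous.rfl).map meas_smul

theorem conv_integral (θ : Measure K) (ν : Measure N) [IsFiniteMeasure θ] [IsFiniteMeasure ν]
    (φ : C(N, ℝ)) : ∫ x, φ x ∂(conv θ ν) = ∫ k, ∫ x, φ (k • x) ∂ν ∂θ := by
  unfold conv
  rw [integral_map meas_smul.aemeasurable φ.continuous.measurable.aestronglyMeasurable,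
    integral_prod]
  apply Integrable.of_bound (C := ‖φ‖)
  · exact (φ.continuous.measurable.comp meas_smul).aestronglyMeasurable
  · exact Filter.Eventually.of_forall fun p => φ.norm_coe_le_norm _

/-- a continuous function orthogonal to the nonnegative continuous functions is zero -/
theorem cont_zero' (g : C(K, ℝ))
    (h : ∀ w : C(K, ℝ), (∀ k, 0 ≤ w k) → ∫ k, w k * g k ∂(eta K) = 0) : g = 0 := by
  have hi : ∀ f : C(K, ℝ), Integrable (fun k => f k) (eta K) := fun f =>
    f.continuous.integrable_of_hasCompactSupport (HasCompactSupport.of_compactSpace f)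
  have h1 := h 1 (fun k => zero_le_one)
  have h2 := h (g + ContinuousMap.const K ‖g‖) (fun k => by
    have := g.norm_coe_le_norm k
    have h3 := neg_abs_le (g k)
    simp only [ContinuousMap.add_apply, ContinuousMap.const_apply]
    rw [Real.norm_eq_abs] at this
    linarith)
  simp only [ContinuousMap.one_apply, one_mul] at h1
  have h3 : ∫ k, g k * g k ∂(eta K) = 0 := by
    have h4 : ∫ k, (g + ContinuousMap.const K ‖g‖) k * g k ∂(eta K) =
        ∫ k, g k * g k ∂(eta K) + ∫ k, ‖g‖ * g k ∂(eta K) := by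
      have h6 : Integrable (fun k => g k * g k) (eta K) := hi (g * g)
      rw [← integral_add h6 ((hi g).const_mul _)]
      congr 1
      funext k
      simp only [ContinuousMap.add_apply, ContinuousMap.const_apply]
      ring
    rw [h4, integral_const_mul, h1, mul_zero, add_zero] at h2
    exact h2
  by_contra hne
  obtain ⟨x, hx⟩ : ∃ x, g x ≠ 0 := by
    by_contra hx
    push Not at hx
    exact hne (by ext x; exact hx x)
  have h5 : 0 < ∫ x, g x * g x ∂(eta K) := by
    refine Continuous.integral_pos_of_hasCompactSupport_nonneg_nonzero (by fun_prop)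
      (HasCompactSupport.of_compactSpace _) (fun x => mul_self_nonneg _) (x := x) ?_
    exact mul_self_ne_zero.2 hx
  exact h5.ne' h3

theorem cont_corr' (ν : Measure N) [IsFiniteMeasure ν] (φ : C(N, ℝ)) :
    Continuous (fun k : K => ∫ x, φ (k • x) ∂ν) := by
  let H : C(K × N, ℝ) := ⟨fun p => φ (p.1 • p.2), by fun_prop⟩
  have hi : ∀ h : C(N, ℝ), Integrable (fun x => h x) ν := fun f =>
    f.continuous.integrable_of_hasCompactSupport (HasCompactSupport.of_compactSpace f)
  let I : C(N, ℝ) →L[ℝ] ℝ :=
    LinearMap.mkContinuous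
    { toFun := fun h => ∫ x, h x ∂ν
      map_add' := by
        intro h h'
        simp only [ContinuousMap.add_apply]
        exact integral_add (hi h) (hi h')
      map_smul' := by
        intro c f
        simp only [ContinuousMap.smul_apply, smul_eq_mul, RingHom.id_apply]
        exact integral_const_mul _ _ }
    ((ν Set.univ).toReal) (by
      intro h
      change ‖∫ x, h x ∂ν‖ ≤ _
      have h1 : ∀ᵐ x ∂ν, ‖h x‖ ≤ ‖h‖ :=
        Filter.Eventually.of_forall fun x => h.norm_coe_le_norm x
      have h2 := norm_integral_le_of_norm_le_const h1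
      refine h2.trans (le_of_eq ?_)
      rw [Measure.real]
      ring)
  have h1 : Continuous (fun k : K => I (H.curry k)) := I.continuous.comp H.curry.continuous
  exact h1

end Uniq

theorem main (hconst : S_const.{u}) : S_ue.{u} := by
  intro G K N _ _ _ _ _ _ _ _ _ _ _ _ _ _ _ _ X m hX hXG hXK hcomm hm hone hev
  letI : MeasurableSpace K := borel K
  haveI : BorelSpace K := ⟨rfl⟩
  haveI : IsProbabilityMeasure m := hm.prob
  suffices key : ∀ ν : Measure N, IsInvOn (acts G N) X ν → ν = m by
    intro μ ν hμ hν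
    rw [key μ hμ, key ν hν]
  intro ν hν
  haveI : IsProbabilityMeasure ν := hν.prob
  have hνG : ∀ g : G, ν.map (fun x => g • x) = ν := fun g => hν.inv _ ⟨g, rfl⟩
  have hmG : ∀ g : G, m.map (fun x => g • x) = m := fun g => hm.inv _ (Or.inl ⟨g, rfl⟩)
  have h1 : conv (eta K) ν = m := by
    apply hone _ _ _ hm
    refine ⟨⟨?_⟩, conv_supp _ _ X hX hXK hν.supp, ?_⟩
    · rw [conv_univ, measure_univ, measure_univ, one_mul]
    · rintro t (⟨g, rfl⟩ | ⟨k, rfl⟩)
      · exact conv_G _ _ g hcomm (hνG g)
      · exact conv_K _ _ k (map_mul_left_eq_self (eta K) k)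
  have hall : ∀ φ : C(N, ℝ), ∫ x, φ x ∂ν = ∫ x, φ x ∂m := by
    intro φ
    let Ψ : C(K, ℝ) := ⟨fun k => ∫ x, φ (k • x) ∂ν, cont_corr' ν φ⟩
    let g : C(K, ℝ) := ⟨fun k => ∫ x, φ (k • x) ∂ν - ∫ x, φ x ∂m,
      (cont_corr' ν φ).sub continuous_const⟩
    have hg : g = 0 := by
      apply cont_zero'
      intro w hw
      have hwi : ∀ f : C(K, ℝ), Integrable (fun k => f k) (eta K) := fun f =>
        f.continuous.integrable_of_hasCompactSupport (HasCompactSupport.of_compactSpace f)
      let θ : Measure K := (eta K).withDensity (fun k => ENNReal.ofReal (w k))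
      haveI : IsFiniteMeasure θ := isFiniteMeasure_withDensity_ofReal (hwi w).2
      have hac : conv θ ν ≪ m := by
        rw [← h1]
        exact conv_ac _ _ _ (withDensity_absolutelyContinuous _ _)
      obtain ⟨r, hr⟩ := smul_of_ac (G := G) m hmG
        (fun f hf hfB hfG => erg (K := K) hconst X m hcomm hm hone hev f hf 1 hfB hfG)
        (conv θ ν) hac (fun g => conv_G _ _ g hcomm (hνG g))
      have hr1 : r = θ univ := by
        have h2 := conv_univ θ ν
        rw [hr] at h2
        simpa using h2
      have hr2 : r.toReal = ∫ k, w k ∂(eta K) := by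
        rw [hr1, withDensity_apply _ MeasurableSet.univ, Measure.restrict_univ,
          integral_eq_lintegral_of_nonneg_ae (Filter.Eventually.of_forall hw)
            w.continuous.measurable.aestronglyMeasurable]
      have h3 : ∫ k, w k * ∫ x, φ (k • x) ∂ν ∂(eta K) = (∫ k, w k ∂(eta K)) * ∫ x, φ x ∂m := by
        have h4 := conv_integral θ ν φ
        rw [hr, integral_smul_measure, hr2, smul_eq_mul] at h4
        have h6 := integral_withDensity_eq_integral_toReal_smul (μ := eta K)
          (f := fun k => ENNReal.ofReal (w k))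
          (ENNReal.measurable_ofReal.comp w.continuous.measurable)
          (Filter.Eventually.of_forall fun k => ENNReal.ofReal_lt_top)
          (fun k => ∫ x, φ (k • x) ∂ν)
        rw [h4]
        refine Eq.trans ?_ h6.symm
        congr 1
        funext k
        rw [ENNReal.toReal_ofReal (hw k), smul_eq_mul]
      have h5 : ∫ k, w k * g k ∂(eta K) = ∫ k, w k * ∫ x, φ (k • x) ∂ν ∂(eta K) -
          ∫ k, w k * ∫ x, φ x ∂m ∂(eta K) := by
        have h7 : Integrable (fun k : K => w k * Ψ k) (eta K) := hwi (w * Ψ)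
        have h8 : Integrable (fun k : K => w k * ∫ x, φ x ∂m) (eta K) := (hwi w).mul_const _
        have h9 := integral_sub h7 h8
        refine Eq.trans ?_ h9
        congr 1
        funext k
        rw [← mul_sub]
        rfl
      rw [h5, h3, integral_mul_const, sub_self]
    have h2 : g 1 = 0 := by rw [hg]; rfl
    have h3 : g 1 = ∫ x, φ ((1 : K) • x) ∂ν - ∫ x, φ x ∂m := rfl
    rw [h3, sub_eq_zero] at h2
    rw [← h2]
    simp
  letI : MetricSpace N := TopologicalSpace.metrizableSpaceMetric N
  apply ext_of_forall_integral_eq_of_IsFiniteMeasure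
  intro φ
  exact hall φ.toContinuousMap

end Pool.W335.NSue
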